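import Pool.Agent.LibMS49.Rot
set_option autoImplicit false
namespace Pool.Agent.LibMS49
open MeasureTheory Metric Set Filter Topology

theorem ae_ne_zero : ∀ᵐ q : HH, q ≠ 0 := by
  have h : (volume : Measure HH) {0} = 0 := measure_singleton 0
  refine measure_mono_null (fun q hq => ?_) h
  by_contra hne
  exact hq hne

theorem ae_aux_right {c : HH} (hc : c ≠ 0) {M : Set HH} (hM : volume M = 0) :
    volume {q : HH | q * c ∈ M} = 0 := by
  have hdet : LinearMap.det (LinearMap.mulRight ℝ c) ≠ 0 := by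
    intro h0
    have h1 : (LinearMap.mulRight ℝ c) ∘ₗ (LinearMap.mulRight ℝ c⁻¹) = LinearMap.id := by
      ext1 q
      simp [mul_assoc, inv_mul_cancel₀ hc]
    have h2 := congrArg LinearMap.det h1
    rw [LinearMap.det_comp, h0, zero_mul, LinearMap.det_id] at h2
    exact zero_ne_one h2
  have h3 := Measure.addHaar_preimage_linearMap (volume : Measure HH) hdet M
  rw [hM, mul_zero] at h3
  exact h3

theorem ae_aux_left {c : HH} (hc : c ≠ 0) {M : Set HH} (hM : volume M = 0) :
    volume {q : HH | c * q ∈ M} = 0 := by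
  have hdet : LinearMap.det (LinearMap.mulLeft ℝ c) ≠ 0 := by
    intro h0
    have h1 : (LinearMap.mulLeft ℝ c) ∘ₗ (LinearMap.mulLeft ℝ c⁻¹) = LinearMap.id := by
      ext1 q
      simp [← mul_assoc, mul_inv_cancel₀ hc]
    have h2 := congrArg LinearMap.det h1
    rw [LinearMap.det_comp, h0, zero_mul, LinearMap.det_id] at h2
    exact zero_ne_one h2
  have h3 := Measure.addHaar_preimage_linearMap (volume : Measure HH) hdet M
  rw [hM, mul_zero] at h3
  exact h3

/-- right multiplication by `c ≠ 0` is a linear bijection, so it preserves null sets -/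
theorem ae_mul_right {P : HH → Prop} {c : HH} (hc : c ≠ 0) (h : ∀ᵐ q : HH, P q) :
    ∀ᵐ q : HH, P (q * c) :=
  ae_aux_right hc (M := {q | ¬ P q}) h

theorem ae_mul_left {P : HH → Prop} {c : HH} (hc : c ≠ 0) (h : ∀ᵐ q : HH, P q) :
    ∀ᵐ q : HH, P (c * q) :=
  ae_aux_left hc (M := {q | ¬ P q}) h

/-- `x = rot g y`, `rot q x = rot (q * g) y` -/
theorem ae_rot_of_ae {C : Set E3} {x y : E3} (hxy : ‖x‖ = ‖y‖) (h : ∀ᵐ q : HH, rot q x ∈ C) :
    ∀ᵐ q : HH, rot q y ∈ C := by
  obtain ⟨g, hg, hgx⟩ := exists_rot hxy.symm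
  have h1 := ae_mul_right (c := g⁻¹) (inv_ne_zero hg) h
  filter_upwards [h1] with q hq
  rw [rot_mul, ← hgx, rot_inv_rot hg] at hq
  exact hq

/-- take a measurable null superset `M` of `{q | ¬ P q}`; for every `θ` a.e. `q * g θ ∉ M`; swap
(`Measure.ae_ae_comm` or `Measure.measure_prod_null`) -/
theorem ae_ae_mul_right {P : HH → Prop} (h : ∀ᵐ q : HH, P q) {g : ℝ → HH} (hg : Measurable g)
    (hg0 : ∀ θ, g θ ≠ 0) : ∀ᵐ q : HH, ∀ᵐ θ : ℝ, P (q * g θ) := by
  set M := toMeasurable volume {q : HH | ¬ P q} with hM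
  have hMm : MeasurableSet M := measurableSet_toMeasurable _ _
  have hM0 : volume M = 0 := by rw [hM, measure_toMeasurable]; exact h
  have hms : MeasurableSet {x : HH × ℝ | x.1 * g x.2 ∉ M} :=
    ((measurable_fst.mul (hg.comp measurable_snd)) hMm).compl
  have h1 : ∀ᵐ θ : ℝ, ∀ᵐ q : HH, q * g θ ∉ M := by
    refine Eventually.of_forall fun θ => ?_
    have := ae_aux_right (hg0 θ) hM0
    refine measure_mono_null (fun q hq => ?_) this
    by_contra hne
    exact hq hne
  have h2 := (Measure.ae_ae_comm (μ := (volume : Measure HH)) (ν := (volume : Measure ℝ))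
    (p := fun q θ => q * g θ ∉ M) hms).2 h1
  filter_upwards [h2] with q hq
  filter_upwards [hq] with θ hθ
  by_contra hne
  exact hθ (subset_toMeasurable _ _ hne)

theorem ae_ae_mul_left {P : HH → Prop} (h : ∀ᵐ q : HH, P q) {g : ℝ → HH} (hg : Measurable g)
    (hg0 : ∀ θ, g θ ≠ 0) : ∀ᵐ q : HH, ∀ᵐ θ : ℝ, P (g θ * q) := by
  set M := toMeasurable volume {q : HH | ¬ P q} with hM
  have hMm : MeasurableSet M := measurableSet_toMeasurable _ _
  have hM0 : volume M = 0 := by rw [hM, measure_toMeasurable]; exact h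
  have hms : MeasurableSet {x : HH × ℝ | g x.2 * x.1 ∉ M} :=
    (((hg.comp measurable_snd).mul measurable_fst) hMm).compl
  have h1 : ∀ᵐ θ : ℝ, ∀ᵐ q : HH, g θ * q ∉ M := by
    refine Eventually.of_forall fun θ => ?_
    have := ae_aux_left (hg0 θ) hM0
    refine measure_mono_null (fun q hq => ?_) this
    by_contra hne
    exact hq hne
  have h2 := (Measure.ae_ae_comm (μ := (volume : Measure HH)) (ν := (volume : Measure ℝ))
    (p := fun q θ => g θ * q ∉ M) hms).2 h1
  filter_upwards [h2] with q hq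
  filter_upwards [hq] with θ hθ
  by_contra hne
  exact hθ (subset_toMeasurable _ _ hne)

/-- converse direction for measurable `P`: swap, choose one good `θ`, multiply by `(g θ)⁻¹` -/
theorem ae_of_ae_ae {P : HH → Prop} (hP : MeasurableSet {q | P q}) {g : ℝ → HH}
    (hg : Measurable g) (hg0 : ∀ θ, g θ ≠ 0) (h : ∀ᵐ q : HH, ∀ᵐ θ : ℝ, P (q * g θ)) :
    ∀ᵐ q : HH, P q := by
  have hms : MeasurableSet {x : HH × ℝ | P (x.1 * g x.2)} :=
    (measurable_fst.mul (hg.comp measurable_snd)) hP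
  have h1 := (Measure.ae_ae_comm (μ := (volume : Measure HH)) (ν := (volume : Measure ℝ))
    (p := fun q θ => P (q * g θ)) hms).1 h
  obtain ⟨θ, hθ⟩ := h1.exists
  have h2 := ae_mul_right (inv_ne_zero (hg0 θ)) hθ
  filter_upwards [h2] with q hq
  rwa [mul_assoc, inv_mul_cancel₀ (hg0 θ), mul_one] at hq

end Pool.Agent.LibMS49
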