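import Pool.Agent.LibMS49.Defs
set_option autoImplicit false
namespace Pool.Agent.LibMS49
open MeasureTheory Metric Set Filter Topology Pointwise

/-- half of `arccos (1/√3)`-angle: `cos (2γ) = 1/√3`, `sin (2γ) = √(2/3)` -/
noncomputable def gam : ℝ := Real.arccos (Real.sqrt 3 / 3) / 2

private lemma sqrt3_sq' : Real.sqrt 3 ^ 2 = 3 := Real.sq_sqrt (by norm_num)

theorem cos_two_gam : Real.cos (2 * gam) = Real.sqrt 3 / 3 := by
  have h := sqrt3_sq'
  have h0 : 0 ≤ Real.sqrt 3 := Real.sqrt_nonneg _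
  have e : 2 * gam = Real.arccos (Real.sqrt 3 / 3) := by unfold gam; ring
  rw [e]
  exact Real.cos_arccos (by linarith) (by nlinarith)

theorem sin_two_gam : Real.sin (2 * gam) = Real.sqrt 6 / 3 := by
  have e : 2 * gam = Real.arccos (Real.sqrt 3 / 3) := by unfold gam; ring
  have h1 : 0 ≤ Real.sin (2 * gam) := by
    rw [e]
    exact Real.sin_nonneg_of_nonneg_of_le_pi (Real.arccos_nonneg _) (Real.arccos_le_pi _)
  have h := Real.cos_sq_add_sin_sq (2 * gam)
  rw [cos_two_gam] at h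
  have h3 := sqrt3_sq'
  have h6 : Real.sqrt 6 ^ 2 = 6 := Real.sq_sqrt (by norm_num)
  have h60 : 0 ≤ Real.sqrt 6 := Real.sqrt_nonneg _
  have h4 : Real.sin (2 * gam) ^ 2 = (Real.sqrt 6 / 3) ^ 2 := by
    rw [div_pow, h6]
    rw [div_pow, h3] at h
    linarith
  exact (sq_eq_sq₀ h1 (by positivity)).1 h4

private lemma cos4' : Real.cos (4 * (2 * gam)) = -7 / 9 := by
  have e : 4 * (2 * gam) = 2 * (2 * (2 * gam)) := by ring
  rw [e, Real.cos_two_mul, Real.cos_two_mul, cos_two_gam]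
  have h3 := sqrt3_sq'
  have : (Real.sqrt 3 / 3) ^ 2 = 1 / 3 := by rw [div_pow, h3]; norm_num
  rw [this]
  norm_num

private lemma irr' : Irrational (4 * (2 * gam) / (2 * Real.pi)) := by
  rintro ⟨q, hq⟩
  have hpi := Real.pi_pos
  have h1 : 4 * (2 * gam) = ((2 * q : ℚ) : ℝ) * Real.pi := by
    push_cast
    field_simp at hq
    linarith
  have h2 := niven (θ := 4 * (2 * gam)) ⟨2 * q, h1⟩ ⟨-7 / 9, by rw [cos4']; norm_num⟩
  rw [cos4'] at h2
  simp only [mem_insert_iff, mem_singleton_iff] at h2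
  rcases h2 with h | h | h | h | h <;> norm_num at h

/-- odd multiples of `2γ` come arbitrarily close to `π ℤ` -/
theorem odd_multiples {η : ℝ} (hη : 0 < η) :
    ∃ j l : ℤ, |(2 * j + 1) * (2 * gam) + l * Real.pi| < η := by
  have hd := dense_addSubgroupClosure_pair_iff.2 irr'
  obtain ⟨y, hy, hyG⟩ := Metric.dense_iff.1 hd (-(2 * (2 * gam))) (2 * η) (by positivity)
  obtain ⟨j, l, hjl⟩ := AddSubgroup.mem_closure_pair.1 hyG
  refine ⟨j, l, ?_⟩
  rw [mem_ball, Real.dist_eq] at hy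
  have e : 2 * ((2 * j + 1) * (2 * gam) + l * Real.pi) = y - -(2 * (2 * gam)) := by
    rw [← hjl, zsmul_eq_mul, zsmul_eq_mul]; ring
  have e2 : 2 * |(2 * j + 1) * (2 * gam) + l * Real.pi| = |y - -(2 * (2 * gam))| := by
    rw [← e, abs_mul]
    norm_num
  linarith

/-- no measurable `π`-periodic set is exchanged with its complement by the translation by `2γ`.
Let `S₀ = {θ ∈ S | hrel holds at θ + n γ + l π for all integers n, l}`, `volume S₀ = volume S > 0` (if `S` is null then `T` has full measure,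
contradiction to `hrel`), `θ ∈ S₀ → θ + 2γ(2j+1) + lπ ∉ S`; Steinhaus
(`MeasureTheory.Measure.sub_mem_nhds_zero_of_addHaar_pos`-type) and `odd_multiples` -/
theorem circle_contra {S T : Set ℝ} (hS : MeasurableSet S) (hT : MeasurableSet T)
    (hST : Disjoint S T) (hfull : ∀ᵐ θ : ℝ, θ ∈ S ∪ T) (hper : ∀ θ, θ ∈ S ↔ θ + Real.pi ∈ S)
    (hper' : ∀ θ, θ ∈ T ↔ θ + Real.pi ∈ T)
    (hrel : ∀ᵐ θ : ℝ, (θ + gam ∈ S ∧ θ - gam ∈ T) ∨ (θ + gam ∈ T ∧ θ - gam ∈ S)) : False := by
  have hnot : ∀ θ, θ ∈ S → θ ∈ T → False := fun θ h1 h2 => Set.disjoint_left.1 hST h1 h2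
  have htr : ∀ {P : ℝ → Prop} (c : ℝ), (∀ᵐ θ : ℝ, P θ) → ∀ᵐ θ : ℝ, P (θ + c) := by
    intro P c hP
    exact (measurePreserving_add_right (volume : Measure ℝ) c).quasiMeasurePreserving.ae hP
  -- S has positive measure
  have hSpos : 0 < volume S := by
    rw [pos_iff_ne_zero]
    intro h0
    have h1 : ∀ᵐ θ : ℝ, θ ∉ S := by
      rw [ae_iff]
      simpa using h0
    have h2 := htr gam h1
    have h3 := htr (-gam) h1
    have h4 : ∀ᵐ θ : ℝ, False := by
      filter_upwards [h2, h3, hrel] with θ a b c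
      rcases c with c | c
      · exact a c.1
      · exact b (by simpa [sub_eq_add_neg] using c.2)
    simpa using h4.exists
  -- the good set
  have hG : ∀ᵐ θ : ℝ, ∀ n : ℤ, (θ + n * (2 * gam) + 2 * gam ∈ S ∧ θ + n * (2 * gam) ∈ T) ∨
      (θ + n * (2 * gam) + 2 * gam ∈ T ∧ θ + n * (2 * gam) ∈ S) := by
    rw [ae_all_iff]
    intro n
    filter_upwards [htr (n * (2 * gam) + gam) hrel] with θ h
    have e1 : θ + (n * (2 * gam) + gam) + gam = θ + n * (2 * gam) + 2 * gam := by ring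
    have e2 : θ + (n * (2 * gam) + gam) - gam = θ + n * (2 * gam) := by ring
    rw [e1, e2] at h
    exact h
  obtain ⟨t, htG, htm, ht0⟩ := exists_measurable_superset_of_null (ae_iff.1 hG)
  have hE : MeasurableSet (S \ t) := hS.diff htm
  have hEpos : 0 < volume (S \ t) := by
    rw [measure_sdiff_null ht0]
    exact hSpos
  have hnh := Measure.sub_mem_nhds_zero_of_addHaar_pos volume (S \ t) hE hEpos
  obtain ⟨η, hη, hball⟩ := Metric.mem_nhds_iff.1 hnh
  obtain ⟨j, l, hjl⟩ := odd_multiples hη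
  have hmem : (2 * j + 1) * (2 * gam) + l * Real.pi ∈ (S \ t) - (S \ t) := by
    apply hball
    rw [mem_ball, Real.dist_eq, sub_zero]
    exact hjl
  obtain ⟨a, ha, b, hb, hab⟩ := Set.mem_sub.1 hmem
  have hbG : ∀ n : ℤ, (b + n * (2 * gam) + 2 * gam ∈ S ∧ b + n * (2 * gam) ∈ T) ∨
      (b + n * (2 * gam) + 2 * gam ∈ T ∧ b + n * (2 * gam) ∈ S) := by
    by_contra hcon
    exact hb.2 (htG hcon)
  have hstep : ∀ n : ℤ, b + n * (2 * gam) ∈ S ↔ b + ((n + 1 : ℤ) : ℝ) * (2 * gam) ∈ T := by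
    intro n
    have e : b + ((n + 1 : ℤ) : ℝ) * (2 * gam) = b + n * (2 * gam) + 2 * gam := by push_cast; ring
    rw [e]
    rcases hbG n with h | h
    · exact ⟨fun h1 => (hnot _ h1 h.2).elim, fun h1 => (hnot _ h.1 h1).elim⟩
    · exact ⟨fun _ => h.1, fun _ => h.2⟩
  have hstep' : ∀ n : ℤ, b + n * (2 * gam) ∈ T ↔ b + ((n + 1 : ℤ) : ℝ) * (2 * gam) ∈ S := by
    intro n
    have e : b + ((n + 1 : ℤ) : ℝ) * (2 * gam) = b + n * (2 * gam) + 2 * gam := by push_cast; ring
    rw [e]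
    rcases hbG n with h | h
    · exact ⟨fun _ => h.1, fun _ => h.2⟩
    · exact ⟨fun h1 => (hnot _ h.2 h1).elim, fun h1 => (hnot _ h1 h.1).elim⟩
  have heven : ∀ j : ℤ, b + ((2 * j : ℤ) : ℝ) * (2 * gam) ∈ S := by
    intro j
    induction j using Int.induction_on with
    | zero => simpa using hb.1
    | succ i ih =>
      have h1 := (hstep _).1 ih
      have h2 := (hstep' _).1 h1
      have e : (2 * ((i : ℤ) + 1) : ℤ) = 2 * (i : ℤ) + 1 + 1 := by ring
      rw [e]
      exact h2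
    | pred i ih =>
      have e : (2 * (-(i : ℤ)) : ℤ) = 2 * (-(i : ℤ) - 1) + 1 + 1 := by ring
      rw [e] at ih
      exact (hstep _).2 ((hstep' _).2 ih)
  have hodd : b + ((2 * j + 1 : ℤ) : ℝ) * (2 * gam) ∈ T := (hstep _).1 (heven j)
  have hperl : ∀ (l : ℤ) (θ : ℝ), θ ∈ T → θ + l * Real.pi ∈ T := by
    intro l θ hθ
    induction l using Int.induction_on with
    | zero => simpa using hθ
    | succ i ih =>
      have h1 := (hper' _).1 ih
      have e : θ + (((i : ℤ) + 1 : ℤ) : ℝ) * Real.pi = θ + ((i : ℤ) : ℝ) * Real.pi + Real.pi := by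
        push_cast; ring
      rw [e]
      exact h1
    | pred i ih =>
      have e : θ + ((-(i : ℤ) : ℤ) : ℝ) * Real.pi =
          θ + ((-(i : ℤ) - 1 : ℤ) : ℝ) * Real.pi + Real.pi := by
        push_cast; ring
      rw [e] at ih
      exact (hper' _).2 ih
  have haT : a ∈ T := by
    have e : a = b + ((2 * j + 1 : ℤ) : ℝ) * (2 * gam) + l * Real.pi := by
      push_cast
      linarith
    rw [e]
    exact hperl l _ hodd
  exact hnot a ha.1 haT

end Pool.Agent.LibMS49
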