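import Pool.Agent.LibMS49.Rot
set_option autoImplicit false
namespace Pool.Agent.LibMS49
set_option linter.unusedSimpArgs false
open MeasureTheory Metric Set Filter Topology

private theorem inner_coord (u x : E3) :
    (inner ℝ u x : ℝ) = u 0 * x 0 + u 1 * x 1 + u 2 * x 2 := by
  rw [PiLp.inner_apply, Fin.sum_univ_three]
  simp only [RCLike.inner_apply, conj_trivial]
  ring

private theorem norm_coord (u : E3) : ‖u‖ ^ 2 = u 0 ^ 2 + u 1 ^ 2 + u 2 ^ 2 := by
  rw [EuclideanSpace.norm_sq_eq, Fin.sum_univ_three]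
  simp

private theorem unit_coord {u : E3} (hu : ‖u‖ = 1) : u 0 ^ 2 + u 1 ^ 2 + u 2 ^ 2 = 1 := by
  rw [← norm_coord, hu]; norm_num

private theorem ax_eq (u : E3) (θ : ℝ) :
    ax u θ = ((Real.cos θ : ℝ) : HH) + Real.sin θ • im u := by
  ext <;> simp [ax, im]

/-- `im u * im u = -1` for a unit vector, addition formulas -/
theorem ax_add {u : E3} (hu : ‖u‖ = 1) (θ θ' : ℝ) : ax u (θ + θ') = ax u θ * ax u θ' := by
  have h := unit_coord hu
  have hm : ∀ a b : HH, a * b = ⟨a.re * b.re - a.imI * b.imI - a.imJ * b.imJ - a.imK * b.imK,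
    a.re * b.imI + a.imI * b.re + a.imJ * b.imK - a.imK * b.imJ,
    a.re * b.imJ - a.imI * b.imK + a.imJ * b.re + a.imK * b.imI,
    a.re * b.imK + a.imI * b.imJ - a.imJ * b.imI + a.imK * b.re⟩ := by
    intro a b
    ext <;> simp
  rw [hm]
  ext
  · simp only [ax, Real.cos_add]
    linear_combination (Real.sin θ * Real.sin θ') * h
  · simp only [ax, Real.sin_add]
    ring
  · simp only [ax, Real.sin_add]
    ring
  · simp only [ax, Real.sin_add]
    ring

private theorem ax_zero (u : E3) : ax u 0 = 1 := by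
  rw [ax_eq]; simp

theorem ax_ne_zero {u : E3} (hu : ‖u‖ = 1) (θ : ℝ) : ax u θ ≠ 0 := by
  intro h
  have h1 := ax_add hu θ (-θ)
  rw [h, zero_mul, add_neg_cancel, ax_zero] at h1
  exact one_ne_zero h1

private theorem ax_inv {u : E3} (hu : ‖u‖ = 1) (θ : ℝ) : (ax u θ)⁻¹ = ax u (-θ) := by
  have h1 := ax_add hu θ (-θ)
  rw [add_neg_cancel, ax_zero] at h1
  exact inv_eq_of_mul_eq_one_right h1.symm

theorem ax_add_pi (u : E3) (θ : ℝ) : ax u (θ + Real.pi) = - ax u θ := by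
  ext <;> simp [ax, Real.cos_add_pi, Real.sin_add_pi]

theorem measurable_ax (u : E3) : Measurable (fun θ : ℝ => ax u θ) := by
  have h : (fun θ : ℝ => ax u θ) =
      fun θ : ℝ => ((Real.cos θ : ℝ) : HH) + Real.sin θ • im u := by
    funext θ; exact ax_eq u θ
  rw [h]
  have h1 : Continuous fun θ : ℝ => ((Real.cos θ : ℝ) : HH) + Real.sin θ • im u :=
    (Quaternion.continuous_coe.comp Real.continuous_cos).add
      (Real.continuous_sin.smul continuous_const)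
  exact h1.measurable

private theorem rot_ax_coord {u : E3} (hu : ‖u‖ = 1) (x : E3) (θ : ℝ) :
    rot (ax u θ) x = co (ax u θ * im x * ax u (-θ)) := by
  rw [rot, ax_inv hu]

/-- general Rodrigues formula -/
theorem rot_ax {u : E3} (hu : ‖u‖ = 1) (x : E3) (θ : ℝ) :
    rot (ax u θ) x = (inner ℝ u x : ℝ) • u + Real.cos (2 * θ) • (x - (inner ℝ u x : ℝ) • u) +
      Real.sin (2 * θ) • cr u x := by
  have h := unit_coord hu
  have hcs := Real.sin_sq_add_cos_sq θ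
  rw [rot_ax_coord hu, inner_coord, Real.cos_two_mul', Real.sin_two_mul]
  ext i
  fin_cases i
  · simp [co, ax, im, cr]
    linear_combination (-(Real.sin θ) ^ 2 * x 0) * h +
      ((u 0 * x 0 + u 1 * x 1 + u 2 * x 2) * u 0) * hcs
  · simp [co, ax, im, cr]
    linear_combination (-(Real.sin θ) ^ 2 * x 1) * h +
      ((u 0 * x 0 + u 1 * x 1 + u 2 * x 2) * u 1) * hcs
  · simp [co, ax, im, cr]
    linear_combination (-(Real.sin θ) ^ 2 * x 2) * h +
      ((u 0 * x 0 + u 1 * x 1 + u 2 * x 2) * u 2) * hcs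

theorem rot_ax_self {u : E3} (hu : ‖u‖ = 1) (θ : ℝ) : rot (ax u θ) u = u := by
  rw [rot_ax hu, real_inner_self_eq_norm_sq, hu]
  have : cr u u = 0 := by
    ext i
    fin_cases i <;> simp [cr] <;> ring
  rw [this]
  simp

/-- Rodrigues formula for a vector orthogonal to the axis (`(ax u θ)⁻¹ = ax u (-θ)`) -/
theorem rot_ax_perp {u x : E3} (hu : ‖u‖ = 1) (hx : inner ℝ u x = (0 : ℝ)) (θ : ℝ) :
    rot (ax u θ) x = Real.cos (2 * θ) • x + Real.sin (2 * θ) • cr u x := by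
  rw [rot_ax hu, hx]
  simp

/-- `g (cos θ + sin θ u) g⁻¹ = cos θ + sin θ (g u g⁻¹)` -/
theorem rot_conj {g : HH} (hg : g ≠ 0) (u : E3) (θ : ℝ) (x : E3) :
    rot (ax (rot g u) θ) (rot g x) = rot g (rot (ax u θ) x) := by
  have h : ax (rot g u) θ = g * ax u θ * g⁻¹ := by
    rw [ax_eq, ax_eq, im_rot, mul_add, add_mul, mul_smul_comm, smul_mul_assoc]
    congr 1
    rw [← (Quaternion.coe_commutes (Real.cos θ) g), mul_assoc, mul_inv_cancel₀ hg, mul_one]
  rw [h, ← rot_mul, mul_assoc (g * ax u θ), inv_mul_cancel₀ hg, mul_one, rot_mul]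

theorem inner_cr_left (u x : E3) : inner ℝ u (cr u x) = (0 : ℝ) := by
  rw [inner_coord]
  simp [cr]
  ring

theorem inner_cr_right (u x : E3) : inner ℝ x (cr u x) = (0 : ℝ) := by
  rw [inner_coord]
  simp [cr]
  ring

theorem norm_cr_sq (u x : E3) : ‖cr u x‖ ^ 2 = ‖u‖ ^ 2 * ‖x‖ ^ 2 - (inner ℝ u x : ℝ) ^ 2 := by
  rw [norm_coord, norm_coord, norm_coord, inner_coord]
  simp [cr]
  ring

/-- two unit vectors at the same height over the axis `u` differ by a rotation about `u` -/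
theorem exists_ax {u x y : E3} (hu : ‖u‖ = 1) (hx : ‖x‖ = 1) (hy : ‖y‖ = 1)
    (h : (inner ℝ u x : ℝ) = inner ℝ u y) : ∃ θ : ℝ, rot (ax u θ) x = y := by
  set t : ℝ := inner ℝ u x with ht
  have huu : (inner ℝ u u : ℝ) = 1 := by rw [real_inner_self_eq_norm_sq, hu]; norm_num
  set x' : E3 := x - t • u with hx'
  set y' : E3 := y - t • u with hy'
  have h1 : (inner ℝ u x' : ℝ) = 0 := by
    rw [hx', inner_sub_right, inner_smul_right, huu, ← ht]; ring
  have h2 : (inner ℝ u y' : ℝ) = 0 := by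
    rw [hy', inner_sub_right, inner_smul_right, huu, ← h]; ring
  have h3 : ‖x'‖ ^ 2 = 1 - t ^ 2 := by
    rw [← real_inner_self_eq_norm_sq, hx', inner_sub_left, inner_sub_right, inner_sub_right,
      inner_smul_right, inner_smul_left, inner_smul_left, inner_smul_right, huu,
      real_inner_self_eq_norm_sq, hx, real_inner_comm u x, ← ht]
    simp; ring
  have h4 : ‖y'‖ ^ 2 = 1 - t ^ 2 := by
    rw [← real_inner_self_eq_norm_sq, hy', inner_sub_left, inner_sub_right, inner_sub_right,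
      inner_smul_right, inner_smul_left, inner_smul_left, inner_smul_right, huu,
      real_inner_self_eq_norm_sq, hy, real_inner_comm u y, ← h]
    simp; ring
  have h5 : ∀ θ, rot (ax u θ) x = t • u + Real.cos (2 * θ) • x' + Real.sin (2 * θ) • cr u x' := by
    intro θ
    rw [rot_ax hu, ← ht]
    have : cr u x' = cr u x := by
      ext i
      fin_cases i <;> simp [cr, hx'] <;> ring
    rw [this]
  by_cases h0 : 1 - t ^ 2 = 0
  · have hx0 : x' = 0 := by
      rw [h0] at h3; exact norm_eq_zero.1 (pow_eq_zero_iff (two_ne_zero) |>.1 h3)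
    have hy0 : y' = 0 := by
      rw [h0] at h4; exact norm_eq_zero.1 (pow_eq_zero_iff (two_ne_zero) |>.1 h4)
    refine ⟨0, ?_⟩
    rw [h5]
    have hy1 : y = t • u := sub_eq_zero.1 hy0
    have hc : cr u x' = 0 := by
      rw [hx0]; ext i; fin_cases i <;> simp [cr]
    rw [hc, hx0, hy1]; simp
  · set a : ℝ := inner ℝ y' x' with ha
    set b : ℝ := inner ℝ y' (cr u x') with hb
    have hu1 := unit_coord hu
    rw [inner_coord] at h1 h2
    rw [norm_coord] at h3 h4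
    have key : ∀ i, (1 - t ^ 2) * y' i = a * x' i + b * (cr u x') i := by
      intro i
      rw [ha, hb, inner_coord, inner_coord]
      fin_cases i
      · simp only [cr, Fin.zero_eta, Fin.isValue, Fin.mk_one, Fin.reduceFinMk]
        simp
        linear_combination (-(y' 0)) * h3
          + (y' 0 * (u 0 * x' 0 + u 1 * x' 1 + u 2 * x' 2) - u 0 * (x' 0 * y' 0 + x' 1 * y' 1 + x' 2 * y' 2) - x' 0 * (u 0 * y' 0 + u 1 * y' 1 + u 2 * y' 2)) * h1
          + (u 0 * (x' 0 ^ 2 + x' 1 ^ 2 + x' 2 ^ 2)) * h2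
          + (x' 0 * (x' 0 * y' 0 + x' 1 * y' 1 + x' 2 * y' 2) - y' 0 * (x' 0 ^ 2 + x' 1 ^ 2 + x' 2 ^ 2)) * hu1
      · simp only [cr, Fin.zero_eta, Fin.isValue, Fin.mk_one, Fin.reduceFinMk]
        simp
        linear_combination (-(y' 1)) * h3
          + (y' 1 * (u 0 * x' 0 + u 1 * x' 1 + u 2 * x' 2) - u 1 * (x' 0 * y' 0 + x' 1 * y' 1 + x' 2 * y' 2) - x' 1 * (u 0 * y' 0 + u 1 * y' 1 + u 2 * y' 2)) * h1
          + (u 1 * (x' 0 ^ 2 + x' 1 ^ 2 + x' 2 ^ 2)) * h2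
          + (x' 1 * (x' 0 * y' 0 + x' 1 * y' 1 + x' 2 * y' 2) - y' 1 * (x' 0 ^ 2 + x' 1 ^ 2 + x' 2 ^ 2)) * hu1
      · simp only [cr, Fin.zero_eta, Fin.isValue, Fin.mk_one, Fin.reduceFinMk]
        simp
        linear_combination (-(y' 2)) * h3
          + (y' 2 * (u 0 * x' 0 + u 1 * x' 1 + u 2 * x' 2) - u 2 * (x' 0 * y' 0 + x' 1 * y' 1 + x' 2 * y' 2) - x' 2 * (u 0 * y' 0 + u 1 * y' 1 + u 2 * y' 2)) * h1
          + (u 2 * (x' 0 ^ 2 + x' 1 ^ 2 + x' 2 ^ 2)) * h2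
          + (x' 2 * (x' 0 * y' 0 + x' 1 * y' 1 + x' 2 * y' 2) - y' 2 * (x' 0 ^ 2 + x' 1 ^ 2 + x' 2 ^ 2)) * hu1
    have hab : a ^ 2 + b ^ 2 = (1 - t ^ 2) ^ 2 := by
      have e0 := key 0
      have e1 := key 1
      have e2 := key 2
      have ea : a = y' 0 * x' 0 + y' 1 * x' 1 + y' 2 * x' 2 := by rw [ha, inner_coord]
      have eb : b = y' 0 * (cr u x') 0 + y' 1 * (cr u x') 1 + y' 2 * (cr u x') 2 := by
        rw [hb, inner_coord]
      linear_combination (-(y' 0)) * e0 - y' 1 * e1 - y' 2 * e2 + (1 - t ^ 2) * h4 + a * ea + b * eb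
    obtain ⟨φ, hφ1, hφ2⟩ : ∃ φ : ℝ, Real.cos φ = a / (1 - t ^ 2) ∧ Real.sin φ = b / (1 - t ^ 2) := by
      have hz : ‖(⟨a / (1 - t ^ 2), b / (1 - t ^ 2)⟩ : ℂ)‖ = 1 := by
        rw [Complex.norm_def, Complex.normSq_mk, Real.sqrt_eq_one]
        field_simp
        linarith
      have hz0 : (⟨a / (1 - t ^ 2), b / (1 - t ^ 2)⟩ : ℂ) ≠ 0 := by
        intro hz0; rw [hz0] at hz; simp at hz
      refine ⟨Complex.arg ⟨a / (1 - t ^ 2), b / (1 - t ^ 2)⟩, ?_, ?_⟩
      · rw [Complex.cos_arg hz0, hz]; simp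
      · rw [Complex.sin_arg, hz]; simp
    refine ⟨φ / 2, ?_⟩
    rw [h5, mul_div_cancel₀ _ (two_ne_zero), hφ1, hφ2]
    have hy1 : y = t • u + y' := by rw [hy']; abel
    rw [hy1, add_assoc]
    congr 1
    ext i
    have := key i
    simp only [PiLp.add_apply, PiLp.smul_apply, smul_eq_mul]
    field_simp
    linarith

/-- the height of the rotated vector is a trigonometric polynomial with the given amplitude -/
theorem height_formula {u y z : E3} (hy : ‖y‖ = 1) (θ : ℝ) :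
    (inner ℝ u (rot (ax y θ) z) : ℝ) = (inner ℝ y z : ℝ) * inner ℝ u y +
      (inner ℝ u (z - (inner ℝ y z : ℝ) • y) : ℝ) * Real.cos (2 * θ) +
      (inner ℝ u (cr y z) : ℝ) * Real.sin (2 * θ) := by
  rw [rot_ax hy, inner_add_right, inner_add_right, inner_smul_right, inner_smul_right,
    inner_smul_right]
  ring

theorem amplitude {u y z : E3} (hu : ‖u‖ = 1) (hy : ‖y‖ = 1) (hz : ‖z‖ = 1) :
    (inner ℝ u (z - (inner ℝ y z : ℝ) • y) : ℝ) ^ 2 + (inner ℝ u (cr y z) : ℝ) ^ 2 =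
      (1 - (inner ℝ y z : ℝ) ^ 2) * (1 - (inner ℝ u y : ℝ) ^ 2) := by
  have h1 := unit_coord hu
  have h2 := unit_coord hy
  have h3 := unit_coord hz
  have gram : (inner ℝ u (cr y z) : ℝ) ^ 2 =
      (u 0 ^ 2 + u 1 ^ 2 + u 2 ^ 2) * (y 0 ^ 2 + y 1 ^ 2 + y 2 ^ 2) * (z 0 ^ 2 + z 1 ^ 2 + z 2 ^ 2) +
      2 * (inner ℝ u y : ℝ) * (inner ℝ y z : ℝ) * (inner ℝ u z : ℝ) -
      (u 0 ^ 2 + u 1 ^ 2 + u 2 ^ 2) * (inner ℝ y z : ℝ) ^ 2 -
      (y 0 ^ 2 + y 1 ^ 2 + y 2 ^ 2) * (inner ℝ u z : ℝ) ^ 2 -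
      (z 0 ^ 2 + z 1 ^ 2 + z 2 ^ 2) * (inner ℝ u y : ℝ) ^ 2 := by
    simp only [inner_coord]
    simp [cr]
    ring
  rw [gram, h1, h2, h3, inner_sub_right, inner_smul_right]
  ring

end Pool.Agent.LibMS49
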