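import Pool.Agent.LibMS49.StB
import Pool.Agent.LibMS49.Axis
set_option autoImplicit false
namespace Pool.Agent.LibMS49
open MeasureTheory Metric Set Filter Topology

/-- the situation around an ambiguous centre (moved to the origin): `A`, `B` are the points of stable colour;
a.e. point of the spheres of radius `1` and `√2` is in `A ∪ B`; because of the ambiguous centre a unit square with one
vertex at the origin must not have its three other vertices in the same class -/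
structure Cfg (A B : Set E3) : Prop where
  mA : MeasurableSet A
  mB : MeasurableSet B
  disj : Disjoint A B
  full1 : ∀ᵐ q : HH, rot q e0 ∈ A ∪ B
  full2 : ∀ᵐ q : HH, Real.sqrt 2 • rot q e0 ∈ A ∪ B
  h3A : ∀ u v : E3, ‖u‖ = 1 → ‖v‖ = 1 → inner ℝ u v = (0 : ℝ) → u ∈ A → v ∈ A → u + v ∈ A → False
  h3B : ∀ u v : E3, ‖u‖ = 1 → ‖v‖ = 1 → inner ℝ u v = (0 : ℝ) → u ∈ B → v ∈ B → u + v ∈ B → False
  h4A : ∀ x a b : E3, ‖a‖ = 1 → ‖b‖ = 1 → inner ℝ a b = (0 : ℝ) → x ∈ A → x + a ∈ A → x + b ∈ A →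
    x + a + b ∈ A → False
  h4B : ∀ x a b : E3, ‖a‖ = 1 → ‖b‖ = 1 → inner ℝ a b = (0 : ℝ) → x ∈ B → x + a ∈ B → x + b ∈ B →
    x + a + b ∈ B → False

theorem Cfg.symm {A B : Set E3} (h : Cfg A B) : Cfg B A :=
  ⟨h.mB, h.mA, h.disj.symm, by simpa only [union_comm] using h.full1,
    by simpa only [union_comm] using h.full2, h.h3B, h.h3A, h.h4B, h.h4A⟩

theorem cfg_norm_e0 : ‖e0‖ = 1 := by
  simp [e0, EuclideanSpace.norm_eq, Fin.sum_univ_three]

theorem Cfg.full_unit {A B : Set E3} (h : Cfg A B) {u : E3} (hu : ‖u‖ = 1) :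
    ∀ᵐ q : HH, rot q u ∈ A ∪ B :=
  ae_rot_of_ae (by rw [hu, cfg_norm_e0]) h.full1

theorem Cfg.full_diag {A B : Set E3} (h : Cfg A B) {w : E3} (hw : ‖w‖ = Real.sqrt 2) :
    ∀ᵐ q : HH, rot q w ∈ A ∪ B := by
  have h2 : ∀ᵐ q : HH, rot q (Real.sqrt 2 • e0) ∈ A ∪ B := by
    simpa only [rot_smul] using h.full2
  refine ae_rot_of_ae ?_ h2
  rw [norm_smul, cfg_norm_e0, hw, Real.norm_eq_abs, abs_of_nonneg (Real.sqrt_nonneg 2), mul_one]

theorem cfg_norm_sub {u c : E3} (hu : ‖u‖ = 1) (hc : ‖c‖ = 1)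
    (huc : inner ℝ u c = (1 / 2 : ℝ)) : ‖c - u‖ = 1 := by
  have h1 : ‖c - u‖ ^ 2 = 1 := by
    rw [norm_sub_sq_real, real_inner_comm, huc, hu, hc]; norm_num
  have h2 : 0 ≤ ‖c - u‖ := norm_nonneg _
  nlinarith

theorem octa_aux {A B : Set E3} (h : Cfg A B) {u u' c c' : E3} (hu : ‖u‖ = 1) (hu' : ‖u'‖ = 1)
    (hc : ‖c‖ = 1) (hc' : ‖c'‖ = 1) (huu : inner ℝ u u' = (0 : ℝ)) (hcc : inner ℝ c c' = (0 : ℝ))
    (hsum : c + c' = u + u') (huc : inner ℝ u c = (1 / 2 : ℝ)) (h1 : ¬ St A u) (h2 : ¬ St B u)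
    (h3 : St A u' ∨ St B u') (h4 : St A c) (h5 : St A c') : False := by
  have huc' : inner ℝ u c' = (1 / 2 : ℝ) := by
    have e : inner ℝ u (c + c') = (inner ℝ u (u + u') : ℝ) := by rw [hsum]
    rw [inner_add_right, inner_add_right, huc, huu, real_inner_self_eq_norm_sq, hu] at e
    linarith
  rcases h3 with h3 | h3
  · obtain ⟨q, hq, q1, q2, q3, q4, q5⟩ := perturb h3 h4 h5 h2 (h.full_unit hu)
    have q6 : rot q u ∈ A := q5.resolve_right q4
    refine h.h4A (rot q u) (rot q (c - u)) (rot q (c' - u)) ?_ ?_ ?_ q6 ?_ ?_ ?_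
    · rw [norm_rot hq, cfg_norm_sub hu hc huc]
    · rw [norm_rot hq, cfg_norm_sub hu hc' huc']
    · rw [inner_rot hq, inner_sub_left, inner_sub_right, inner_sub_right, hcc, huc',
        real_inner_comm, huc, real_inner_self_eq_norm_sq, hu]
      norm_num
    · rw [← rot_add]; simpa using q2
    · rw [← rot_add]; simpa using q3
    · rw [← rot_add, ← rot_add]
      have : u + (c - u) + (c' - u) = u' := by
        have : u + (c - u) + (c' - u) = (c + c') - u := by abel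
        rw [this, hsum]; abel
      rw [this]; exact q1
  · have hw : ‖u + u'‖ = Real.sqrt 2 := by
      have e : ‖u + u'‖ ^ 2 = 2 := by
        rw [norm_add_sq_real, huu, hu, hu']; norm_num
      rw [← e, Real.sqrt_sq (norm_nonneg _)]
    obtain ⟨q, hq, q1, q2, q3, q4, q5, q6⟩ := perturb h3 h4 h5 h1
      ((h.full_unit hu).and (h.full_diag hw))
    have q7 : rot q u ∈ B := q5.resolve_left q4
    rcases q6 with q6 | q6
    · refine h.h3A (rot q c) (rot q c') (by rw [norm_rot hq, hc]) (by rw [norm_rot hq, hc'])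
        (by rw [inner_rot hq, hcc]) q2 q3 ?_
      rw [← rot_add, hsum]; exact q6
    · refine h.h3B (rot q u) (rot q u') (by rw [norm_rot hq, hu]) (by rw [norm_rot hq, hu'])
        (by rw [inner_rot hq, huu]) q7 q1 ?_
      rw [← rot_add]; exact q6

/-- the octahedron `0, u, u', c, c', w = u + u' = c + c'` with `u` not stable for `A` nor `B`: `c` and `c'` have different
colours.  Suppose `c, c'` stable for `A` (the other case by `Cfg.symm`).  If `u'` is stable for `A`: `perturb` (with `¬ St B u`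
and a.e. `rot h u ∈ A ∪ B`) gives `h` with `rot h` of `u, c, u', c'` all in `A`: this is a unit square
(`x = u`, `a = c - u`, `b = c' - u`), contradiction to `h4A`.  If `u'` is stable for `B`: `perturb` with `¬ St A u` gives `h` with
`rot h u, rot h u' ∈ B`, `rot h c, rot h c' ∈ A`, and `rot h w ∈ A ∪ B` (`full2`, `ae_rot_of_ae`); `h3A` or `h3B` -/
theorem octa {A B : Set E3} (h : Cfg A B) {u u' c c' : E3} (hu : ‖u‖ = 1) (hu' : ‖u'‖ = 1)
    (hc : ‖c‖ = 1) (hc' : ‖c'‖ = 1) (huu : inner ℝ u u' = (0 : ℝ)) (hcc : inner ℝ c c' = (0 : ℝ))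
    (hsum : c + c' = u + u') (huc : inner ℝ u c = (1 / 2 : ℝ)) (h1 : ¬ St A u) (h2 : ¬ St B u)
    (h3 : St A u' ∨ St B u') (h4 : St A c ∨ St B c) (h5 : St A c' ∨ St B c') :
    (St A c ∧ St B c') ∨ (St B c ∧ St A c') := by
  rcases h4 with h4 | h4 <;> rcases h5 with h5 | h5
  · exact (octa_aux h hu hu' hc hc' huu hcc hsum huc h1 h2 h3 h4 h5).elim
  · exact Or.inl ⟨h4, h5⟩
  · exact Or.inr ⟨h4, h5⟩
  · exact (octa_aux h.symm hu hu' hc hc' huu hcc hsum huc h2 h1 h3.symm h4 h5).elim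

end Pool.Agent.LibMS49
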