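import Pool.Agent.LibMS49.Cfg
set_option autoImplicit false
namespace Pool.Agent.LibMS49
open MeasureTheory Metric Set Filter Topology

/-- two measurable colour classes covering almost all of `ball x₀ 4`, without unit squares -/
structure Cfg0 (x₀ : E3) (A B : Set E3) : Prop where
  mA : MeasurableSet A
  mB : MeasurableSet B
  disj : Disjoint A B
  full : volume (ball x₀ 4 \ (A ∪ B)) = 0
  nA : ∀ x a b : E3, ‖a‖ = 1 → ‖b‖ = 1 → inner ℝ a b = (0 : ℝ) → x ∈ A → x + a ∈ A → x + b ∈ A →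
    x + a + b ∈ A → False
  nB : ∀ x a b : E3, ‖a‖ = 1 → ‖b‖ = 1 → inner ℝ a b = (0 : ℝ) → x ∈ B → x + a ∈ B → x + b ∈ B →
    x + a + b ∈ B → False

theorem Cfg0.symm {x₀ : E3} {A B : Set E3} (h : Cfg0 x₀ A B) : Cfg0 x₀ B A :=
  ⟨h.mB, h.mA, h.disj.symm, by simpa only [union_comm] using h.full, h.nB, h.nA⟩

private theorem cfg0_t {A : Set E3} {x : E3} (h : Dens x A) : Dens (0 : E3) {t | x + t ∈ A} := by
  rw [← dens_add_iff, add_zero]
  exact h

/-- translation of four points: three density points of `A`, and `p` is not a density point of `B` but is a density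
point of `A ∪ B`: all four points can be moved into `A` (`dens_add_iff` to move everything to the point `0`, `Dens.inter`,
`exists_of_dens`) -/
theorem translate {A B : Set E3} {p x₁ x₂ x₃ : E3} (hp : ¬ Dens p B) (hp' : Dens p (A ∪ B))
    (h₁ : Dens x₁ A) (h₂ : Dens x₂ A) (h₃ : Dens x₃ A) :
    ∃ t : E3, p + t ∈ A ∧ x₁ + t ∈ A ∧ x₂ + t ∈ A ∧ x₃ + t ∈ A := by
  have hE := (cfg0_t hp').inter ((cfg0_t h₁).inter ((cfg0_t h₂).inter (cfg0_t h₃)))
  have hG : ¬ Dens (0 : E3) {t | p + t ∈ B} := by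
    rw [← dens_add_iff, add_zero]
    exact hp
  obtain ⟨t, ht, ht'⟩ := exists_of_dens hE hG
  obtain ⟨h4, h5, h6, h7⟩ := ht
  refine ⟨t, ?_, h5, h6, h7⟩
  rcases h4 with h8 | h8
  · exact h8
  · exact absurd h8 ht'

private theorem cfg0_meas {A : Set E3} (hA : MeasurableSet A) (p : E3) :
    MeasurableSet {y : E3 | Dens (p + y) A} :=
  measurableSet_dens (X := E3) (S := {z : E3 × E3 | z.2 ∈ A}) (hA.preimage measurable_snd)
    (φ := fun y => p + y) (measurable_const.add measurable_id)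

private theorem cfg0_union {x₀ p : E3} {A B : Set E3} (h : Cfg0 x₀ A B) (hp : p ∈ ball x₀ 4) :
    Dens p (A ∪ B) := by
  obtain ⟨r, hr, hsub⟩ := Metric.isOpen_iff.1 isOpen_ball p hp
  exact dens_of_ball hr (measure_mono_null (sdiff_subset_sdiff_left hsub) h.full)

private theorem cfg0_h3 {x₀ p : E3} {A B : Set E3} (h : Cfg0 x₀ A B) (hp : p ∈ ball x₀ 4)
    (hB : ¬ Dens p B) (u v : E3) (hu : ‖u‖ = 1) (hv : ‖v‖ = 1) (huv : inner ℝ u v = (0 : ℝ))
    (h1 : Dens (p + u) A) (h2 : Dens (p + v) A) (h3 : Dens (p + (u + v)) A) : False := by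
  obtain ⟨t, h4, h5, h6, h7⟩ := translate hB (cfg0_union h hp) h1 h2 h3
  refine h.nA (p + t) u v hu hv huv h4 ?_ ?_ ?_
  · rwa [add_right_comm] at h5
  · rwa [add_right_comm] at h6
  · have e : p + (u + v) + t = p + t + u + v := by abel
    rwa [e] at h7

private theorem cfg0_h4 {x₀ p : E3} {A B : Set E3} (h : Cfg0 x₀ A B) (x a b : E3) (ha : ‖a‖ = 1)
    (hb : ‖b‖ = 1) (hab : inner ℝ a b = (0 : ℝ)) (h1 : Dens (p + x) A) (h2 : Dens (p + (x + a)) A)
    (h3 : Dens (p + (x + b)) A) (h4 : Dens (p + (x + a + b)) A) : False := by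
  obtain ⟨t, h5, h6, h7, h8⟩ :=
    ((cfg0_t h1).inter ((cfg0_t h2).inter ((cfg0_t h3).inter (cfg0_t h4)))).nonempty
  simp only [mem_ofPred_eq] at h5 h6 h7 h8
  refine h.nA (p + x + t) a b ha hb hab h5 ?_ ?_ ?_
  · have e : p + (x + a) + t = p + x + t + a := by abel
    rwa [e] at h6
  · have e : p + (x + b) + t = p + x + t + b := by abel
    rwa [e] at h7
  · have e : p + (x + a + b) + t = p + x + t + a + b := by abel
    rwa [e] at h8

/-- the stable points around a wild point `p` form a `Cfg` if they have full measure in the spheres of radius `1`, `√2` -/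
theorem cfg_of_wild {x₀ p : E3} {A B : Set E3} (h : Cfg0 x₀ A B) (hp : p ∈ ball x₀ 4)
    (hA : ¬ Dens p A) (hB : ¬ Dens p B)
    (h1 : ∀ᵐ q : HH, Dens (p + rot q e0) A ∨ Dens (p + rot q e0) B)
    (h2 : ∀ᵐ q : HH, Dens (p + Real.sqrt 2 • rot q e0) A ∨ Dens (p + Real.sqrt 2 • rot q e0) B) :
    Cfg {y | Dens (p + y) A} {y | Dens (p + y) B} where
  mA := cfg0_meas h.mA p
  mB := cfg0_meas h.mB p
  disj := by
    rw [Set.disjoint_left]
    intro y hy hy'
    exact Dens.not_disjoint hy hy' h.disj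
  full1 := h1
  full2 := h2
  h3A := fun u v hu hv huv h3 h4 h5 => cfg0_h3 h hp hB u v hu hv huv h3 h4 h5
  h3B := fun u v hu hv huv h3 h4 h5 => cfg0_h3 h.symm hp hA u v hu hv huv h3 h4 h5
  h4A := fun x a b ha hb hab h3 h4 h5 h6 => cfg0_h4 h x a b ha hb hab h3 h4 h5 h6
  h4B := fun x a b ha hb hab h3 h4 h5 h6 => cfg0_h4 h.symm x a b ha hb hab h3 h4 h5 h6

end Pool.Agent.LibMS49
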