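import Pool.Agent.LibMS49.Height
set_option autoImplicit false
namespace Pool.Agent.LibMS49
open MeasureTheory Metric Set Filter Topology

/-- a.e. `x = rot q e0` is such that a.e. point of the circle through `x` with axis `u` avoids `Z`
(`ae_ae_mul_left`) -/
theorem ae_circle {Z : Set E3} (h : ∀ᵐ q : HH, rot q e0 ∉ Z) {u : E3} (hu : ‖u‖ = 1) :
    ∀ᵐ q : HH, ∀ᵐ θ : ℝ, rot (ax u θ) (rot q e0) ∉ Z := by
  have h1 := ae_ae_mul_left h (measurable_ax u) (ax_ne_zero hu)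
  filter_upwards [h1] with q hq
  filter_upwards [hq] with θ hθ
  rwa [rot_mul] at hθ

/-- a.e. statements on a circle do not depend on the base point (`exists_ax`, `ax_add`, translation of `ℝ`) -/
theorem circle_base {P : E3 → Prop} {u x y : E3} (hu : ‖u‖ = 1) (hx : ‖x‖ = 1) (hy : ‖y‖ = 1)
    (hxy : (inner ℝ u x : ℝ) = inner ℝ u y) (h : ∀ᵐ θ : ℝ, P (rot (ax u θ) x)) :
    ∀ᵐ θ : ℝ, P (rot (ax u θ) y) := by
  obtain ⟨θ0, hθ0⟩ := exists_ax hu hx hy hxy
  have h1 : ∀ᵐ θ : ℝ, P (rot (ax u (θ + θ0)) x) :=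
    (measurePreserving_add_right (volume : Measure ℝ) θ0).quasiMeasurePreserving.ae h
  filter_upwards [h1] with θ hθ
  rw [← hθ0, ← rot_mul, ← ax_add hu]
  exact hθ

/-- almost every height over the axis `u` is good.  Let `N` be the set of `t` such that there is a unit vector `x` with
`⟨u,x⟩ = t` and not (a.e. point of its circle avoids `Z`).  By `ae_circle` and `circle_base` a.e. `q` has
`⟨u, rot q e0⟩ ∉ N`; `null_of_height`. -/
theorem ae_height {Z : Set E3} (h : ∀ᵐ q : HH, rot q e0 ∉ Z) {u : E3} (hu : ‖u‖ = 1) :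
    ∃ N : Set ℝ, volume N = 0 ∧ ∀ x : E3, ‖x‖ = 1 → |(inner ℝ u x : ℝ)| < 1 →
      (inner ℝ u x : ℝ) ∉ N → ∀ᵐ θ : ℝ, rot (ax u θ) x ∉ Z := by
  set N0 : Set ℝ := {t | ∃ x : E3, ‖x‖ = 1 ∧ (inner ℝ u x : ℝ) = t ∧
    ¬ ∀ᵐ θ : ℝ, rot (ax u θ) x ∉ Z} with hN0
  have he0 : ‖e0‖ = 1 := by
    rw [EuclideanSpace.norm_eq]
    simp [e0, Fin.sum_univ_three]
  have h1 : ∀ᵐ q : HH, (inner ℝ u (rot q e0) : ℝ) ∉ N0 := by
    filter_upwards [ae_circle h hu, ae_ne_zero] with q hq hq0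
    rintro ⟨x, hx, hxt, hbad⟩
    apply hbad
    have hn : ‖rot q e0‖ = 1 := by rw [norm_rot hq0, he0]
    exact circle_base (P := fun x => x ∉ Z) hu hn hx hxt.symm hq
  refine ⟨N0 ∩ Ioo (-1) 1, null_of_height hu he0 h1, fun x hx hlt hnot => ?_⟩
  by_contra hbad
  exact hnot ⟨⟨x, hx, rfl, hbad⟩, abs_lt.mp hlt⟩

theorem circle_meas1 (R : HH × E3 → E3) (hR : Measurable R) (y z : E3) :
    Measurable (fun p : ℝ × ℝ => R (ax y p.2, z)) := by
  have h1 : Measurable (fun p : ℝ × ℝ => ax y p.2) := (measurable_ax y).comp measurable_snd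
  have h2 : Measurable (fun _ : ℝ × ℝ => z) := measurable_const
  exact hR.comp (Measurable.prodMk h1 h2)

theorem circle_meas2 (R : HH × E3 → E3) (hR : Measurable R) (u y z : E3) :
    Measurable (fun p : ℝ × ℝ => R (ax u p.1, R (ax y p.2, z))) := by
  have a3 : Measurable (fun p : ℝ × ℝ => ax u p.1) := (measurable_ax u).comp measurable_fst
  exact hR.comp (Measurable.prodMk a3 (circle_meas1 R hR y z))

/-- two steps on circles of the sphere: absolutely continuous.  `trig_null` with `height_formula`, `amplitude`, and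
`ae_height`; then swap (`Measure.ae_ae_comm`, `Z` is measurable) -/
theorem two_step_circle {Z : Set E3} (hZ : MeasurableSet Z) (h : ∀ᵐ q : HH, rot q e0 ∉ Z)
    {u y z : E3} (hu : ‖u‖ = 1) (hy : ‖y‖ = 1) (hz : ‖z‖ = 1) (huy : |(inner ℝ u y : ℝ)| < 1)
    (hyz : |(inner ℝ y z : ℝ)| < 1) :
    ∀ᵐ θ : ℝ, ∀ᵐ θ' : ℝ, rot (ax u θ) (rot (ax y θ') z) ∉ Z := by
  obtain ⟨N, hN, hgood⟩ := ae_height h hu
  have hmeas : MeasurableSet {p : ℝ × ℝ | rot (ax u p.1) (rot (ax y p.2) z) ∉ Z} := by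
    have h2 : Measurable (fun p : ℝ × ℝ => rot (ax u p.1) (rot (ax y p.2) z)) :=
      circle_meas2 (fun p => rot p.1 p.2) measurable_rot u y z
    exact h2 hZ.compl
  rw [Measure.ae_ae_comm (p := fun θ θ' => rot (ax u θ) (rot (ax y θ') z) ∉ Z) hmeas]
  have hN2 : volume (N ∪ {1, -1}) = 0 := by
    refine measure_union_null hN ?_
    exact (Set.toFinite _).measure_zero _
  have hpos : 0 < (inner ℝ u (z - (inner ℝ y z : ℝ) • y) : ℝ) ^ 2 + (inner ℝ u (cr y z) : ℝ) ^ 2 := by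
    rw [amplitude hu hy hz]
    have h1 : (inner ℝ y z : ℝ) ^ 2 < 1 := by
      rw [← sq_abs]
      have := abs_nonneg (inner ℝ y z : ℝ)
      nlinarith
    have h2 : (inner ℝ u y : ℝ) ^ 2 < 1 := by
      rw [← sq_abs]
      have := abs_nonneg (inner ℝ u y : ℝ)
      nlinarith
    exact mul_pos (by linarith) (by linarith)
  have h3 := trig_null hN2 (a := (inner ℝ y z : ℝ) * inner ℝ u y) hpos
  filter_upwards [h3] with θ' hθ'
  rw [← height_formula hy θ'] at hθ'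
  have hn : ‖rot (ax y θ') z‖ = 1 := by rw [norm_rot (ax_ne_zero hy θ'), hz]
  have hle : |(inner ℝ u (rot (ax y θ') z) : ℝ)| ≤ 1 := by
    have := abs_real_inner_le_norm u (rot (ax y θ') z)
    rwa [hu, hn, one_mul] at this
  have hlt : |(inner ℝ u (rot (ax y θ') z) : ℝ)| < 1 := by
    refine lt_of_le_of_ne hle fun he => hθ' ?_
    rcases (abs_eq (by norm_num : (0 : ℝ) ≤ 1)).mp he with h4 | h4
    · rw [h4]; simp
    · rw [h4]; simp
  exact hgood _ hn hlt fun hmem => hθ' (Or.inl hmem)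

end Pool.Agent.LibMS49
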