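import Mathlib

/-!
# Monochromatic unit squares in Lebesgue measurable two-colourings of `ℝ³`: definitions
-/

set_option autoImplicit false

namespace Pool.Agent.LibMS49

open MeasureTheory Metric Set Filter Topology

noncomputable section

abbrev E3 := EuclideanSpace ℝ (Fin 3)

abbrev HH := Quaternion ℝ

instance : MeasurableSpace HH := borel HH

instance : BorelSpace HH := ⟨rfl⟩

/-- `x` is a density point of `E` (the outer density of the complement of `E` at `x` is zero). -/
def Dens {V : Type*} [PseudoMetricSpace V] [MeasureSpace V] (x : V) (E : Set V) : Prop :=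
  Tendsto (fun r : ℝ => volume (closedBall x r \ E) / volume (closedBall x r)) (𝓝[>] 0) (𝓝 0)

/-- the imaginary quaternion with coordinates `x` -/
def im (x : E3) : HH := ⟨0, x 0, x 1, x 2⟩

/-- the coordinates of the imaginary part of a quaternion -/
def co (y : HH) : E3 := !₂[y.imI, y.imJ, y.imK]

/-- the rotation of `ℝ³` given by the quaternion `q` -/
def rot (q : HH) (x : E3) : E3 := co (q * im x * q⁻¹)

/-- the quaternion `cos θ + sin θ u`; `rot (ax u θ)` is the rotation with axis `u` by `2θ` -/
def ax (u : E3) (θ : ℝ) : HH := ⟨Real.cos θ, Real.sin θ * u 0, Real.sin θ * u 1, Real.sin θ * u 2⟩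

/-- cross product -/
def cr (u x : E3) : E3 := !₂[u 1 * x 2 - u 2 * x 1, u 2 * x 0 - u 0 * x 2, u 0 * x 1 - u 1 * x 0]

/-- a fixed unit vector -/
def e0 : E3 := !₂[0, 0, 1]

/-- the unit vector `y` is stable for `A`: almost all rotations close to the identity move `y`
into `A` (in the sense of density) -/
def St (A : Set E3) (y : E3) : Prop := Dens (1 : HH) {h | rot h y ∈ A}

end

example : IsFiniteMeasureOnCompacts (volume : Measure HH) := inferInstance
example : (volume : Measure HH).IsAddHaarMeasure := inferInstance
example : (volume : Measure E3).IsAddHaarMeasure := inferInstance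
example : SFinite (volume : Measure HH) := inferInstance
example : HasBesicovitchCovering HH := inferInstance
example : HasBesicovitchCovering E3 := inferInstance
example : SecondCountableTopology HH := inferInstance

end Pool.Agent.LibMS49
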