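import Pool.Agent.LibMS49.Defs
set_option autoImplicit false
namespace Pool.Agent.LibMS49
open MeasureTheory Metric Set Filter Topology

variable {V : Type*} [NormedAddCommGroup V] [NormedSpace ℝ V] [FiniteDimensional ℝ V]
  [MeasureSpace V] [BorelSpace V] [(volume : Measure V).IsAddHaarMeasure]

/-- Lebesgue density theorem: `Besicovitch.ae_tendsto_measure_inter_div_of_measurableSet` for `Eᶜ` -/
theorem ae_dens {E : Set V} (hE : MeasurableSet E) : ∀ᵐ x : V, x ∈ E → Dens x E := by
  filter_upwards [Besicovitch.ae_tendsto_measure_inter_div_of_measurableSet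
    (volume : Measure V) hE.compl] with x hx hxE
  have h0 : Eᶜ.indicator (1 : V → ENNReal) x = 0 := by
    rw [indicator_of_notMem]
    exact fun h => h hxE
  rw [h0] at hx
  unfold Dens
  refine hx.congr fun r => ?_
  rw [inter_comm, ← sdiff_eq]

end Pool.Agent.LibMS49
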