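import Pool.Agent.LibMS49.Defs
set_option autoImplicit false
namespace Pool.Agent.LibMS49
open MeasureTheory Metric Set Filter Topology

variable {V : Type*} [NormedAddCommGroup V] [NormedSpace ℝ V] [FiniteDimensional ℝ V]
  [MeasureSpace V] [BorelSpace V] [(volume : Measure V).IsAddHaarMeasure]

/-- monotone up to a null set.  `closedBall x r \ F ⊆ (closedBall x r \ E) ∪ (E \ F)`; squeeze. -/
theorem Dens.mono_ae {x : V} {E F : Set V} (h : Dens x E) (hEF : volume (E \ F) = 0) :
    Dens x F := by
  refine tendsto_of_tendsto_of_tendsto_of_le_of_le tendsto_const_nhds h (fun _ => zero_le)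
    (fun r => ENNReal.div_le_div_right ?_ _)
  calc volume (closedBall x r \ F) ≤ volume ((closedBall x r \ E) ∪ (E \ F)) := by
        apply measure_mono
        intro y hy
        by_cases hyE : y ∈ E
        · exact Or.inr ⟨hyE, hy.2⟩
        · exact Or.inl ⟨hy.1, hyE⟩
    _ ≤ volume (closedBall x r \ E) + volume (E \ F) := measure_union_le _ _
    _ = volume (closedBall x r \ E) := by rw [hEF, add_zero]

theorem Dens.mono {x : V} {E F : Set V} (h : Dens x E) (hEF : E ⊆ F) : Dens x F :=
  h.mono_ae (by rw [sdiff_eq_empty.2 hEF]; simp)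

/-- subadditivity of the outer measure -/
theorem Dens.inter {x : V} {E F : Set V} (h : Dens x E) (h' : Dens x F) : Dens x (E ∩ F) := by
  have h2 := h.add h'
  rw [add_zero] at h2
  refine tendsto_of_tendsto_of_tendsto_of_le_of_le tendsto_const_nhds h2 (fun _ => zero_le)
    (fun r => ?_)
  simp only
  rw [← ENNReal.add_div]
  refine ENNReal.div_le_div_right ?_ _
  refine le_trans (measure_mono ?_) (measure_union_le _ _)
  intro y hy
  by_cases hyE : y ∈ E
  · exact Or.inr ⟨hy.1, fun hF => hy.2 ⟨hyE, hF⟩⟩
  · exact Or.inl ⟨hy.1, hyE⟩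

/-- full measure near `x`: the quotient is eventually zero -/
theorem dens_of_ball {x : V} {E : Set V} {r : ℝ} (hr : 0 < r) (h : volume (ball x r \ E) = 0) :
    Dens x E := by
  refine tendsto_const_nhds.congr' ?_
  have h1 : ∀ᶠ r' in 𝓝[>] (0 : ℝ), r' < r :=
    (eventually_lt_nhds hr).filter_mono nhdsWithin_le_nhds
  filter_upwards [h1] with r' hr'
  have h2 : volume (closedBall x r' \ E) = 0 := by
    refine measure_mono_null ?_ h
    intro y hy
    exact ⟨closedBall_subset_ball hr' hy.1, hy.2⟩
  rw [h2, ENNReal.zero_div]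

theorem dens_of_ae {E : Set V} (h : volume Eᶜ = 0) (x : V) : Dens x E :=
  dens_of_ball (r := 1) one_pos (measure_mono_null (fun _ hy => hy.2) h)

/-- the empty set has no density point (closed balls have positive finite volume) -/
theorem Dens.nonempty {x : V} {E : Set V} (h : Dens x E) : E.Nonempty := by
  by_contra hcon
  rw [Set.not_nonempty_iff_eq_empty] at hcon
  subst hcon
  have h1 : Tendsto (fun r : ℝ => volume (closedBall x r \ (∅ : Set V)) / volume (closedBall x r))
      (𝓝[>] 0) (𝓝 1) := by
    refine tendsto_const_nhds.congr' ?_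
    filter_upwards [self_mem_nhdsWithin] with r hr
    rw [sdiff_empty]
    have hr0 : (0 : ℝ) < r := hr
    exact (ENNReal.div_self (measure_closedBall_pos _ _ hr0).ne' measure_closedBall_lt_top.ne).symm
  exact one_ne_zero (tendsto_nhds_unique h1 h)

/-- key tool: if `x` is a density point of `E` and not a density point of `G`, then `E ⊄ G` -/
theorem exists_of_dens {x : V} {E G : Set V} (h : Dens x E) (hG : ¬ Dens x G) :
    ∃ y ∈ E, y ∉ G := by
  by_contra hcon
  push Not at hcon
  exact hG (h.mono hcon)

theorem Dens.not_disjoint {x : V} {E F : Set V} (h : Dens x E) (h' : Dens x F) :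
    ¬ Disjoint E F := by
  intro hd
  obtain ⟨y, hy⟩ := (h.inter h').nonempty
  exact Set.disjoint_left.1 hd hy.1 hy.2

end Pool.Agent.LibMS49
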