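import Pool.Agent.LibMS49.Defs
set_option autoImplicit false
namespace Pool.Agent.LibMS49
open MeasureTheory Metric Set Filter Topology

variable {V : Type*} [NormedAddCommGroup V] [NormedSpace ℝ V] [FiniteDimensional ℝ V]
  [MeasureSpace V] [BorelSpace V] [(volume : Measure V).IsAddHaarMeasure]

/-- it suffices to look at the radii `2^(-n)` (for `2^(-n-1) < r ≤ 2^(-n)` one has
`closedBall x r ⊆ closedBall x (2^(-n))`, and the volumes of the balls differ by a factor at most `2 ^ dim`,
`Measure.addHaar_closedBall`) -/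
theorem dens_iff_seq (x : V) (E : Set V) :
    Dens x E ↔ Tendsto (fun n : ℕ => volume (closedBall x ((1 / 2 : ℝ) ^ n) \ E) /
      volume (closedBall x ((1 / 2 : ℝ) ^ n))) atTop (𝓝 0) := by
  constructor
  · intro h
    refine h.comp ?_
    rw [tendsto_nhdsWithin_iff]
    exact ⟨tendsto_pow_atTop_nhds_zero_of_lt_one (by norm_num) (by norm_num),
      Eventually.of_forall fun n => by simp⟩
  · intro h
    set D : ENNReal := ENNReal.ofReal ((2 : ℝ) ^ Module.finrank ℝ V) with hD
    have hD0 : D ≠ 0 := by
      rw [hD, Ne, ENNReal.ofReal_eq_zero, not_le]; positivity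
    have hDt : D ≠ ⊤ := ENNReal.ofReal_ne_top
    unfold Dens
    rw [ENNReal.tendsto_nhds_zero] at h ⊢
    intro ε hε
    have h1 := h (ε / D) (ENNReal.div_pos hε.ne' hDt)
    obtain ⟨N, hN⟩ := eventually_atTop.1 h1
    have hpos : (0 : ℝ) < (1 / 2 : ℝ) ^ N := by positivity
    have h2 : ∀ᶠ r in 𝓝[>] (0 : ℝ), r < (1 / 2 : ℝ) ^ N :=
      (eventually_lt_nhds hpos).filter_mono nhdsWithin_le_nhds
    filter_upwards [h2, self_mem_nhdsWithin] with r hr hr0
    have hr0' : (0 : ℝ) < r := hr0
    have hr1 : r ≤ 1 := hr.le.trans (pow_le_one₀ (by norm_num) (by norm_num))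
    obtain ⟨n, hn1, hn2⟩ := exists_nat_pow_near_of_lt_one hr0' hr1
      (by norm_num : (0 : ℝ) < 1 / 2) (by norm_num)
    have hnN : N ≤ n := by
      by_contra hcon
      have h3 : n + 1 ≤ N := by omega
      have h4 : (1 / 2 : ℝ) ^ N ≤ (1 / 2) ^ (n + 1) :=
        pow_le_pow_of_le_one (by norm_num) (by norm_num) h3
      linarith
    have h5 := hN n hnN
    have h6 : volume (closedBall x ((1 / 2 : ℝ) ^ n)) ≤ D * volume (closedBall x r) := by
      have h7 := Measure.addHaar_closedBall_mul (volume : Measure V) x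
        (by norm_num : (0 : ℝ) ≤ 2) (by positivity : (0 : ℝ) ≤ (1 / 2 : ℝ) ^ (n + 1))
      have h8 : (2 : ℝ) * (1 / 2) ^ (n + 1) = (1 / 2) ^ n := by rw [pow_succ]; ring
      rw [h8] at h7
      rw [h7, hD, ← Measure.addHaar_closedBall_center (volume : Measure V) x]
      exact mul_le_mul_right (measure_mono (closedBall_subset_closedBall hn1.le)) _
    have hv0 : volume (closedBall x r) ≠ 0 := (measure_closedBall_pos _ _ hr0').ne'
    have hvt : volume (closedBall x r) ≠ ⊤ := measure_closedBall_lt_top.ne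
    have hw0 : volume (closedBall x ((1 / 2 : ℝ) ^ n)) ≠ 0 :=
      (measure_closedBall_pos _ _ (by positivity)).ne'
    have hwt : volume (closedBall x ((1 / 2 : ℝ) ^ n)) ≠ ⊤ := measure_closedBall_lt_top.ne
    rw [ENNReal.div_le_iff hv0 hvt]
    rw [ENNReal.div_le_iff hw0 hwt] at h5
    calc volume (closedBall x r \ E) ≤ volume (closedBall x ((1 / 2 : ℝ) ^ n) \ E) :=
          measure_mono (sdiff_subset_sdiff_left (closedBall_subset_closedBall hn2))
      _ ≤ ε / D * volume (closedBall x ((1 / 2 : ℝ) ^ n)) := h5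
      _ ≤ ε / D * (D * volume (closedBall x r)) := by gcongr
      _ = ε * volume (closedBall x r) := by
          rw [← mul_assoc, ENNReal.div_mul_cancel hD0 hDt]

/-- measurability of the set of parameters `x` for which `φ x` is a density point of the section of `S`:
by `dens_iff_seq` and `measurableSet_tendsto` it is enough that for fixed `r` the function
`x ↦ volume (closedBall (φ x) r \ {v | (x, v) ∈ S}) / volume (closedBall (φ x) r)` is measurable
(`measurable_measure_prodMk_left` for the measurable set `{(x,v) | v ∈ closedBall (φ x) r, (x,v) ∉ S}`; the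
denominator is constant) -/
theorem measurableSet_dens {X : Type*} [MeasurableSpace X] {S : Set (X × V)}
    (hS : MeasurableSet S) {φ : X → V} (hφ : Measurable φ) :
    MeasurableSet {x | Dens (φ x) {v | (x, v) ∈ S}} := by
  have h1 : {x | Dens (φ x) {v | (x, v) ∈ S}} = {x | Tendsto (fun n : ℕ =>
      volume (closedBall (φ x) ((1 / 2 : ℝ) ^ n) \ {v | (x, v) ∈ S}) /
      volume (closedBall (φ x) ((1 / 2 : ℝ) ^ n))) atTop (𝓝 0)} := by
    ext x
    exact dens_iff_seq _ _
  rw [h1]
  refine measurableSet_tendsto _ fun n => ?_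
  have h2 : ∀ x, volume (closedBall (φ x) ((1 / 2 : ℝ) ^ n)) =
      volume (closedBall (0 : V) ((1 / 2 : ℝ) ^ n)) := fun x =>
    Measure.addHaar_closedBall_center _ _ _
  simp only [h2]
  refine Measurable.div_const ?_ _
  have h3 : MeasurableSet {p : X × V | p.2 ∈ closedBall (φ p.1) ((1 / 2 : ℝ) ^ n) ∧ p ∉ S} := by
    refine MeasurableSet.inter ?_ hS.compl
    have h4 : Measurable fun p : X × V => dist p.2 (φ p.1) :=
      measurable_snd.dist (hφ.comp measurable_fst)
    exact measurableSet_le h4 measurable_const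
  exact measurable_measure_prodMk_left h3

end Pool.Agent.LibMS49
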