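import Pool.Agent.LibMS49.DensA
set_option autoImplicit false
namespace Pool.Agent.LibMS49
open MeasureTheory Metric Set Filter Topology

variable {V : Type*} [NormedAddCommGroup V] [NormedSpace ℝ V] [FiniteDimensional ℝ V]
  [MeasureSpace V] [BorelSpace V] [(volume : Measure V).IsAddHaarMeasure]

/-- for fixed `r` the function `x ↦ volume (A ∩ closedBall x r)` is continuous.
(`|vol(A ∩ closedBall x r) - vol(A ∩ closedBall y r)| ≤ vol(closedBall x (r + d) \ closedBall x (r - d))`
with `d = dist x y`; or dominated convergence for indicators: spheres have measure zero, `Measure.addHaar_sphere`) -/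
theorem continuous_vol (A : Set V) (hA : MeasurableSet A) {r : ℝ} (hr : 0 < r) :
    Continuous (fun x : V => (volume (A ∩ closedBall x r)).toReal) := by
  have e : (fun x : V => (volume (A ∩ closedBall x r)).toReal) =
      fun x : V => ∫ y : V, (A ∩ closedBall x r).indicator (1 : V → ℝ) y := by
    ext x
    rw [integral_indicator_one (hA.inter measurableSet_closedBall)]
    rfl
  rw [e, continuous_iff_continuousAt]
  intro x₀
  refine continuousAt_of_dominated (bound := (closedBall x₀ (r + 1)).indicator (1 : V → ℝ)) ?_ ?_ ?_ ?_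
  · refine Eventually.of_forall fun x => ?_
    exact (measurable_one.indicator (hA.inter measurableSet_closedBall)).aestronglyMeasurable
  · filter_upwards [closedBall_mem_nhds x₀ one_pos] with x hx
    refine Eventually.of_forall fun y => ?_
    by_cases hy : y ∈ A ∩ closedBall x r
    · have hy2 : y ∈ closedBall x₀ (r + 1) := by
        rw [mem_closedBall] at hx ⊢
        calc dist y x₀ ≤ dist y x + dist x x₀ := dist_triangle _ _ _
          _ ≤ r + 1 := add_le_add (mem_closedBall.1 hy.2) hx
      rw [indicator_of_mem hy, indicator_of_mem hy2]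
      simp
    · rw [indicator_of_notMem hy]
      simp only [norm_zero]
      exact indicator_nonneg (fun _ _ => zero_le_one) _
  · exact (integrable_indicator_iff measurableSet_closedBall).2
      (integrableOn_const (measure_closedBall_lt_top).ne)
  · have hs : volume (sphere x₀ r) = 0 := Measure.addHaar_sphere_of_ne_zero _ _ hr.ne'
    have hs' : ∀ᵐ y : V, y ∉ sphere x₀ r := by
      refine measure_mono_null (fun y hy => ?_) hs
      by_contra hne
      exact hy hne
    filter_upwards [hs'] with y hy
    have hne : dist y x₀ ≠ r := fun h => hy h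
    have hcd : Continuous fun x : V => dist y x := by fun_prop
    have heq : (fun x : V => (A ∩ closedBall x r).indicator (1 : V → ℝ) y) =ᶠ[𝓝 x₀]
        fun _ => (A ∩ closedBall x₀ r).indicator (1 : V → ℝ) y := by
      rcases lt_or_gt_of_ne hne with h | h
      · filter_upwards [(hcd.tendsto x₀).eventually_lt_const h] with x hx
        by_cases hyA : y ∈ A
        · rw [indicator_of_mem (show y ∈ A ∩ closedBall x r from ⟨hyA, hx.le⟩),
            indicator_of_mem (show y ∈ A ∩ closedBall x₀ r from ⟨hyA, h.le⟩)]
        · rw [indicator_of_notMem (fun hh => hyA hh.1), indicator_of_notMem (fun hh => hyA hh.1)]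
      · filter_upwards [(hcd.tendsto x₀).eventually_const_lt h] with x hx
        rw [indicator_of_notMem (fun hh => absurd (mem_closedBall.1 hh.2) (not_le.2 hx)),
          indicator_of_notMem (fun hh => absurd (mem_closedBall.1 hh.2) (not_le.2 h))]
    exact heq.continuousAt

theorem densN_half {x : V} {E : Set V} (h : Dens x E) (hE : MeasurableSet E) :
    ∃ δ > 0, ∀ r : ℝ, 0 < r → r < δ →
      1 / 2 * (volume (closedBall x r)).toReal ≤ (volume (E ∩ closedBall x r)).toReal := by
  have h1 : ∀ᶠ r : ℝ in 𝓝[>] 0,
      volume (closedBall x r \ E) / volume (closedBall x r) < ENNReal.ofReal (1 / 2) :=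
    h.eventually_lt_const (by simp)
  rw [eventually_nhdsWithin_iff, Metric.eventually_nhds_iff] at h1
  obtain ⟨δ, hδ, h2⟩ := h1
  refine ⟨δ, hδ, fun r hr hrδ => ?_⟩
  have h3 := h2 (y := r) (by rw [Real.dist_eq, sub_zero, abs_of_pos hr]; exact hrδ) hr
  have hfin : volume (closedBall x r) ≠ ⊤ := (measure_closedBall_lt_top).ne
  have hpos : volume (closedBall x r) ≠ 0 := (measure_closedBall_pos volume x hr).ne'
  have h4 : volume (closedBall x r \ E) ≤ ENNReal.ofReal (1 / 2) * volume (closedBall x r) :=
    (ENNReal.div_le_iff hpos hfin).1 h3.le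
  have h5 : (volume (closedBall x r \ E)).toReal ≤ 1 / 2 * (volume (closedBall x r)).toReal := by
    have := ENNReal.toReal_mono (ENNReal.mul_ne_top ENNReal.ofReal_ne_top hfin) h4
    rw [ENNReal.toReal_mul, ENNReal.toReal_ofReal (by norm_num)] at this
    exact this
  have h6 : volume (closedBall x r ∩ E) + volume (closedBall x r \ E) = volume (closedBall x r) :=
    measure_inter_add_sdiff _ hE
  have h7 : (volume (closedBall x r ∩ E)).toReal + (volume (closedBall x r \ E)).toReal =
      (volume (closedBall x r)).toReal := by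
    rw [← h6, ENNReal.toReal_add]
    · exact ne_top_of_le_ne_top hfin (measure_mono inter_subset_left)
    · exact ne_top_of_le_ne_top hfin (measure_mono sdiff_subset)
  rw [inter_comm E]
  linarith

/-- one step: if `A` and `B` both have positive volume in the convex open set `U`, then for all sufficiently small
`r > 0` there is `z` with `closedBall z r ⊆ U` and `vol(A ∩ closedBall z r) = (1/2) vol(closedBall z r)`: take density
points `x ∈ U` of `A` and `y ∈ U` of `B` (`ae_dens`), and the intermediate value theorem on the segment `[x,y]`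
(a compact subset of `U`) -/
theorem half_step {U A B : Set V} (hU : IsOpen U) (hUc : Convex ℝ U) (hA : MeasurableSet A)
    (hB : MeasurableSet B) (hAB : Disjoint A B) (hpA : volume (U ∩ A) ≠ 0)
    (hpB : volume (U ∩ B) ≠ 0) : ∃ δ > 0, ∀ r : ℝ, 0 < r → r < δ → ∃ z : V, closedBall z r ⊆ U ∧
      (volume (A ∩ closedBall z r)).toReal = 1 / 2 * (volume (closedBall z r)).toReal := by
  have hex : ∀ E : Set V, MeasurableSet E → volume (U ∩ E) ≠ 0 → ∃ x ∈ U, Dens x E := by
    intro E hE hpE
    by_contra hcon
    push Not at hcon
    apply hpE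
    have h1 := ae_dens hE
    refine measure_mono_null (fun x hx => ?_) h1
    intro h2
    exact hcon x hx.1 (h2 hx.2)
  obtain ⟨x, hxU, hx⟩ := hex A hA hpA
  obtain ⟨y, hyU, hy⟩ := hex B hB hpB
  obtain ⟨δ1, hδ1, h1⟩ := densN_half hx hA
  obtain ⟨δ2, hδ2, h2⟩ := densN_half hy hB
  have hseg : segment ℝ x y ⊆ U := hUc.segment_subset hxU hyU
  have hcomp : IsCompact (segment ℝ x y) := by
    rw [segment_eq_image_lineMap]
    exact isCompact_Icc.image (by fun_prop)
  obtain ⟨δ3, hδ3, h3⟩ := hcomp.exists_cthickening_subset_open hU hseg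
  refine ⟨min δ1 (min δ2 δ3), lt_min hδ1 (lt_min hδ2 hδ3), fun r hr hrδ => ?_⟩
  have hr1 : r < δ1 := hrδ.trans_le (min_le_left _ _)
  have hr2 : r < δ2 := hrδ.trans_le ((min_le_right _ _).trans (min_le_left _ _))
  have hr3 : r < δ3 := hrδ.trans_le ((min_le_right _ _).trans (min_le_right _ _))
  have hfin : ∀ z : V, volume (closedBall z r) ≠ ⊤ := fun z => (measure_closedBall_lt_top).ne
  have hvol : ∀ z : V, volume (closedBall z r) = volume (closedBall (0 : V) r) := fun z =>
    Measure.addHaar_closedBall_center _ _ _
  set c : ℝ := 1 / 2 * (volume (closedBall (0 : V) r)).toReal with hc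
  have hfx : c ≤ (volume (A ∩ closedBall x r)).toReal := by
    have := h1 r hr hr1
    rwa [hvol x] at this
  have hfy : (volume (A ∩ closedBall y r)).toReal ≤ c := by
    have h4 := h2 r hr hr2
    have h5 : volume (A ∩ closedBall y r) + volume (B ∩ closedBall y r) ≤
        volume (closedBall y r) := by
      rw [← measure_union (hAB.mono inter_subset_left inter_subset_left)
        (hB.inter measurableSet_closedBall)]
      exact measure_mono (union_subset inter_subset_right inter_subset_right)
    have h6 := ENNReal.toReal_mono (hfin y) h5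
    rw [ENNReal.toReal_add (ne_top_of_le_ne_top (hfin y) (measure_mono inter_subset_right))
      (ne_top_of_le_ne_top (hfin y) (measure_mono inter_subset_right)), hvol y] at h6
    rw [hvol y] at h4
    linarith
  have hcont : Continuous fun t : ℝ =>
      (volume (A ∩ closedBall (AffineMap.lineMap x y t : V) r)).toReal :=
    (continuous_vol A hA hr).comp (by fun_prop)
  have hivt := intermediate_value_Icc' (zero_le_one' ℝ) hcont.continuousOn
  have hmem : c ∈ Icc ((volume (A ∩ closedBall (AffineMap.lineMap x y (1 : ℝ) : V) r)).toReal)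
      ((volume (A ∩ closedBall (AffineMap.lineMap x y (0 : ℝ) : V) r)).toReal) := by
    rw [AffineMap.lineMap_apply_one, AffineMap.lineMap_apply_zero]
    exact ⟨hfy, hfx⟩
  obtain ⟨t, ht, htc⟩ := hivt hmem
  refine ⟨AffineMap.lineMap x y t, ?_, ?_⟩
  · refine Subset.trans ?_ h3
    have hz : (AffineMap.lineMap x y t : V) ∈ segment ℝ x y := by
      rw [segment_eq_image_lineMap]
      exact mem_image_of_mem _ ht
    exact (closedBall_subset_cthickening hz r).trans (cthickening_mono hr3.le _)
  · rw [hvol]
    exact htc

end Pool.Agent.LibMS49
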