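import Pool.Agent.LibMS49.DensN
import Pool.Agent.LibMS49.DensB
set_option autoImplicit false
namespace Pool.Agent.LibMS49
open MeasureTheory Metric Set Filter Topology

variable {V : Type*} [NormedAddCommGroup V] [NormedSpace ℝ V] [FiniteDimensional ℝ V]
  [MeasureSpace V] [BorelSpace V] [(volume : Measure V).IsAddHaarMeasure]

/-- half filled balls -/
private theorem densN2_half {A : Set V} (hA : MeasurableSet A) {z : V} {r : ℝ}
    (h : (volume (A ∩ closedBall z r)).toReal = 1 / 2 * (volume (closedBall z r)).toReal) :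
    volume (closedBall z r ∩ A) = ENNReal.ofReal (1 / 2) * volume (closedBall z r) ∧
    volume (closedBall z r \ A) = ENNReal.ofReal (1 / 2) * volume (closedBall z r) := by
  have hfin : volume (closedBall z r) ≠ ⊤ := measure_closedBall_lt_top.ne
  have h1 : volume (closedBall z r ∩ A) ≠ ⊤ := measure_ne_top_of_subset inter_subset_left hfin
  have h2 : volume (closedBall z r \ A) ≠ ⊤ := measure_ne_top_of_subset sdiff_subset hfin
  have h3 : ENNReal.ofReal (1 / 2) * volume (closedBall z r) ≠ ⊤ :=
    ENNReal.mul_ne_top ENNReal.ofReal_ne_top hfin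
  have e3 : (ENNReal.ofReal (1 / 2) * volume (closedBall z r)).toReal =
      1 / 2 * (volume (closedBall z r)).toReal := by
    rw [ENNReal.toReal_mul, ENNReal.toReal_ofReal (by norm_num)]
  have e4 := measure_inter_add_diff (μ := volume) (closedBall z r) hA
  have e5 : (volume (closedBall z r ∩ A)).toReal + (volume (closedBall z r \ A)).toReal =
      (volume (closedBall z r)).toReal := by
    rw [← ENNReal.toReal_add h1 h2, e4]
  rw [inter_comm] at h
  constructor
  · rw [← ENNReal.toReal_eq_toReal_iff' h1 h3, e3, h]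
  · rw [← ENNReal.toReal_eq_toReal_iff' h2 h3, e3]
    linarith

private theorem densN2_ball {z : V} {r : ℝ} (hr : 0 < r) (A : Set V) :
    volume (closedBall z r ∩ A) ≤ volume (ball z r ∩ A) := by
  have h1 : closedBall z r ∩ A ⊆ (ball z r ∩ A) ∪ sphere z r := by
    intro y hy
    rcases (mem_closedBall.1 hy.1).lt_or_eq with h | h
    · exact Or.inl ⟨h, hy.2⟩
    · exact Or.inr h
  calc volume (closedBall z r ∩ A) ≤ volume ((ball z r ∩ A) ∪ sphere z r) := measure_mono h1
    _ ≤ volume (ball z r ∩ A) + volume (sphere z r) := measure_union_le _ _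
    _ = volume (ball z r ∩ A) := by
      rw [Measure.addHaar_sphere_of_ne_zero volume z hr.ne', add_zero]

/-- the state of the construction -/
private def densN2_P (U A : Set V) (s : V × ℝ) : Prop :=
  0 < s.2 ∧ closedBall s.1 s.2 ⊆ U ∧
    (volume (A ∩ closedBall s.1 s.2)).toReal = 1 / 2 * (volume (closedBall s.1 s.2)).toReal

private theorem densN2_step {U A B : Set V} (hA : MeasurableSet A)
    (hB : MeasurableSet B) (hAB : Disjoint A B) (hfull : volume (U \ (A ∪ B)) = 0)
    {s : V × ℝ} (hs : densN2_P U A s) : ∃ s' : V × ℝ, densN2_P U A s' ∧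
      closedBall s'.1 s'.2 ⊆ ball s.1 s.2 ∧ s'.2 ≤ s.2 / 2 := by
  obtain ⟨z, r⟩ := s
  obtain ⟨hr, hsub, hhalf⟩ := hs
  simp only at hr hsub hhalf ⊢
  obtain ⟨h1, h2⟩ := densN2_half hA hhalf
  have hpos : 0 < volume (closedBall z r) := measure_closedBall_pos volume z hr
  have hpos' : ENNReal.ofReal (1 / 2) * volume (closedBall z r) ≠ 0 := by
    refine mul_ne_zero ?_ hpos.ne'
    rw [Ne, ENNReal.ofReal_eq_zero]
    norm_num
  have hpA : volume (ball z r ∩ A) ≠ 0 := by
    intro h0
    have := densN2_ball (z := z) hr A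
    rw [h0, h1] at this
    exact hpos' (le_antisymm this bot_le)
  have hpB : volume (ball z r ∩ B) ≠ 0 := by
    intro h0
    have h3 : closedBall z r \ A ⊆ (closedBall z r ∩ B) ∪ (U \ (A ∪ B)) := by
      intro y hy
      by_cases hyB : y ∈ B
      · exact Or.inl ⟨hy.1, hyB⟩
      · exact Or.inr ⟨hsub hy.1, fun h => h.elim hy.2 hyB⟩
    have h4 : volume (closedBall z r \ A) ≤ 0 := by
      calc volume (closedBall z r \ A) ≤ volume ((closedBall z r ∩ B) ∪ (U \ (A ∪ B))) :=
            measure_mono h3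
        _ ≤ volume (closedBall z r ∩ B) + volume (U \ (A ∪ B)) := measure_union_le _ _
        _ ≤ volume (ball z r ∩ B) + 0 := by
            rw [hfull]
            exact add_le_add (densN2_ball hr B) le_rfl
        _ = 0 := by rw [h0, add_zero]
    rw [h2] at h4
    exact hpos' (le_antisymm h4 bot_le)
  obtain ⟨δ, hδ, hstep⟩ := half_step isOpen_ball (convex_ball z r) hA hB hAB hpA hpB
  have hr' : 0 < min (δ / 2) (r / 2) := lt_min (by linarith) (by linarith)
  have hr'' : min (δ / 2) (r / 2) < δ := (min_le_left _ _).trans_lt (by linarith)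
  obtain ⟨z', hz', hhalf'⟩ := hstep _ hr' hr''
  exact ⟨(z', min (δ / 2) (r / 2)), ⟨hr', (hz'.trans ball_subset_closedBall).trans hsub, hhalf'⟩,
    hz', min_le_right _ _⟩

/-- a ball and the concentric ball with twice the radius -/
private theorem densN2_double (z z' : V) {r : ℝ} (hr : 0 < r) :
    ENNReal.ofReal (1 / (2 * 2 ^ Module.finrank ℝ V)) * volume (closedBall z (2 * r)) =
      ENNReal.ofReal (1 / 2) * volume (closedBall z' r) := by
  rw [Measure.addHaar_closedBall volume z (by linarith),
    Measure.addHaar_closedBall volume z' hr.le, ← mul_assoc, ← mul_assoc,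
    ← ENNReal.ofReal_mul (by positivity), ← ENNReal.ofReal_mul (by positivity)]
  congr 2
  rw [mul_pow]
  field_simp

private theorem densN2_not {z : V} {E : Set V} (zs : ℕ → V) (rs : ℕ → ℝ) (hr : ∀ k, 0 < rs k)
    (hlim : Tendsto rs atTop (𝓝 0)) (hE : ∀ k, ENNReal.ofReal (1 / 2) * volume (closedBall (zs k) (rs k)) ≤
      volume (closedBall z (2 * rs k) \ E)) : ¬ Dens z E := by
  intro hD
  have h1 : Tendsto (fun k => 2 * rs k) atTop (𝓝[>] 0) := by
    rw [tendsto_nhdsWithin_iff]
    refine ⟨?_, Eventually.of_forall fun k => ?_⟩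
    · simpa using hlim.const_mul 2
    · have := hr k
      simp only [mem_Ioi]
      linarith
  have h2 := hD.comp h1
  have h3 : ENNReal.ofReal (1 / (2 * 2 ^ Module.finrank ℝ V)) ≤ 0 := by
    refine ge_of_tendsto' h2 fun k => ?_
    have hk := hr k
    have hp : volume (closedBall z (2 * rs k)) ≠ 0 :=
      (measure_closedBall_pos volume z (by linarith)).ne'
    have hf : volume (closedBall z (2 * rs k)) ≠ ⊤ := measure_closedBall_lt_top.ne
    show _ ≤ volume (closedBall z (2 * rs k) \ E) / volume (closedBall z (2 * rs k))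
    rw [ENNReal.le_div_iff_mul_le (Or.inl hp) (Or.inl hf), densN2_double z (zs k) hk]
    exact hE k
  have h4 : 0 < ENNReal.ofReal (1 / (2 * 2 ^ Module.finrank ℝ V)) := by
    rw [ENNReal.ofReal_pos]
    positivity
  exact absurd h3 (not_le.2 h4)

/-- no wild point in a convex open set `U`: one of `A`, `B` is null in `U`.
Otherwise (`half_step`) there are `z₀`, `r₀ > 0` with `closedBall z₀ r₀ ⊆ U` and `A` filling half of `closedBall z₀ r₀`.
Given `(z_k, r_k)` with `closedBall z_k r_k ⊆ U` and `A` filling half of `closedBall z_k r_k` (so that `A` and `B` both have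
positive volume in `ball z_k r_k`: a.e. point of `U` is in `A ∪ B`), `half_step` for the convex open set `ball z_k r_k` gives
`z_{k+1}` and `0 < r_{k+1} ≤ r_k / 2` with `closedBall z_{k+1} r_{k+1} ⊆ ball z_k r_k`, half filled by `A`.
The common point `z` of these closed balls satisfies `closedBall z_k r_k ⊆ closedBall z (2 r_k)`, hence both `A` and `B`
occupy at least a fraction `1/(2·2^dim)` of `closedBall z (2 r_k)`: neither `Dens z A` nor `Dens z B` -/
theorem nested {U A B : Set V} (hU : IsOpen U) (hUc : Convex ℝ U) (hA : MeasurableSet A)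
    (hB : MeasurableSet B) (hAB : Disjoint A B) (hfull : volume (U \ (A ∪ B)) = 0)
    (h : ∀ x ∈ U, Dens x A ∨ Dens x B) : volume (U ∩ A) = 0 ∨ volume (U ∩ B) = 0 := by
  by_contra hcon
  push Not at hcon
  obtain ⟨hpA, hpB⟩ := hcon
  obtain ⟨δ, hδ, hstep⟩ := half_step hU hUc hA hB hAB hpA hpB
  obtain ⟨z₀, hz₀, hhalf₀⟩ := hstep (δ / 2) (by linarith) (by linarith)
  let s₀ : {s : V × ℝ // densN2_P U A s} := ⟨(z₀, δ / 2), by
    refine ⟨?_, hz₀, hhalf₀⟩
    simp only
    linarith⟩
  have hex : ∀ s : {s : V × ℝ // densN2_P U A s}, ∃ s' : {s : V × ℝ // densN2_P U A s},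
      closedBall s'.1.1 s'.1.2 ⊆ ball s.1.1 s.1.2 ∧ s'.1.2 ≤ s.1.2 / 2 := by
    intro s
    obtain ⟨s', h1, h2⟩ := densN2_step hA hB hAB hfull s.2
    exact ⟨⟨s', h1⟩, h2⟩
  choose g hg using hex
  set q : ℕ → {s : V × ℝ // densN2_P U A s} := fun n => g^[n] s₀ with hq
  have hqs : ∀ n, q (n + 1) = g (q n) := fun n => by
    simp only [hq, Function.iterate_succ_apply']
  have hpos : ∀ n, 0 < (q n).1.2 := fun n => (q n).2.1
  have hr : ∀ n, (q n).1.2 ≤ (δ / 2) * (1 / 2) ^ n := by
    intro n
    induction n with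
    | zero => simp [hq, s₀]
    | succ n ih =>
      rw [hqs]
      have := (hg (q n)).2
      rw [pow_succ]
      linarith
  have hlim : Tendsto (fun n => (q n).1.2) atTop (𝓝 0) := by
    refine squeeze_zero (fun n => (hpos n).le) hr ?_
    have := (tendsto_pow_atTop_nhds_zero_of_lt_one (r := (1 / 2 : ℝ)) (by norm_num)
      (by norm_num)).const_mul (δ / 2)
    simpa using this
  obtain ⟨z, hz⟩ := IsCompact.nonempty_iInter_of_sequence_nonempty_isCompact_isClosed
    (fun n => closedBall (q n).1.1 (q n).1.2)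
    (fun n => by
      rw [hqs]
      exact ((hg (q n)).1).trans ball_subset_closedBall)
    (fun n => ⟨_, mem_closedBall_self (hpos n).le⟩) (isCompact_closedBall _ _)
    (fun n => isClosed_closedBall)
  rw [mem_iInter] at hz
  have hsub : ∀ n, closedBall (q n).1.1 (q n).1.2 ⊆ closedBall z (2 * (q n).1.2) := by
    intro n y hy
    rw [mem_closedBall] at hy ⊢
    have h1 := mem_closedBall.1 (hz n)
    have h2 := dist_triangle y (q n).1.1 z
    rw [dist_comm (q n).1.1 z] at h2
    linarith
  have hzU : z ∈ U := (q 0).2.2.1 (hz 0)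
  have hhalf := fun n => densN2_half hA (q n).2.2.2
  rcases h z hzU with hD | hD
  · refine densN2_not (fun n => (q n).1.1) (fun n => (q n).1.2) hpos hlim (fun k => ?_) hD
    rw [← (hhalf k).2]
    exact measure_mono (sdiff_subset_sdiff_left (hsub k))
  · refine densN2_not (fun n => (q n).1.1) (fun n => (q n).1.2) hpos hlim (fun k => ?_) hD
    rw [← (hhalf k).1]
    refine measure_mono fun y hy => ⟨hsub k hy.1, fun hyB => ?_⟩
    exact Set.disjoint_left.1 hAB hy.2 hyB

end Pool.Agent.LibMS49
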