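import Pool.Agent.LibMS49.Defs
set_option autoImplicit false
namespace Pool.Agent.LibMS49
open MeasureTheory Metric Set Filter Topology

variable {V : Type*} [NormedAddCommGroup V] [NormedSpace ℝ V] [FiniteDimensional ℝ V]
  [MeasureSpace V] [BorelSpace V] [(volume : Measure V).IsAddHaarMeasure]

/-- translation -/
theorem dens_add_iff (p x : V) (E : Set V) : Dens (p + x) E ↔ Dens x {t | p + t ∈ E} := by
  unfold Dens
  have h1 : (fun r : ℝ => volume (closedBall (p + x) r \ E) / volume (closedBall (p + x) r)) =
      fun r : ℝ => volume (closedBall x r \ {t | p + t ∈ E}) / volume (closedBall x r) := by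
    funext r
    have h2 : (fun t => p + t) ⁻¹' closedBall (p + x) r = closedBall x r := by
      ext t
      simp [mem_closedBall]
    have h3 : volume (closedBall x r) = volume (closedBall (p + x) r) := by
      rw [← h2, measure_preimage_add]
    have h4 : volume (closedBall x r \ {t | p + t ∈ E}) = volume (closedBall (p + x) r \ E) := by
      rw [← h2]
      exact measure_preimage_add volume p (closedBall (p + x) r \ E)
    rw [h3, h4]
  rw [h1]

private theorem densT_scale {a : ℝ} (ha : 0 < a) :
    Tendsto (fun r : ℝ => r * a) (𝓝[>] 0) (𝓝[>] 0) := by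
  refine tendsto_nhdsWithin_iff.2 ⟨?_, ?_⟩
  · have h1 : Tendsto (fun r : ℝ => r * a) (𝓝 0) (𝓝 (0 * a)) := tendsto_id.mul_const a
    rw [zero_mul] at h1
    exact h1.mono_left nhdsWithin_le_nhds
  · filter_upwards [self_mem_nhdsWithin] with r hr
    exact mul_pos hr ha

/-- right multiplication by `c ≠ 0` is a linear bijection `T` of `HH` with `‖T h‖ = ‖h‖ ‖c‖`:
`T '' closedBall q r = closedBall (q * c) (r * ‖c‖)`, and `volume (T '' S) = K * volume S` with a constant
`0 < K < ∞` (`Measure.addHaar_image_continuousLinearEquiv` or `addHaar_image_linearMap`), so the quotients at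
the radii `r` and `r * ‖c‖` are equal -/
theorem dens_mul_iff (q c : HH) (hc : c ≠ 0) (E : Set HH) :
    Dens (q * c) E ↔ Dens q {h | h * c ∈ E} := by
  have hc0 : 0 < ‖c‖ := norm_pos_iff.2 hc
  set T : HH →ₗ[ℝ] HH := LinearMap.mulRight ℝ c with hT
  have hTa : ∀ h, T h = h * c := fun h => rfl
  have hdet : LinearMap.det T ≠ 0 := by
    have hinj : Function.Injective T := by
      intro x y hxy
      rw [hTa, hTa] at hxy
      exact mul_right_cancel₀ hc hxy
    have := (LinearEquiv.ofInjectiveEndo T hinj).isUnit_det'
    exact this.ne_zero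
  set K : ENNReal := ENNReal.ofReal |(LinearMap.det T)⁻¹| with hK
  have hK0 : K ≠ 0 := by
    rw [hK]
    simpa using hdet
  have hKt : K ≠ ⊤ := ENNReal.ofReal_ne_top
  have hvol : ∀ S : Set HH, volume (T ⁻¹' S) = K * volume S := fun S =>
    Measure.addHaar_preimage_linearMap volume hdet S
  have hball : ∀ r : ℝ, T ⁻¹' closedBall (q * c) (r * ‖c‖) = closedBall q r := by
    intro r
    ext h
    rw [mem_preimage, mem_closedBall, mem_closedBall, dist_eq_norm, dist_eq_norm, hTa,
      ← sub_mul, norm_mul]
    exact mul_le_mul_iff_left₀ hc0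
  have hq : ∀ r : ℝ, volume (closedBall q r \ {h | h * c ∈ E}) / volume (closedBall q r) =
      volume (closedBall (q * c) (r * ‖c‖) \ E) / volume (closedBall (q * c) (r * ‖c‖)) := by
    intro r
    have h1 : closedBall q r \ {h | h * c ∈ E} =
        T ⁻¹' (closedBall (q * c) (r * ‖c‖) \ E) := by
      rw [preimage_sdiff, hball]
      rfl
    rw [h1, ← hball r, hvol, hvol, ENNReal.mul_div_mul_left _ _ hK0 hKt]
  unfold Dens
  constructor
  · intro h
    have h2 := h.comp (densT_scale hc0)
    refine h2.congr fun r => ?_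
    rw [hq]
    rfl
  · intro h
    have h2 := h.comp (densT_scale (inv_pos.2 hc0))
    refine h2.congr fun r => ?_
    rw [Function.comp_apply, hq, mul_assoc, inv_mul_cancel₀ hc0.ne', mul_one]

end Pool.Agent.LibMS49
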