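import Pool.Agent.LibMS49.Cfg
import Pool.Agent.LibMS49.Angle
set_option autoImplicit false
namespace Pool.Agent.LibMS49
open MeasureTheory Metric Set Filter Topology

/-- wild points of the unit sphere -/
def Wd (A B : Set E3) (y : E3) : Prop := ‖y‖ = 1 ∧ ¬ St A y ∧ ¬ St B y

theorem geo_inner {u z z' : E3} (hu : inner ℝ u u = (1 : ℝ)) (hz : inner ℝ z z = (1 : ℝ))
    (hz' : inner ℝ z' z' = (1 : ℝ)) (huz : inner ℝ u z = (0 : ℝ)) (huz' : inner ℝ u z' = (0 : ℝ))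
    (hzz : inner ℝ z z' = (0 : ℝ)) (p a b p' a' b' : ℝ) :
    inner ℝ (p • u + (a • z + b • z')) (p' • u + (a' • z + b' • z')) =
      p * p' + (a * a' + b * b') := by
  have huz2 : inner ℝ z u = (0 : ℝ) := by rw [real_inner_comm]; exact huz
  have huz2' : inner ℝ z' u = (0 : ℝ) := by rw [real_inner_comm]; exact huz'
  have hzz2 : inner ℝ z' z = (0 : ℝ) := by rw [real_inner_comm]; exact hzz
  simp only [inner_add_left, inner_add_right, real_inner_smul_left, real_inner_smul_right,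
    hu, hz, hz', huz, huz', hzz, huz2, huz2', hzz2]
  ring

theorem geo_norm_one {x : E3} (h : inner ℝ x x = (1 : ℝ)) : ‖x‖ = 1 := by
  rw [real_inner_self_eq_norm_sq] at h
  nlinarith [norm_nonneg x]

theorem geo_rot {u z : E3} (hu : ‖u‖ = 1) (huz : inner ℝ u z = (0 : ℝ)) (φ : ℝ) :
    rot (ax u φ) ((1 / 2 : ℝ) • u + (Real.sqrt 3 / 2) • z) =
      (1 / 2 : ℝ) • u + ((Real.sqrt 3 / 2 * Real.cos (2 * φ)) • z +
        (Real.sqrt 3 / 2 * Real.sin (2 * φ)) • cr u z) := by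
  rw [rot_add, rot_smul, rot_smul, rot_ax_self hu, rot_ax_perp hu huz, smul_add, smul_smul,
    smul_smul]

/-- geometry: with `z ⟂ u` unit vectors, `y = (1/2) u + (√3/2) z`, the points `u`, `u' = rot (ax u θ) z`,
`c = rot (ax u (θ + γ)) y`, `c' = rot (ax u (θ - γ)) y` satisfy the hypotheses of `octa` -/
theorem octa_geometry {u z : E3} (hu : ‖u‖ = 1) (hz : ‖z‖ = 1) (huz : inner ℝ u z = (0 : ℝ))
    (θ : ℝ) :
    ‖rot (ax u θ) z‖ = 1 ∧ ‖rot (ax u (θ + gam)) ((1 / 2 : ℝ) • u + (Real.sqrt 3 / 2) • z)‖ = 1 ∧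
    ‖rot (ax u (θ - gam)) ((1 / 2 : ℝ) • u + (Real.sqrt 3 / 2) • z)‖ = 1 ∧
    inner ℝ u (rot (ax u θ) z) = (0 : ℝ) ∧
    inner ℝ (rot (ax u (θ + gam)) ((1 / 2 : ℝ) • u + (Real.sqrt 3 / 2) • z))
      (rot (ax u (θ - gam)) ((1 / 2 : ℝ) • u + (Real.sqrt 3 / 2) • z)) = (0 : ℝ) ∧
    rot (ax u (θ + gam)) ((1 / 2 : ℝ) • u + (Real.sqrt 3 / 2) • z) +
      rot (ax u (θ - gam)) ((1 / 2 : ℝ) • u + (Real.sqrt 3 / 2) • z) = u + rot (ax u θ) z ∧
    inner ℝ u (rot (ax u (θ + gam)) ((1 / 2 : ℝ) • u + (Real.sqrt 3 / 2) • z)) = (1 / 2 : ℝ) := by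
  have hu1 : inner ℝ u u = (1 : ℝ) := by rw [real_inner_self_eq_norm_sq, hu]; norm_num
  have hz1 : inner ℝ z z = (1 : ℝ) := by rw [real_inner_self_eq_norm_sq, hz]; norm_num
  have hz'1 : inner ℝ (cr u z) (cr u z) = (1 : ℝ) := by
    rw [real_inner_self_eq_norm_sq, norm_cr_sq, hu, hz, huz]; norm_num
  have hzz := inner_cr_right u z
  have huz' := inner_cr_left u z
  have key := geo_inner hu1 hz1 hz'1 huz huz' hzz
  have s3 : Real.sqrt 3 * Real.sqrt 3 = 3 := Real.mul_self_sqrt (by norm_num)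
  have hcs : ∀ φ : ℝ, Real.cos φ * Real.cos φ + Real.sin φ * Real.sin φ = 1 := fun φ => by
    nlinarith [Real.cos_sq_add_sin_sq φ]
  have hθz : rot (ax u θ) z = (0 : ℝ) • u + (Real.cos (2 * θ) • z + Real.sin (2 * θ) • cr u z) := by
    rw [rot_ax_perp hu huz, zero_smul, zero_add]
  have hone : u = (1 : ℝ) • u + ((0 : ℝ) • z + (0 : ℝ) • cr u z) := by
    rw [zero_smul, zero_smul, one_smul, add_zero, add_zero]
  refine ⟨?_, ?_, ?_, ?_, ?_, ?_, ?_⟩
  · rw [norm_rot (ax_ne_zero hu θ), hz]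
  · apply geo_norm_one
    rw [inner_rot (ax_ne_zero hu _)]
    have := key (1 / 2) (Real.sqrt 3 / 2) 0 (1 / 2) (Real.sqrt 3 / 2) 0
    rw [zero_smul, add_zero] at this
    rw [this]
    nlinarith
  · apply geo_norm_one
    rw [inner_rot (ax_ne_zero hu _)]
    have := key (1 / 2) (Real.sqrt 3 / 2) 0 (1 / 2) (Real.sqrt 3 / 2) 0
    rw [zero_smul, add_zero] at this
    rw [this]
    nlinarith
  · rw [hθz]
    have := key 1 0 0 0 (Real.cos (2 * θ)) (Real.sin (2 * θ))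
    rw [← hone] at this
    rw [this]; ring
  · rw [geo_rot hu huz, geo_rot hu huz, key]
    have e : Real.cos (2 * (θ + gam)) * Real.cos (2 * (θ - gam)) +
        Real.sin (2 * (θ + gam)) * Real.sin (2 * (θ - gam)) = Real.cos (2 * (2 * gam)) := by
      rw [← Real.cos_sub]; congr 1; ring
    have e2 : Real.cos (2 * (2 * gam)) = -1 / 3 := by
      rw [Real.cos_two_mul, cos_two_gam]
      nlinarith
    have e3 : 1 / 2 * (1 / 2 : ℝ) + (Real.sqrt 3 / 2 * Real.cos (2 * (θ + gam)) *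
        (Real.sqrt 3 / 2 * Real.cos (2 * (θ - gam))) + Real.sqrt 3 / 2 * Real.sin (2 * (θ + gam)) *
        (Real.sqrt 3 / 2 * Real.sin (2 * (θ - gam)))) = 1 / 4 + Real.sqrt 3 * Real.sqrt 3 / 4 *
        (Real.cos (2 * (θ + gam)) * Real.cos (2 * (θ - gam)) +
        Real.sin (2 * (θ + gam)) * Real.sin (2 * (θ - gam))) := by ring
    rw [e3, e, e2, s3]; norm_num
  · rw [geo_rot hu huz, geo_rot hu huz, hθz]
    have e1 : Real.sqrt 3 / 2 * Real.cos (2 * (θ + gam)) +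
        Real.sqrt 3 / 2 * Real.cos (2 * (θ - gam)) = Real.cos (2 * θ) := by
      rw [mul_add, mul_sub, Real.cos_add, Real.cos_sub, cos_two_gam]
      linear_combination (Real.cos (2 * θ) / 3) * s3
    have e2 : Real.sqrt 3 / 2 * Real.sin (2 * (θ + gam)) +
        Real.sqrt 3 / 2 * Real.sin (2 * (θ - gam)) = Real.sin (2 * θ) := by
      rw [mul_add, mul_sub, Real.sin_add, Real.sin_sub, cos_two_gam]
      linear_combination (Real.sin (2 * θ) / 3) * s3
    rw [← e1, ← e2]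
    module
  · rw [geo_rot hu huz]
    have := key 1 0 0 (1 / 2) (Real.sqrt 3 / 2 * Real.cos (2 * (θ + gam)))
      (Real.sqrt 3 / 2 * Real.sin (2 * (θ + gam)))
    rw [← hone] at this
    rw [this]; ring

end Pool.Agent.LibMS49
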