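import Pool.Agent.LibMS49.Defs
set_option autoImplicit false
namespace Pool.Agent.LibMS49
open MeasureTheory Metric Set Filter Topology

theorem trig_aux_inj {N : Set ℝ} (hN : volume N = 0) (k : ℤ) :
    volume {θ : ℝ | θ ∈ Ioo (k * Real.pi) ((k + 1) * Real.pi) ∧ Real.cos θ ∈ N} = 0 := by
  set M := toMeasurable volume N with hM
  have hMm : MeasurableSet M := measurableSet_toMeasurable _ _
  have hM0 : volume M = 0 := by rw [hM, measure_toMeasurable, hN]
  set S : Set ℝ := Ioo (k * Real.pi) ((k + 1) * Real.pi) ∩ Real.cos ⁻¹' M with hS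
  have hSm : MeasurableSet S := measurableSet_Ioo.inter (Real.measurable_cos hMm)
  have hsub : {θ : ℝ | θ ∈ Ioo (k * Real.pi) ((k + 1) * Real.pi) ∧ Real.cos θ ∈ N} ⊆ S :=
    fun θ hθ => ⟨hθ.1, subset_toMeasurable _ _ hθ.2⟩
  refine measure_mono_null hsub ?_
  have hcos : ∀ θ : ℝ, Real.cos θ = (-1) ^ k * Real.cos (θ - k * Real.pi) := by
    intro θ
    rw [Real.cos_sub_int_mul_pi, ← mul_assoc, ← mul_zpow]
    simp
  have hk : ((-1 : ℝ) ^ k) ≠ 0 := zpow_ne_zero _ (by norm_num)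
  have hinj : InjOn Real.cos S := by
    intro a ha b hb hab
    rw [hcos a, hcos b] at hab
    have h1 := mul_left_cancel₀ hk hab
    have ha' : a - k * Real.pi ∈ Icc 0 Real.pi := by
      constructor <;> nlinarith [ha.1.1, ha.1.2]
    have hb' : b - k * Real.pi ∈ Icc 0 Real.pi := by
      constructor <;> nlinarith [hb.1.1, hb.1.2]
    have h2 := Real.injOn_cos ha' hb' h1
    linarith
  have hsin : ∀ θ ∈ S, Real.sin θ ≠ 0 := by
    intro θ hθ h0
    have h1 : Real.sin (θ - k * Real.pi) = 0 := by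
      rw [Real.sin_sub_int_mul_pi, h0, mul_zero]
    have h2 : 0 < Real.sin (θ - k * Real.pi) := by
      apply Real.sin_pos_of_pos_of_lt_pi <;> nlinarith [hθ.1.1, hθ.1.2]
    exact h2.ne' h1
  have hint := lintegral_image_eq_lintegral_abs_deriv_mul hSm
    (fun x _ => (Real.hasDerivAt_cos x).hasDerivWithinAt) hinj (fun _ => 1)
  have h3 : ∫⁻ x in Real.cos '' S, (1 : ENNReal) = 0 := by
    rw [setLIntegral_one]
    refine measure_mono_null ?_ hM0
    rintro _ ⟨θ, hθ, rfl⟩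
    exact hθ.2
  rw [h3] at hint
  simp only [mul_one] at hint
  have h4 := (lintegral_eq_zero_iff (by fun_prop)).1 hint.symm
  have h5 := (ae_restrict_iff' hSm).1 h4
  refine measure_mono_null (fun θ hθ => ?_) h5
  intro h6
  have h7 := h6 hθ
  simp only [Pi.zero_apply, ENNReal.ofReal_eq_zero, abs_neg] at h7
  exact hsin θ hθ (abs_nonpos_iff.1 h7)

/-- preimages of null sets under `cos` are null: `{θ ∈ (kπ, (k+1)π) | cos θ ∈ N}` is the image of
`N ∩ (-1,1)` under `± arccos + const`, which is differentiable on `(-1,1)`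
(`addHaar_image_eq_zero_of_differentiableOn_of_addHaar_eq_zero`) -/
theorem cos_null {N : Set ℝ} (hN : volume N = 0) : ∀ᵐ θ : ℝ, Real.cos θ ∉ N := by
  have hsub : {θ : ℝ | ¬ Real.cos θ ∉ N} ⊆
      (⋃ k : ℤ, {θ : ℝ | θ ∈ Ioo (k * Real.pi) ((k + 1) * Real.pi) ∧ Real.cos θ ∈ N}) ∪
        range (fun k : ℤ => (k : ℝ) * Real.pi) := by
    intro θ hθ
    have hθ' : Real.cos θ ∈ N := by
      by_contra h
      exact hθ h
    have hpi := Real.pi_pos
    have h1 := Int.floor_le (θ / Real.pi)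
    have h2 := Int.lt_floor_add_one (θ / Real.pi)
    set k : ℤ := ⌊θ / Real.pi⌋
    rw [le_div_iff₀ hpi] at h1
    rw [div_lt_iff₀ hpi] at h2
    rcases h1.lt_or_eq with h | h
    · left
      exact mem_iUnion.2 ⟨k, ⟨h, h2⟩, hθ'⟩
    · right
      exact ⟨k, h⟩
  refine measure_mono_null hsub ?_
  refine measure_union_null (measure_iUnion_null fun k => trig_aux_inj hN k) ?_
  exact (countable_range _).measure_zero _

theorem trig_aux_form (b c : ℝ) : ∃ t₀ : ℝ, ∀ φ : ℝ,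
    b * Real.cos φ + c * Real.sin φ = Real.sqrt (b ^ 2 + c ^ 2) * Real.cos (φ - t₀) := by
  set z : ℂ := ⟨b, c⟩ with hz
  have hn : ‖z‖ = Real.sqrt (b ^ 2 + c ^ 2) := by
    rw [Complex.norm_def, Complex.normSq_apply]
    congr 1
    simp [hz]; ring
  refine ⟨Complex.arg z, fun φ => ?_⟩
  have h1 := Complex.norm_mul_cos_arg z
  have h2 := Complex.norm_mul_sin_arg z
  have h1' : ‖z‖ * Real.cos (Complex.arg z) = b := h1
  have h2' : ‖z‖ * Real.sin (Complex.arg z) = c := h2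
  rw [← hn, Real.cos_sub]
  calc b * Real.cos φ + c * Real.sin φ
      = (‖z‖ * Real.cos (Complex.arg z)) * Real.cos φ + (‖z‖ * Real.sin (Complex.arg z)) * Real.sin φ := by
        rw [h1', h2']
    _ = _ := by ring

theorem trig_aux_affine {Z : Set ℝ} (hZ : volume Z = 0) {m : ℝ} (hm : m ≠ 0) (s : ℝ) :
    volume {θ : ℝ | m * θ + s ∈ Z} = 0 := by
  have e : {θ : ℝ | m * θ + s ∈ Z} = (fun θ => m * θ) ⁻¹' ((fun x => x + s) ⁻¹' Z) := rfl
  rw [e, Real.volume_preimage_mul_left hm, measure_preimage_add_right, hZ, mul_zero]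

/-- write `b cos t + c sin t = R cos (t - t₀)`, `R = √(b²+c²) > 0` -/
theorem trig_null {N : Set ℝ} (hN : volume N = 0) {a b c : ℝ} (hbc : 0 < b ^ 2 + c ^ 2) :
    ∀ᵐ θ : ℝ, a + b * Real.cos (2 * θ) + c * Real.sin (2 * θ) ∉ N := by
  obtain ⟨t₀, ht₀⟩ := trig_aux_form b c
  have hR : Real.sqrt (b ^ 2 + c ^ 2) ≠ 0 := (Real.sqrt_pos.2 hbc).ne'
  have h1 := cos_null (trig_aux_affine hN hR a)
  have h2 := trig_aux_affine (Z := {φ : ℝ | ¬ Real.cos φ ∉ {y : ℝ | Real.sqrt (b ^ 2 + c ^ 2) * y + a ∈ N}})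
    h1 (m := 2) (by norm_num) (-t₀)
  refine measure_mono_null (fun θ hθ => ?_) h2
  intro h3
  refine h3 ?_
  have hθ' : a + b * Real.cos (2 * θ) + c * Real.sin (2 * θ) ∈ N := by
    by_contra h
    exact hθ h
  have e : a + b * Real.cos (2 * θ) + c * Real.sin (2 * θ) =
      Real.sqrt (b ^ 2 + c ^ 2) * Real.cos (2 * θ + -t₀) + a := by
    rw [add_assoc, ht₀]
    ring_nf
  rw [e] at hθ'
  exact hθ'

/-- conversely, the image of the null set `{θ | f θ ∈ N}` under the differentiable function `f` is null, and it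
contains `N ∩ [-R,R]`, `R = √(b²+c²)` (if `R = 0` the set `N ∩ [0,0]` is null anyway) -/
theorem null_of_trig {N : Set ℝ} {b c : ℝ}
    (h : ∀ᵐ θ : ℝ, b * Real.cos (2 * θ) + c * Real.sin (2 * θ) ∉ N) :
    volume (N ∩ Icc (-Real.sqrt (b ^ 2 + c ^ 2)) (Real.sqrt (b ^ 2 + c ^ 2))) = 0 := by
  obtain ⟨t₀, ht₀⟩ := trig_aux_form b c
  set R := Real.sqrt (b ^ 2 + c ^ 2) with hRdef
  rcases (Real.sqrt_nonneg (b ^ 2 + c ^ 2)).eq_or_lt with h0 | hpos
  · have hR0 : R = 0 := h0.symm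
    refine measure_mono_null (t := {0}) (fun y hy => ?_) (by simp)
    have := hy.2
    rw [hR0, neg_zero, Icc_self] at this
    exact this
  · have hR : 0 < R := hpos
    set Z : Set ℝ := {θ : ℝ | ¬ b * Real.cos (2 * θ) + c * Real.sin (2 * θ) ∉ N} with hZ
    have hZ0 : volume Z = 0 := h
    have hd : DifferentiableOn ℝ (fun θ : ℝ => b * Real.cos (2 * θ) + c * Real.sin (2 * θ)) Z := by
      fun_prop
    have h1 := addHaar_image_eq_zero_of_differentiableOn_of_addHaar_eq_zero volume hd hZ0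
    refine measure_mono_null (fun y hy => ?_) h1
    have hy1 : -1 ≤ y / R := by rw [le_div_iff₀ hR]; linarith [hy.2.1]
    have hy2 : y / R ≤ 1 := by rw [div_le_iff₀ hR]; linarith [hy.2.2]
    have e : b * Real.cos (2 * ((Real.arccos (y / R) + t₀) / 2)) +
        c * Real.sin (2 * ((Real.arccos (y / R) + t₀) / 2)) = y := by
      rw [ht₀]
      have : 2 * ((Real.arccos (y / R) + t₀) / 2) - t₀ = Real.arccos (y / R) := by ring
      rw [this, Real.cos_arccos hy1 hy2]
      field_simp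
    refine ⟨(Real.arccos (y / R) + t₀) / 2, ?_, e⟩
    simp only [hZ, mem_ofPred_eq, not_not]
    rw [e]
    exact hy.1

end Pool.Agent.LibMS49
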