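import Pool.Agent.LibMS49.Axis
import Pool.Agent.LibMS49.Ae
import Pool.Agent.LibMS49.Trig
set_option autoImplicit false
namespace Pool.Agent.LibMS49
open MeasureTheory Metric Set Filter Topology

private theorem height_exists_perp {v : E3} (hv : ‖v‖ = 1) :
    ∃ w : E3, ‖w‖ = 1 ∧ (inner ℝ w v : ℝ) = 0 := by
  have h0 : ‖e0‖ = ‖v‖ := by
    rw [hv, EuclideanSpace.norm_eq, Fin.sum_univ_three]
    simp [e0]
  obtain ⟨g, hg, hgv⟩ := exists_rot h0
  refine ⟨rot g !₂[1, 0, 0], ?_, ?_⟩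
  · rw [norm_rot hg, EuclideanSpace.norm_eq, Fin.sum_univ_three]
    simp
  · rw [← hgv, inner_rot hg, PiLp.inner_apply, Fin.sum_univ_three]
    simp [e0]

/-- the coefficients of the height of `rot (q * ax w θ) v` -/
private theorem height_expand {u v w : E3} (hu : ‖u‖ = 1) (hv : ‖v‖ = 1) (hw : ‖w‖ = 1)
    (hwv : (inner ℝ w v : ℝ) = 0) {q : HH} (hq : q ≠ 0) :
    ∃ b c : ℝ, b ^ 2 + c ^ 2 = 1 - (inner ℝ u (rot q w) : ℝ) ^ 2 ∧
      ∀ θ : ℝ, (inner ℝ u (rot (q * ax w θ) v) : ℝ) =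
        b * Real.cos (2 * θ) + c * Real.sin (2 * θ) := by
  have hq' : q⁻¹ ≠ 0 := inv_ne_zero hq
  have h1 : ∀ z : E3, (inner ℝ u (rot q z) : ℝ) = inner ℝ (rot q⁻¹ u) z := by
    intro z
    have h2 : rot q (rot q⁻¹ u) = u := by
      have h3 := rot_inv_rot hq' u
      rwa [inv_inv] at h3
    calc (inner ℝ u (rot q z) : ℝ) = inner ℝ (rot q (rot q⁻¹ u)) (rot q z) := by rw [h2]
      _ = inner ℝ (rot q⁻¹ u) z := inner_rot hq _ _
  have hu' : ‖rot q⁻¹ u‖ = 1 := by rw [norm_rot hq', hu]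
  refine ⟨(inner ℝ (rot q⁻¹ u) (v - (0 : ℝ) • w) : ℝ), (inner ℝ (rot q⁻¹ u) (cr w v) : ℝ), ?_,
    fun θ => ?_⟩
  · have h2 := amplitude hu' hw hv
    rw [hwv] at h2
    rw [h2, h1]
    ring
  · rw [rot_mul, h1, height_formula hw θ, hwv]
    rw [zero_mul, zero_add]

private theorem height_abs_le {u v : E3} (hu : ‖u‖ = 1) (hv : ‖v‖ = 1) {q : HH} (hq : q ≠ 0) :
    |(inner ℝ u (rot q v) : ℝ)| ≤ 1 := by
  have h := abs_real_inner_le_norm u (rot q v)
  rw [norm_rot hq, hu, hv, one_mul] at h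
  exact h

private theorem height_measurable_pair (v : E3) :
    Measurable (fun q : HH => ((q, v) : HH × E3)) := measurable_prodMk_right

private theorem height_measurable_rot (v : E3) : Measurable (fun q : HH => rot q v) := by
  have h := Measurable.comp measurable_rot (height_measurable_pair v)
  exact h

private theorem height_measurable_inner (u : E3) : Measurable (fun z : E3 => (inner ℝ u z : ℝ)) :=
  (continuous_const.inner continuous_id).measurable

private theorem height_measurable (u v : E3) :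
    Measurable (fun q : HH => (inner ℝ u (rot q v) : ℝ)) := by
  have h := Measurable.comp (height_measurable_inner u) (height_measurable_rot v)
  exact h

/-- for unit vectors `u, v` and a.e. `q` the height `⟨u, rot q v⟩` is not `±1`.
`ae_of_ae_ae` with `g = ax w`, `w` a unit vector orthogonal to `v`: the height of `rot (q * ax w θ) v` is
`b cos 2θ + c sin 2θ` (`height_formula`, `rot_mul`, `inner_rot`); if `b = c = 0` it is `0`, otherwise `trig_null` -/
theorem height_ne {u v : E3} (hu : ‖u‖ = 1) (hv : ‖v‖ = 1) :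
    ∀ᵐ q : HH, |(inner ℝ u (rot q v) : ℝ)| < 1 := by
  obtain ⟨w, hw, hwv⟩ := height_exists_perp hv
  have hm : MeasurableSet {q : HH | |(inner ℝ u (rot q v) : ℝ)| < 1} :=
    measurableSet_lt (height_measurable u v).abs measurable_const
  refine ae_of_ae_ae hm (measurable_ax w) (ax_ne_zero hw) ?_
  filter_upwards [ae_ne_zero] with q hq
  obtain ⟨b, c, hbc, hf⟩ := height_expand hu hv hw hwv hq
  rcases eq_or_lt_of_le (show 0 ≤ b ^ 2 + c ^ 2 by positivity) with h0 | h0
  · have hb : b = 0 := by nlinarith [sq_nonneg b, sq_nonneg c]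
    have hc : c = 0 := by nlinarith [sq_nonneg b, sq_nonneg c]
    refine Eventually.of_forall (fun θ => ?_)
    rw [hf, hb, hc]
    simp
  · have hN : volume ({1, -1} : Set ℝ) = 0 := (Set.toFinite _).measure_zero _
    filter_upwards [trig_null (a := 0) hN h0] with θ hθ
    rw [zero_add, ← hf] at hθ
    refine lt_of_le_of_ne (height_abs_le hu hv (mul_ne_zero hq (ax_ne_zero hw θ))) (fun h => hθ ?_)
    rcases eq_or_eq_neg_of_abs_eq h with h1 | h1
    · rw [h1]; simp
    · rw [h1]; simp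

/-- the height has an absolutely continuous distribution.  WLOG `N` measurable (`toMeasurable`); `ae_of_ae_ae` with
`g = ax w`, `w ⟂ v` a unit vector: `⟨u, rot (q * ax w θ) v⟩ = b cos 2θ + c sin 2θ` with
`b² + c² = 1 - ⟨rot q⁻¹ u, w⟩² > 0` for a.e. `q` (`amplitude`, `height_ne`), then `trig_null` -/
theorem height_null {N : Set ℝ} (hN : volume N = 0) {u v : E3} (hu : ‖u‖ = 1) (hv : ‖v‖ = 1) :
    ∀ᵐ q : HH, (inner ℝ u (rot q v) : ℝ) ∉ N := by
  obtain ⟨w, hw, hwv⟩ := height_exists_perp hv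
  have hM0 : volume (toMeasurable volume N) = 0 := by rw [measure_toMeasurable, hN]
  have hm : MeasurableSet {q : HH | (inner ℝ u (rot q v) : ℝ) ∉ toMeasurable volume N} :=
    (height_measurable u v) (measurableSet_toMeasurable _ _).compl
  have hmain : ∀ᵐ q : HH, (inner ℝ u (rot q v) : ℝ) ∉ toMeasurable volume N := by
    refine ae_of_ae_ae hm (measurable_ax w) (ax_ne_zero hw) ?_
    filter_upwards [ae_ne_zero, height_ne hu hw] with q hq hq1
    obtain ⟨b, c, hbc, hf⟩ := height_expand hu hv hw hwv hq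
    have h0 : 0 < b ^ 2 + c ^ 2 := by
      rw [hbc, sub_pos]
      exact (sq_lt_one_iff_abs_lt_one _).2 hq1
    filter_upwards [trig_null (a := 0) hM0 h0] with θ hθ
    rw [zero_add, ← hf] at hθ
    exact hθ
  filter_upwards [hmain] with q hq h
  exact hq (subset_toMeasurable _ _ h)

/-- conversely, a set of heights which is avoided by a.e. `q` is null in `(-1,1)`.
`ae_ae_mul_right` with `g = ax w`, `w ⟂ v` unit: a.e. `q` satisfies the hypothesis of `null_of_trig` with
`b² + c² = 1 - ⟨u, rot q w⟩²`; the open set `{q ≠ 0 | |⟨u, rot q w⟩| < ε}` is nonempty (`exists_rot`), so it contains such a `q`;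
let `ε → 0` along a sequence -/
theorem null_of_height {N : Set ℝ} {u v : E3} (hu : ‖u‖ = 1) (hv : ‖v‖ = 1)
    (h : ∀ᵐ q : HH, (inner ℝ u (rot q v) : ℝ) ∉ N) : volume (N ∩ Ioo (-1) 1) = 0 := by
  obtain ⟨w, hw, hwv⟩ := height_exists_perp hv
  obtain ⟨w', hw', hwu⟩ := height_exists_perp hu
  obtain ⟨g, hg, hgw⟩ := exists_rot (hw.trans hw'.symm)
  have h1 := ae_ae_mul_right h (measurable_ax w) (ax_ne_zero hw)
  have hdense : Dense {q : HH | q ≠ 0 ∧ ∀ᵐ θ : ℝ, (inner ℝ u (rot (q * ax w θ) v) : ℝ) ∉ N} :=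
    Measure.dense_of_ae (μ := (volume : Measure HH)) (by
      filter_upwards [ae_ne_zero, h1] with q hq hq1
      exact ⟨hq, hq1⟩)
  have hcont : ContinuousAt (fun q : HH => (inner ℝ u (rot q w) : ℝ)) g :=
    continuousAt_const.inner (continuousAt_rot hg w)
  have hg0 : (inner ℝ u (rot g w) : ℝ) = 0 := by
    rw [hgw, real_inner_comm, hwu]
  have hstep : ∀ n : ℕ, volume (N ∩ Icc (-Real.sqrt (1 - (1 / ((n : ℝ) + 1)) ^ 2))
      (Real.sqrt (1 - (1 / ((n : ℝ) + 1)) ^ 2))) = 0 := by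
    intro n
    have hε : (0 : ℝ) < 1 / ((n : ℝ) + 1) := by positivity
    have hnhds : {q : HH | |(inner ℝ u (rot q w) : ℝ)| < 1 / ((n : ℝ) + 1)} ∈ 𝓝 g := by
      have h2 := hcont.abs
      have h3 : |(inner ℝ u (rot g w) : ℝ)| < 1 / ((n : ℝ) + 1) := by
        rw [hg0, abs_zero]
        exact hε
      exact h2.eventually_lt continuousAt_const h3
    obtain ⟨q, hq1, hq2⟩ := hdense.inter_nhds_nonempty hnhds
    obtain ⟨b, c, hbc, hf⟩ := height_expand hu hv hw hwv hq1.1
    have h4 : ∀ᵐ θ : ℝ, b * Real.cos (2 * θ) + c * Real.sin (2 * θ) ∉ N := by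
      filter_upwards [hq1.2] with θ hθ
      rwa [hf] at hθ
    refine measure_mono_null ?_ (null_of_trig h4)
    apply inter_subset_inter_right
    have h5 : Real.sqrt (1 - (1 / ((n : ℝ) + 1)) ^ 2) ≤ Real.sqrt (b ^ 2 + c ^ 2) := by
      apply Real.sqrt_le_sqrt
      rw [hbc]
      have h6 : (inner ℝ u (rot q w) : ℝ) ^ 2 ≤ (1 / ((n : ℝ) + 1)) ^ 2 := by
        rw [sq_le_sq, abs_of_pos hε]
        exact le_of_lt hq2
      linarith
    exact Icc_subset_Icc (by linarith) h5
  refine measure_mono_null ?_ (measure_iUnion_null hstep)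
  intro x hx
  have hx1 : |x| < 1 := abs_lt.2 hx.2
  have hx2 : 0 < 1 - x ^ 2 := by
    rw [sub_pos]
    exact (sq_lt_one_iff_abs_lt_one _).2 hx1
  obtain ⟨n, hn⟩ := exists_nat_one_div_lt hx2
  refine mem_iUnion.2 ⟨n, hx.1, ?_⟩
  have h7 : |x| ≤ Real.sqrt (1 - (1 / ((n : ℝ) + 1)) ^ 2) := by
    apply Real.abs_le_sqrt
    have h8 : (1 / ((n : ℝ) + 1)) ^ 2 ≤ 1 / ((n : ℝ) + 1) := by
      have h9 : 1 / ((n : ℝ) + 1) ≤ 1 := by
        rw [div_le_one (by positivity)]
        have : (0 : ℝ) ≤ n := Nat.cast_nonneg n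
        linarith
      have h10 : (0 : ℝ) ≤ 1 / ((n : ℝ) + 1) := by positivity
      nlinarith
    linarith
  exact abs_le.1 h7

end Pool.Agent.LibMS49
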