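import Pool.Agent.LibMS49.WildSphere
import Pool.Agent.LibMS49.DensN2
set_option autoImplicit false
namespace Pool.Agent.LibMS49
open MeasureTheory Metric Set Filter Topology

private theorem level1_e0 : ‖e0‖ = 1 := by
  simp [e0, EuclideanSpace.norm_eq, Fin.sum_univ_three]

private def level1_L : HH →ₗ[ℝ] ℝ where
  toFun q := q.re
  map_add' _ _ := rfl
  map_smul' _ _ := rfl

private theorem level1_re : volume {q : HH | q.re = 0} = 0 := by
  have h1 : LinearMap.ker level1_L ≠ ⊤ := by
    intro h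
    have h2 : (1 : HH) ∈ LinearMap.ker level1_L := by rw [h]; exact Submodule.mem_top
    rw [LinearMap.mem_ker] at h2
    have h3 : (1 : ℝ) = 0 := h2
    exact one_ne_zero h3
  have h2 := Measure.addHaar_submodule (volume : Measure HH) (LinearMap.ker level1_L) h1
  exact h2

private theorem level1_meas {A : Set E3} (hA : MeasurableSet A) :
    MeasurableSet {q : HH | rot q e0 ∈ A} :=
  (measurable_rot.comp (measurable_id.prodMk measurable_const)) hA

/-- the unit square on the unit sphere -/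
private theorem level1_square {A B : Set E3} (h : Cfg A B)
    (hA : ∀ᵐ q : HH, rot q e0 ∈ A) : False := by
  set x : E3 := !₂[1 / 2, 1 / 2, Real.sqrt (1 / 2)] with hx
  set a : E3 := !₂[-1, 0, 0] with ha
  set b : E3 := !₂[0, -1, 0] with hb
  have hs : Real.sqrt (1 / 2) ^ 2 = 1 / 2 := Real.sq_sqrt (by norm_num)
  have hn : ∀ s t : ℝ, s ^ 2 = 1 / 4 → t ^ 2 = 1 / 4 →
      ‖(!₂[s, t, Real.sqrt (1 / 2)] : E3)‖ = 1 := by
    intro s t h1 h2
    rw [EuclideanSpace.norm_eq, Real.sqrt_eq_one]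
    simp only [Fin.sum_univ_three, Real.norm_eq_abs, sq_abs]
    show s ^ 2 + t ^ 2 + Real.sqrt (1 / 2) ^ 2 = 1
    rw [h1, h2, hs]
    norm_num
  have hx1 : ‖x‖ = 1 := hn _ _ (by norm_num) (by norm_num)
  have hxa : ‖x + a‖ = 1 := by
    have : x + a = !₂[-1 / 2, 1 / 2, Real.sqrt (1 / 2)] := by
      ext i
      fin_cases i <;> simp [hx, ha]
      norm_num
    rw [this]
    exact hn _ _ (by norm_num) (by norm_num)
  have hxb : ‖x + b‖ = 1 := by
    have : x + b = !₂[1 / 2, -1 / 2, Real.sqrt (1 / 2)] := by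
      ext i
      fin_cases i <;> simp [hx, hb]
      norm_num
    rw [this]
    exact hn _ _ (by norm_num) (by norm_num)
  have hxab : ‖x + a + b‖ = 1 := by
    have : x + a + b = !₂[-1 / 2, -1 / 2, Real.sqrt (1 / 2)] := by
      ext i
      fin_cases i <;> simp [hx, ha, hb] <;> norm_num
    rw [this]
    exact hn _ _ (by norm_num) (by norm_num)
  have hna : ‖a‖ = 1 := by simp [ha, EuclideanSpace.norm_eq, Fin.sum_univ_three]
  have hnb : ‖b‖ = 1 := by simp [hb, EuclideanSpace.norm_eq, Fin.sum_univ_three]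
  have hab : inner ℝ a b = (0 : ℝ) := by
    simp [ha, hb, PiLp.inner_apply, Fin.sum_univ_three]
  have h1 := ae_rot_of_ae (x := e0) (y := x) (by rw [level1_e0, hx1]) hA
  have h2 := ae_rot_of_ae (x := e0) (y := x + a) (by rw [level1_e0, hxa]) hA
  have h3 := ae_rot_of_ae (x := e0) (y := x + b) (by rw [level1_e0, hxb]) hA
  have h4 := ae_rot_of_ae (x := e0) (y := x + a + b) (by rw [level1_e0, hxab]) hA
  have h5 : ∀ᵐ q : HH, q ≠ 0 ∧ rot q x ∈ A ∧ rot q (x + a) ∈ A ∧ rot q (x + b) ∈ A ∧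
      rot q (x + a + b) ∈ A := by
    filter_upwards [ae_ne_zero, h1, h2, h3, h4] with q e1 e2 e3 e4 e5
    exact ⟨e1, e2, e3, e4, e5⟩
  obtain ⟨q, hq, k1, k2, k3, k4⟩ := h5.exists
  rw [rot_add] at k2 k3
  rw [rot_add, rot_add] at k4
  exact h.h4A (rot q x) (rot q a) (rot q b) (by rw [norm_rot hq, hna]) (by rw [norm_rot hq, hnb])
    (by rw [inner_rot hq, hab]) k1 k2 k3 k4

private theorem level1_half {A B : Set E3} (h : Cfg A B)
    (hB : volume ({q : HH | 0 < q.re} ∩ {q : HH | rot q e0 ∈ B}) = 0) : False := by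
  refine level1_square h ?_
  have hneg : volume ((fun q : HH => (-1 : ℝ) • q) ⁻¹'
      ({q : HH | 0 < q.re} ∩ {q : HH | rot q e0 ∈ B})) = 0 := by
    rw [Measure.addHaar_preimage_smul volume (by norm_num : (-1 : ℝ) ≠ 0), hB, mul_zero]
  have hall : volume {q : HH | rot q e0 ∈ B} = 0 := by
    have hsub : {q : HH | rot q e0 ∈ B} ⊆ (({q : HH | 0 < q.re} ∩ {q : HH | rot q e0 ∈ B}) ∪
        ((fun q : HH => (-1 : ℝ) • q) ⁻¹' ({q : HH | 0 < q.re} ∩ {q : HH | rot q e0 ∈ B}))) ∪
        {q : HH | q.re = 0} := by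
      intro q hq
      rcases lt_trichotomy q.re 0 with hr | hr | hr
      · refine Or.inl (Or.inr ⟨?_, ?_⟩)
        · show 0 < ((-1 : ℝ) • q).re
          rw [neg_one_smul, Quaternion.re_neg]
          linarith
        · show rot ((-1 : ℝ) • q) e0 ∈ B
          rw [neg_one_smul, rot_neg]
          exact hq
      · exact Or.inr hr
      · exact Or.inl (Or.inl ⟨hr, hq⟩)
    exact measure_mono_null hsub (measure_union_null (measure_union_null hB hneg) level1_re)
  have hae : ∀ᵐ q : HH, rot q e0 ∉ B := by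
    rw [ae_iff]
    simpa using hall
  filter_upwards [h.full1, hae] with q e1 e2
  exact e1.resolve_right e2

/-- conclusion of the analysis on the sphere: `no_wild_sphere` and `dens_rot_iff`: every `q ≠ 0` is a density point of
`{q | rot q e0 ∈ A}` or `{q | rot q e0 ∈ B}`; `nested` for `U = {q | 0 < q.re}`; `rot_neg`: a.e. `q` has `rot q e0 ∈ A` (say); then a unit
square on the unit sphere (`x = (1/2, 1/2, 1/√2)`, ...) and `ae_rot_of_ae` contradict `h4A` -/
theorem level1 {A B : Set E3} (h : Cfg A B) : False := by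
  have hU : IsOpen {q : HH | 0 < q.re} := isOpen_lt continuous_const Quaternion.continuous_re
  have hUc : Convex ℝ {q : HH | 0 < q.re} := convex_halfSpace_gt (f := fun q : HH => q.re)
    ⟨fun _ _ => rfl, fun _ _ => rfl⟩ 0
  have hdisj : Disjoint {q : HH | rot q e0 ∈ A} {q : HH | rot q e0 ∈ B} := by
    rw [Set.disjoint_left]
    intro q h1 h2
    exact Set.disjoint_left.1 h.disj h1 h2
  have hfull : volume ({q : HH | 0 < q.re} \ ({q : HH | rot q e0 ∈ A} ∪ {q : HH | rot q e0 ∈ B})) =
      0 := by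
    have h1 : volume {q : HH | ¬ (rot q e0 ∈ A ∪ B)} = 0 := ae_iff.1 h.full1
    refine measure_mono_null ?_ h1
    intro q hq
    exact hq.2
  have hdens : ∀ q ∈ {q : HH | 0 < q.re}, Dens q {q : HH | rot q e0 ∈ A} ∨
      Dens q {q : HH | rot q e0 ∈ B} := by
    intro q hq
    have hq0 : q ≠ 0 := by
      rintro rfl
      exact lt_irrefl (0 : ℝ) hq
    rw [dens_rot_iff hq0, dens_rot_iff hq0]
    by_contra hcon
    push Not at hcon
    exact no_wild_sphere h (rot q e0) ⟨by rw [norm_rot hq0, level1_e0], hcon.1, hcon.2⟩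
  rcases nested hU hUc (level1_meas h.mA) (level1_meas h.mB) hdisj hfull hdens with h0 | h0
  · exact level1_half h.symm h0
  · exact level1_half h h0

end Pool.Agent.LibMS49
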