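import Pool.Agent.LibMS49.Cfg0
set_option autoImplicit false
namespace Pool.Agent.LibMS49
open MeasureTheory Metric Set Filter Topology

private theorem noNull_norm_corner {s t : ℝ} (hs : s ^ 2 = 1 / 4) (ht : t ^ 2 = 1 / 4) :
    ‖(!₂[s, t, 0] : E3)‖ ≤ 3 / 4 := by
  rw [EuclideanSpace.norm_eq]
  apply Real.sqrt_le_iff.2
  refine ⟨by norm_num, ?_⟩
  have e0 : ‖(!₂[s, t, 0] : E3) 0‖ ^ 2 = 1 / 4 := by
    rw [show (!₂[s, t, 0] : E3) 0 = s from rfl, Real.norm_eq_abs, sq_abs, hs]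
  have e1 : ‖(!₂[s, t, 0] : E3) 1‖ ^ 2 = 1 / 4 := by
    rw [show (!₂[s, t, 0] : E3) 1 = t from rfl, Real.norm_eq_abs, sq_abs, ht]
  have e2 : ‖(!₂[s, t, 0] : E3) 2‖ ^ 2 = 0 := by
    rw [show (!₂[s, t, 0] : E3) 2 = 0 from rfl, norm_zero]
    norm_num
  rw [Fin.sum_univ_three, e0, e1, e2]
  norm_num

/-- a square inside `ball x₀ 1` can be moved into `A` if `B` is null in `ball x₀ 1` (all four vertices are density points of `A`) -/
theorem no_null {x₀ : E3} {A B : Set E3} (h : Cfg0 x₀ A B) : volume (ball x₀ 1 ∩ B) ≠ 0 := by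
  intro hnull
  have hA : volume (ball x₀ 1 \ A) = 0 := by
    refine measure_mono_null (t := (ball x₀ 4 \ (A ∪ B)) ∪ (ball x₀ 1 ∩ B)) ?_
      (measure_union_null h.full hnull)
    intro x hx
    by_cases hxB : x ∈ B
    · exact Or.inr ⟨hx.1, hxB⟩
    · refine Or.inl ⟨ball_subset_ball (by norm_num) hx.1, ?_⟩
      rintro (h1 | h1)
      · exact hx.2 h1
      · exact hxB h1
  have hd : ∀ s t : ℝ, s ^ 2 = 1 / 4 → t ^ 2 = 1 / 4 → Dens (x₀ + !₂[s, t, 0]) A := by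
    intro s t hs ht
    refine dens_of_ball (r := 1 / 4) (by norm_num) (measure_mono_null ?_ hA)
    intro y hy
    refine ⟨?_, hy.2⟩
    have h1 : dist y (x₀ + !₂[s, t, 0]) < 1 / 4 := hy.1
    have h2 : dist (x₀ + !₂[s, t, 0]) x₀ ≤ 3 / 4 := by
      rw [dist_eq_norm, add_sub_cancel_left]
      exact noNull_norm_corner hs ht
    rw [mem_ball]
    calc dist y x₀ ≤ dist y (x₀ + !₂[s, t, 0]) + dist (x₀ + !₂[s, t, 0]) x₀ := dist_triangle _ _ _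
      _ < 1 / 4 + 3 / 4 := by linarith
      _ = 1 := by norm_num
  have q1 : ((1 / 2 : ℝ)) ^ 2 = 1 / 4 := by norm_num
  have q2 : ((-(1 / 2) : ℝ)) ^ 2 = 1 / 4 := by norm_num
  have d0 := hd (-(1 / 2)) (-(1 / 2)) q2 q2
  have d1 := hd (1 / 2) (-(1 / 2)) q1 q2
  have d2 := hd (-(1 / 2)) (1 / 2) q2 q1
  have d3 := hd (1 / 2) (1 / 2) q1 q1
  obtain ⟨t, h0, h1, h2, h3⟩ := translate (fun hB => d0.not_disjoint hB h.disj)
    (d0.mono subset_union_left) d1 d2 d3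
  have e1 : x₀ + !₂[1 / 2, -(1 / 2), 0] + t = (x₀ + !₂[-(1 / 2), -(1 / 2), 0] + t) + !₂[1, 0, 0] := by
    ext i
    fin_cases i <;> simp <;> ring
  have e2 : x₀ + !₂[-(1 / 2), 1 / 2, 0] + t = (x₀ + !₂[-(1 / 2), -(1 / 2), 0] + t) + !₂[0, 1, 0] := by
    ext i
    fin_cases i <;> simp <;> ring
  have e3 : x₀ + !₂[1 / 2, 1 / 2, 0] + t =
      (x₀ + !₂[-(1 / 2), -(1 / 2), 0] + t) + !₂[1, 0, 0] + !₂[0, 1, 0] := by
    ext i
    fin_cases i <;> simp <;> ring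
  rw [e1] at h1
  rw [e2] at h2
  rw [e3] at h3
  refine h.nA _ _ _ ?_ ?_ ?_ h0 h1 h2 h3
  · rw [EuclideanSpace.norm_eq, Fin.sum_univ_three]
    simp
  · rw [EuclideanSpace.norm_eq, Fin.sum_univ_three]
    simp
  · rw [PiLp.inner_apply, Fin.sum_univ_three]
    simp

end Pool.Agent.LibMS49
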