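import Pool.Agent.LibMS49.WildPoint
import Pool.Agent.LibMS49.NoNull
import Pool.Agent.LibMS49.DensN2
set_option autoImplicit false
namespace Pool.Agent.LibMS49
open MeasureTheory Metric Set Filter Topology

theorem main0 {x₀ : E3} {A B : Set E3} (h : Cfg0 x₀ A B) : False := by
  have hfull : volume (ball x₀ 1 \ (A ∪ B)) = 0 :=
    measure_mono_null (sdiff_subset_sdiff_left (ball_subset_ball (by norm_num))) h.full
  rcases nested isOpen_ball (convex_ball x₀ 1) h.mA h.mB h.disj hfull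
    (fun x hx => no_wild_point h x hx) with h1 | h1
  · exact no_null h.symm h1
  · exact no_null h h1

private theorem fin2_eq {i u v : Fin 2} (hu : u ≠ i) (hv : v ≠ i) : u = v := by
  revert i u v
  decide

/-- MAIN THEOREM -/
theorem measurable_square (f : E3 → Fin 2) (x₀ : E3) (i : Fin 2)
    (hf : NullMeasurableSet (f ⁻¹' {i} ∩ ball x₀ 4) volume) (N : Set E3) (hN : volume N = 0) :
    ∃ p q s : E3, ‖q - p‖ = 1 ∧ ‖s - p‖ = 1 ∧ inner ℝ (q - p) (s - p) = (0 : ℝ) ∧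
      f q = f p ∧ f s = f p ∧ f (q + s - p) = f p ∧
      ∀ x ∈ ({p, q, s, q + s - p} : Set E3), x ∈ ball x₀ 4 ∧ x ∉ N := by
  by_contra hcon
  push Not at hcon
  have hg : NullMeasurableSet (ball x₀ 4 \ (f ⁻¹' {i} ∩ ball x₀ 4)) volume :=
    measurableSet_ball.nullMeasurableSet.diff hf
  obtain ⟨A, hA1, hA2, hA3⟩ := hf.exists_measurable_subset_ae_eq
  obtain ⟨B, hB1, hB2, hB3⟩ := hg.exists_measurable_subset_ae_eq
  set M : Set E3 := toMeasurable volume N with hM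
  have hMm : MeasurableSet M := measurableSet_toMeasurable _ _
  have hM0 : volume M = 0 := by rw [hM, measure_toMeasurable, hN]
  have hNM : N ⊆ M := subset_toMeasurable _ _
  have hsub : ∀ x a b : E3, x + a + b = (x + a) + (x + b) - x := by
    intro x a b
    abel
  have key : ∀ x a b : E3, ‖a‖ = 1 → ‖b‖ = 1 → inner ℝ a b = (0 : ℝ) →
      f (x + a) = f x → f (x + b) = f x → f (x + a + b) = f x →
      x ∈ ball x₀ 4 ∧ x ∉ N → x + a ∈ ball x₀ 4 ∧ x + a ∉ N → x + b ∈ ball x₀ 4 ∧ x + b ∉ N →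
      x + a + b ∈ ball x₀ 4 ∧ x + a + b ∉ N → False := by
    intro x a b ha hb hab h1 h2 h3 g0 g1 g2 g3
    obtain ⟨y, hy, hyN⟩ := hcon x (x + a) (x + b) (by rw [add_sub_cancel_left]; exact ha)
      (by rw [add_sub_cancel_left]; exact hb)
      (by rw [add_sub_cancel_left, add_sub_cancel_left]; exact hab) h1 h2
      (by rw [← hsub]; exact h3)
    rw [← hsub] at hy
    rcases hy with rfl | rfl | rfl | rfl
    · exact g0.2 (hyN g0.1)
    · exact g1.2 (hyN g1.1)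
    · exact g2.2 (hyN g2.1)
    · exact g3.2 (hyN g3.1)
  have hAm : ∀ x ∈ A \ M, f x = i ∧ x ∈ ball x₀ 4 ∧ x ∉ N := fun x hx =>
    ⟨(hA1 hx.1).1, (hA1 hx.1).2, fun h => hx.2 (hNM h)⟩
  have hBm : ∀ x ∈ B \ M, f x ≠ i ∧ x ∈ ball x₀ 4 ∧ x ∉ N := fun x hx =>
    ⟨fun h => (hB1 hx.1).2 ⟨h, (hB1 hx.1).1⟩, (hB1 hx.1).1, fun h => hx.2 (hNM h)⟩
  refine main0 (x₀ := x₀) (A := A \ M) (B := B \ M) ⟨hA2.diff hMm, hB2.diff hMm, ?_, ?_, ?_, ?_⟩
  · rw [Set.disjoint_left]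
    intro x hx hx'
    exact (hBm x hx').1 (hAm x hx).1
  · have h1 : volume ((f ⁻¹' {i} ∩ ball x₀ 4) \ A) = 0 := ae_le_set.1 hA3.symm.le
    have h2 : volume ((ball x₀ 4 \ (f ⁻¹' {i} ∩ ball x₀ 4)) \ B) = 0 := ae_le_set.1 hB3.symm.le
    refine measure_mono_null ?_ (measure_union_null hM0 (measure_union_null h1 h2))
    intro x hx
    by_cases hxM : x ∈ M
    · exact Or.inl hxM
    · refine Or.inr ?_
      by_cases hxi : f x = i
      · exact Or.inl ⟨⟨hxi, hx.1⟩, fun h => hx.2 (Or.inl ⟨h, hxM⟩)⟩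
      · exact Or.inr ⟨⟨hx.1, fun h => hxi h.1⟩, fun h => hx.2 (Or.inr ⟨h, hxM⟩)⟩
  · intro x a b ha hb hab g0 g1 g2 g3
    have k0 := hAm _ g0
    have k1 := hAm _ g1
    have k2 := hAm _ g2
    have k3 := hAm _ g3
    exact key x a b ha hb hab (k1.1.trans k0.1.symm) (k2.1.trans k0.1.symm)
      (k3.1.trans k0.1.symm) k0.2 k1.2 k2.2 k3.2
  · intro x a b ha hb hab g0 g1 g2 g3
    have k0 := hBm _ g0
    have k1 := hBm _ g1
    have k2 := hBm _ g2
    have k3 := hBm _ g3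
    exact key x a b ha hb hab (fin2_eq k1.1 k0.1) (fin2_eq k2.1 k0.1)
      (fin2_eq k3.1 k0.1) k0.2 k1.2 k2.2 k3.2

end Pool.Agent.LibMS49
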