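import Pool.Agent.LibMS49.Main
set_option autoImplicit false
namespace Pool.Agent.LibMS49
open MeasureTheory Metric Set Filter Topology

/-- density version of `main0` -/
theorem dens_square {x₀ : E3} {A B : Set E3} (mA : MeasurableSet A) (mB : MeasurableSet B)
    (hd : Disjoint A B) (hfull : volume (ball x₀ 4 \ (A ∪ B)) = 0) :
    ∃ x a b : E3, ‖a‖ = 1 ∧ ‖b‖ = 1 ∧ inner ℝ a b = (0 : ℝ) ∧
      ((Dens x A ∧ Dens (x + a) A ∧ Dens (x + b) A ∧ Dens (x + a + b) A) ∨
        (Dens x B ∧ Dens (x + a) B ∧ Dens (x + b) B ∧ Dens (x + a + b) B)) := by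
  by_contra hcon
  push Not at hcon
  have hmeas : ∀ E : Set E3, MeasurableSet E → MeasurableSet {x : E3 | Dens x E} := by
    intro E hE
    exact measurableSet_dens (X := E3) (S := {p : E3 × E3 | p.2 ∈ E}) (measurable_snd hE)
      (φ := fun x => x) measurable_id
  refine main0 (x₀ := x₀) (A := {x | Dens x A}) (B := {x | Dens x B})
    ⟨hmeas A mA, hmeas B mB, ?_, ?_, ?_, ?_⟩
  · rw [Set.disjoint_left]
    intro x hx hx'
    exact Dens.not_disjoint hx hx' hd
  · have h1 := ae_dens (V := E3) mA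
    have h2 := ae_dens (V := E3) mB
    rw [ae_iff] at h1 h2
    refine measure_mono_null ?_ (measure_union_null hfull (measure_union_null h1 h2))
    rintro x ⟨hx, hx'⟩
    by_cases hA : x ∈ A
    · refine Or.inr (Or.inl ?_)
      intro h
      exact hx' (Or.inl (h hA))
    · by_cases hB : x ∈ B
      · refine Or.inr (Or.inr ?_)
        intro h
        exact hx' (Or.inr (h hB))
      · exact Or.inl ⟨hx, fun h => h.elim hA hB⟩
  · intro x a b ha hb hab h0 h1 h2 h3
    exact (hcon x a b ha hb hab).1 h0 h1 h2 h3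
  · intro x a b ha hb hab h0 h1 h2 h3
    exact (hcon x a b ha hb hab).2 h0 h1 h2 h3

/-- four density points: all nearby four-tuples have a positive volume of translates in `A` -/
theorem pos_of_dens {A : Set E3} {y : Fin 4 → E3} (h : ∀ i, Dens (y i) A) :
    ∃ ε > 0, ∀ y' : Fin 4 → E3, (∀ i, dist (y' i) (y i) < ε) →
      0 < volume {t : E3 | ∀ i, y' i + t ∈ A} := by
  have h1 : ∀ᶠ r in 𝓝[>] (0 : ℝ), ∀ i, volume (closedBall (y i) r \ A) /
      volume (closedBall (y i) r) < 1 / 64 := by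
    rw [Filter.eventually_all]
    intro i
    exact (h i).eventually_lt_const (by norm_num)
  obtain ⟨r, hr1, hr0⟩ := (h1.and self_mem_nhdsWithin).exists
  have hr0 : (0 : ℝ) < r := hr0
  refine ⟨r / 2, by positivity, fun y' hy' => ?_⟩
  set K : ENNReal := volume (closedBall (0 : E3) (r / 2)) with hK
  have hKpos : 0 < K := measure_closedBall_pos _ _ (by positivity)
  have hKtop : K ≠ ⊤ := measure_closedBall_lt_top.ne
  have hball : ∀ x : E3, volume (closedBall x r) = 8 * K := by
    intro x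
    rw [hK, Measure.addHaar_closedBall _ _ hr0.le, Measure.addHaar_closedBall _ _ (by positivity)]
    have hf : Module.finrank ℝ E3 = 3 := by simp
    rw [hf, ← mul_assoc]
    congr 1
    have : (8 : ENNReal) = ENNReal.ofReal 8 := by norm_num
    rw [this, ← ENNReal.ofReal_mul (by norm_num)]
    congr 1
    ring
  have hbad : ∀ i, volume {t ∈ closedBall (0 : E3) (r / 2) | y' i + t ∉ A} ≤ K / 8 := by
    intro i
    have hsub : {t ∈ closedBall (0 : E3) (r / 2) | y' i + t ∉ A} ⊆
        (fun t => y' i + t) ⁻¹' (closedBall (y i) r \ A) := by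
      rintro t ⟨ht, htA⟩
      refine ⟨?_, htA⟩
      rw [mem_closedBall, dist_zero_right] at ht
      rw [mem_closedBall]
      have hd := hy' i
      calc dist (y' i + t) (y i) ≤ dist (y' i + t) (y' i) + dist (y' i) (y i) := dist_triangle _ _ _
        _ ≤ r / 2 + r / 2 := by
            have : dist (y' i + t) (y' i) = ‖t‖ := by rw [dist_eq_norm, add_sub_cancel_left]
            rw [this]
            linarith
        _ = r := by ring
    refine (measure_mono hsub).trans ?_
    rw [measure_preimage_add]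
    have h2 := hr1 i
    rw [hball (y i)] at h2
    have h3 : volume (closedBall (y i) r \ A) < 1 / 64 * (8 * K) :=
      (ENNReal.div_lt_iff (Or.inl (by positivity)) (Or.inl (ENNReal.mul_ne_top (by norm_num) hKtop))).1 h2
    refine h3.le.trans (le_of_eq ?_)
    have e : (64 : ENNReal) = 8 * 8 := by norm_num
    rw [one_div, e, ENNReal.mul_inv (Or.inl (by norm_num)) (Or.inl (by norm_num)), mul_assoc,
      ← mul_assoc (8 : ENNReal)⁻¹ 8 K, ENNReal.inv_mul_cancel (by norm_num) (by norm_num), one_mul,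
      ENNReal.div_eq_inv_mul]
  by_contra hcon
  have hcon : volume {t : E3 | ∀ i, y' i + t ∈ A} = 0 := by
    simpa using hcon
  have hcov : closedBall (0 : E3) (r / 2) ⊆ {t : E3 | ∀ i, y' i + t ∈ A} ∪
      ⋃ i, {t ∈ closedBall (0 : E3) (r / 2) | y' i + t ∉ A} := by
    intro t ht
    by_cases hall : ∀ i, y' i + t ∈ A
    · exact Or.inl hall
    · push Not at hall
      obtain ⟨i, hi⟩ := hall
      exact Or.inr (mem_iUnion.2 ⟨i, ht, hi⟩)
  have h4 : K ≤ K / 2 := by
    calc K ≤ volume ({t : E3 | ∀ i, y' i + t ∈ A} ∪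
          ⋃ i, {t ∈ closedBall (0 : E3) (r / 2) | y' i + t ∉ A}) := measure_mono hcov
      _ ≤ volume {t : E3 | ∀ i, y' i + t ∈ A} +
          volume (⋃ i, {t ∈ closedBall (0 : E3) (r / 2) | y' i + t ∉ A}) := measure_union_le _ _
      _ ≤ 0 + ∑ i : Fin 4, volume {t ∈ closedBall (0 : E3) (r / 2) | y' i + t ∉ A} := by
          rw [hcon]
          gcongr
          exact measure_iUnion_fintype_le _ _
      _ ≤ 0 + ∑ _i : Fin 4, K / 8 := by
          gcongr with i
          exact hbad i
      _ = K / 2 := by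
          rw [zero_add, Finset.sum_const, Finset.card_univ, Fintype.card_fin, nsmul_eq_mul]
          rw [ENNReal.div_eq_inv_mul, ENNReal.div_eq_inv_mul, ← mul_assoc]
          congr 1
          have e : (8 : ENNReal) = 4 * 2 := by norm_num
          rw [e, ENNReal.mul_inv (Or.inl (by norm_num)) (Or.inl (by norm_num)), ← mul_assoc]
          push_cast
          rw [ENNReal.mul_inv_cancel (by norm_num) (by norm_num), one_mul]
  have h5 := ENNReal.half_lt_self hKpos.ne' hKtop
  exact absurd h4 (not_le.2 h5)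

private theorem fin2_eq' {i u v : Fin 2} (hu : u ≠ i) (hv : v ≠ i) : u = v := by
  revert i u v
  decide

theorem measurable_square_pos (f : E3 → Fin 2) (x₀ : E3) (i : Fin 2)
    (hf : NullMeasurableSet (f ⁻¹' {i} ∩ ball x₀ 4) volume) :
    ∃ u v : E3, ‖u‖ = 1 ∧ ‖v‖ = 1 ∧ inner ℝ u v = (0 : ℝ) ∧ ∃ ε > 0, ∀ u' v' : E3,
      dist u' u < ε → dist v' v < ε →
      0 < volume {p : E3 | ∀ x ∈ ({p, p + u', p + v', p + u' + v'} : Set E3),
        x ∈ ball x₀ 4 ∧ f x = f p} := by
  have hg : NullMeasurableSet (ball x₀ 4 \ (f ⁻¹' {i} ∩ ball x₀ 4)) volume :=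
    measurableSet_ball.nullMeasurableSet.diff hf
  obtain ⟨A, hA1, hA2, hA3⟩ := hf.exists_measurable_subset_ae_eq
  obtain ⟨B, hB1, hB2, hB3⟩ := hg.exists_measurable_subset_ae_eq
  have hAm : ∀ x ∈ A, f x = i ∧ x ∈ ball x₀ 4 := fun x hx => ⟨(hA1 hx).1, (hA1 hx).2⟩
  have hBm : ∀ x ∈ B, f x ≠ i ∧ x ∈ ball x₀ 4 := fun x hx =>
    ⟨fun h => (hB1 hx).2 ⟨h, (hB1 hx).1⟩, (hB1 hx).1⟩
  have hAB : Disjoint A B := by
    rw [Set.disjoint_left]
    intro x hx hx'
    exact (hBm x hx').1 (hAm x hx).1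
  have hfull : volume (ball x₀ 4 \ (A ∪ B)) = 0 := by
    have h1 : volume ((f ⁻¹' {i} ∩ ball x₀ 4) \ A) = 0 := ae_le_set.1 hA3.symm.le
    have h2 : volume ((ball x₀ 4 \ (f ⁻¹' {i} ∩ ball x₀ 4)) \ B) = 0 := ae_le_set.1 hB3.symm.le
    refine measure_mono_null ?_ (measure_union_null h1 h2)
    intro x hx
    by_cases hxi : f x = i
    · exact Or.inl ⟨⟨hxi, hx.1⟩, fun h => hx.2 (Or.inl h)⟩
    · exact Or.inr ⟨⟨hx.1, fun h => hxi h.1⟩, fun h => hx.2 (Or.inr h)⟩
  obtain ⟨x, a, b, ha, hb, hab, hD⟩ := dens_square hA2 hB2 hAB hfull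
  have key : ∀ C : Set E3, (∀ x ∈ C, ∀ y ∈ C, f x = f y) → (∀ x ∈ C, x ∈ ball x₀ 4) →
      Dens x C → Dens (x + a) C → Dens (x + b) C → Dens (x + a + b) C →
      ∃ ε > 0, ∀ u' v' : E3, dist u' a < ε → dist v' b < ε →
      0 < volume {p : E3 | ∀ y ∈ ({p, p + u', p + v', p + u' + v'} : Set E3),
        y ∈ ball x₀ 4 ∧ f y = f p} := by
    intro C hC hCb d0 d1 d2 d3
    obtain ⟨ε, hε, hpos⟩ := pos_of_dens (A := C) (y := ![x, x + a, x + b, x + a + b])
      (by
        intro i
        fin_cases i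
        · exact d0
        · exact d1
        · exact d2
        · exact d3)
    refine ⟨ε / 2, by positivity, fun u' v' hu' hv' => ?_⟩
    have h1 := hpos ![x, x + u', x + v', x + u' + v'] (by
      have e : ∀ p q r : E3, dist (p + q) (p + r) = dist q r := fun p q r => dist_add_left p q r
      intro i
      fin_cases i
      · change dist x x < ε
        rw [dist_self]
        exact hε
      · change dist (x + u') (x + a) < ε
        rw [e]; linarith
      · change dist (x + v') (x + b) < ε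
        rw [e]; linarith
      · change dist (x + u' + v') (x + a + b) < ε
        rw [add_assoc, add_assoc, e]
        have := dist_add_add_le u' v' a b
        linarith)
    refine lt_of_lt_of_le h1 ?_
    have h2 : {t : E3 | ∀ i : Fin 4, (![x, x + u', x + v', x + u' + v'] : Fin 4 → E3) i + t ∈ C} ⊆
        (fun t => x + t) ⁻¹' {p : E3 | ∀ y ∈ ({p, p + u', p + v', p + u' + v'} : Set E3),
          y ∈ ball x₀ 4 ∧ f y = f p} := by
      intro t ht
      have t0 : x + t ∈ C := ht 0
      have t1 : x + u' + t ∈ C := ht 1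
      have t2 : x + v' + t ∈ C := ht 2
      have t3 : x + u' + v' + t ∈ C := ht 3
      rw [add_right_comm] at t1 t2
      have t3' : x + t + u' + v' ∈ C := by
        have : x + t + u' + v' = x + u' + v' + t := by abel
        rw [this]; exact t3
      intro y hy
      rcases hy with rfl | rfl | rfl | rfl
      · exact ⟨hCb _ t0, hC _ t0 _ t0⟩
      · exact ⟨hCb _ t1, hC _ t1 _ t0⟩
      · exact ⟨hCb _ t2, hC _ t2 _ t0⟩
      · exact ⟨hCb _ t3', hC _ t3' _ t0⟩
    refine (measure_mono h2).trans ?_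
    rw [measure_preimage_add]
  refine ⟨a, b, ha, hb, hab, ?_⟩
  rcases hD with ⟨d0, d1, d2, d3⟩ | ⟨d0, d1, d2, d3⟩
  · exact key A (fun p hp q hq => (hAm p hp).1.trans (hAm q hq).1.symm) (fun p hp => (hAm p hp).2)
      d0 d1 d2 d3
  · exact key B (fun p hp q hq => fin2_eq' (hBm p hp).1 (hBm q hq).1) (fun p hp => (hBm p hp).2)
      d0 d1 d2 d3

end Pool.Agent.LibMS49
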