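import Pool.Agent.LibMS49.Defs
set_option autoImplicit false
namespace Pool.Agent.LibMS49
open MeasureTheory Metric Set Filter Topology

theorem rot_aux_inv (q : HH) : q⁻¹ = (Quaternion.normSq q)⁻¹ • star q := rfl

/-- the real part of `q * im x * q⁻¹` is zero -/
theorem im_rot (q : HH) (x : E3) : im (rot q x) = q * im x * q⁻¹ := by
  have h : (q * im x * q⁻¹).re = 0 := by
    rw [rot_aux_inv, mul_smul_comm, Quaternion.re_smul]
    have : (q * im x * star q).re = 0 := by
      simp only [Quaternion.re_mul, Quaternion.imI_mul, Quaternion.imJ_mul, Quaternion.imK_mul, im,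
        Quaternion.re_star, Quaternion.imI_star, Quaternion.imJ_star, Quaternion.imK_star]
      ring
    rw [this, smul_zero]
  ext
  · exact h.symm
  · simp [im, rot, co]
  · simp [im, rot, co]
  · simp [im, rot, co]

theorem im_inj {x y : E3} (h : im x = im y) : x = y := by
  have h1 : x 0 = y 0 := congrArg (fun q : HH => q.imI) h
  have h2 : x 1 = y 1 := congrArg (fun q : HH => q.imJ) h
  have h3 : x 2 = y 2 := congrArg (fun q : HH => q.imK) h
  ext i
  fin_cases i
  · exact h1
  · exact h2
  · exact h3

theorem im_add (x y : E3) : im (x + y) = im x + im y := by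
  ext <;> simp [im]

theorem im_smul (c : ℝ) (x : E3) : im (c • x) = c • im x := by
  ext <;> simp [im]

theorem norm_im (x : E3) : ‖im x‖ = ‖x‖ := by
  have h1 : ‖im x‖ ^ 2 = ‖x‖ ^ 2 := by
    rw [sq, ← Quaternion.normSq_eq_norm_mul_self, EuclideanSpace.norm_sq_eq, Quaternion.normSq_def',
      Fin.sum_univ_three]
    simp [im]
  exact (sq_eq_sq₀ (norm_nonneg _) (norm_nonneg _)).1 h1

theorem rot_mul (q r : HH) (x : E3) : rot (q * r) x = rot q (rot r x) := by
  apply im_inj
  rw [im_rot, im_rot, im_rot, mul_inv_rev]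
  simp only [mul_assoc]

theorem rot_one (x : E3) : rot 1 x = x := by
  apply im_inj
  rw [im_rot]
  simp

theorem rot_add (q : HH) (x y : E3) : rot q (x + y) = rot q x + rot q y := by
  apply im_inj
  rw [im_rot, im_add, im_add, im_rot, im_rot, mul_add, add_mul]

theorem rot_smul (q : HH) (c : ℝ) (x : E3) : rot q (c • x) = c • rot q x := by
  apply im_inj
  rw [im_rot, im_smul, im_smul, im_rot, mul_smul_comm, smul_mul_assoc]

theorem rot_neg (q : HH) (x : E3) : rot (-q) x = rot q x := by
  apply im_inj
  rw [im_rot, im_rot, inv_neg]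
  simp

theorem norm_rot {q : HH} (hq : q ≠ 0) (x : E3) : ‖rot q x‖ = ‖x‖ := by
  rw [← norm_im, im_rot, norm_mul, norm_mul, norm_inv, norm_im]
  have : ‖q‖ ≠ 0 := norm_ne_zero_iff.2 hq
  field_simp

/-- polarisation from `norm_rot` and `rot_add` -/
theorem inner_rot {q : HH} (hq : q ≠ 0) (x y : E3) :
    inner ℝ (rot q x) (rot q y) = inner ℝ x y := by
  rw [real_inner_eq_norm_add_mul_self_sub_norm_mul_self_sub_norm_mul_self_div_two,
    real_inner_eq_norm_add_mul_self_sub_norm_mul_self_sub_norm_mul_self_div_two, ← rot_add,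
    norm_rot hq, norm_rot hq, norm_rot hq]

theorem rot_inv_rot {q : HH} (hq : q ≠ 0) (x : E3) : rot q⁻¹ (rot q x) = x := by
  rw [← rot_mul, inv_mul_cancel₀ hq, rot_one]

/-- transitivity on spheres.  For unit vectors with `y ≠ -x` take `g = 1 - im y * im x`-type quaternion
(`g * im x = im y * g` for `g = 1 - im y * im x`... check signs), for `y = -x` take `im` of a unit vector orthogonal to `x`;
general case by scaling (`x = 0` trivial) -/
theorem exists_rot {x y : E3} (h : ‖x‖ = ‖y‖) : ∃ g : HH, g ≠ 0 ∧ rot g x = y := by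
  by_cases hx : x = 0
  · have hy : y = 0 := by
      rw [hx, norm_zero] at h
      exact norm_eq_zero.1 h.symm
    exact ⟨1, one_ne_zero, by rw [hx, hy, rot_one]⟩
  have hsq : ∀ z : E3, im z * im z = (-(‖z‖ ^ 2) : ℝ) • (1 : HH) := by
    intro z
    have hz : ‖z‖ ^ 2 = z 0 ^ 2 + z 1 ^ 2 + z 2 ^ 2 := by
      rw [EuclideanSpace.norm_sq_eq, Fin.sum_univ_three]
      simp
    rw [hz]
    have e0 : (1 : HH).re = 1 := rfl
    have e1 : (1 : HH).imI = 0 := rfl
    have e2 : (1 : HH).imJ = 0 := rfl
    have e3 : (1 : HH).imK = 0 := rfl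
    ext
    · simp [im, e0]; ring
    · simp [im, e1]; ring
    · simp [im, e2]; ring
    · simp [im, e3]; ring
  by_cases hxy : y = -x
  · -- a pure quaternion orthogonal to x
    have key : ∃ u : E3, u ≠ 0 ∧ im u * im x = -(im x * im u) := by
      by_cases h0 : x 0 = 0 ∧ x 1 = 0
      · refine ⟨!₂[1, 0, 0], ?_, ?_⟩
        · intro hu
          have := congrArg (fun z : E3 => z 0) hu
          simp at this
        · ext
          · simp [im, h0.1, h0.2]
          · simp [im, h0.1, h0.2]
          · simp [im, h0.1, h0.2]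
          · simp [im, h0.1, h0.2]
      · refine ⟨!₂[-x 1, x 0, 0], ?_, ?_⟩
        · intro hu
          have h1 := congrArg (fun z : E3 => z 0) hu
          have h2 := congrArg (fun z : E3 => z 1) hu
          simp at h1 h2
          exact h0 ⟨h2, h1⟩
        · ext
          · simp [im]; try ring
          · simp [im]; try ring
          · simp [im]; try ring
          · simp [im]; try ring
    obtain ⟨u, hu, hux⟩ := key
    have hu0 : im u ≠ 0 := by
      rw [← norm_ne_zero_iff, norm_im]
      exact norm_ne_zero_iff.2 hu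
    refine ⟨im u, hu0, ?_⟩
    apply im_inj
    have e : im y = -im x := by
      have : y = (-1 : ℝ) • x := by rw [hxy]; simp
      rw [this, im_smul]; simp
    rw [im_rot, hux, e, neg_mul, mul_assoc, mul_inv_cancel₀ hu0, mul_one]
  · set g : HH := (‖x‖ ^ 2 : ℝ) • (1 : HH) - im y * im x with hg
    have hga : g * im x = im y * g := by
      rw [hg, sub_mul, mul_sub, mul_assoc, hsq x, ← mul_assoc, hsq y, ← h]
      simp only [smul_mul_assoc, mul_smul_comm, one_mul, mul_one]
      module
    have hg0 : g ≠ 0 := by
      intro h0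
      have h1 : im y * im x = (‖x‖ ^ 2 : ℝ) • (1 : HH) := (sub_eq_zero.1 h0).symm
      have h2 : im y * im x * im x = (‖x‖ ^ 2 : ℝ) • im x := by
        rw [h1, smul_mul_assoc, one_mul]
      rw [mul_assoc, hsq x, mul_smul_comm, mul_one] at h2
      have hxn : (‖x‖ ^ 2 : ℝ) ≠ 0 := by
        have := norm_ne_zero_iff.2 hx
        positivity
      have h3 : im y = -im x := by
        have h4 : (‖x‖ ^ 2 : ℝ) • im y = (‖x‖ ^ 2 : ℝ) • (-im x) := by
          rw [smul_neg, ← h2]; simp
        exact smul_right_injective HH hxn h4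
      apply hxy
      apply im_inj
      have : -x = (-1 : ℝ) • x := by simp
      rw [h3, this, im_smul]; simp
    refine ⟨g, hg0, ?_⟩
    apply im_inj
    rw [im_rot, hga, mul_assoc, mul_inv_cancel₀ hg0, mul_one]

theorem rot_aux_re : Continuous fun q : HH => q.re := Quaternion.continuous_re
theorem rot_aux_imI : Continuous fun q : HH => q.imI := Quaternion.continuous_imI
theorem rot_aux_imJ : Continuous fun q : HH => q.imJ := Quaternion.continuous_imJ
theorem rot_aux_imK : Continuous fun q : HH => q.imK := Quaternion.continuous_imK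

theorem rot_aux_co : Continuous co := by
  unfold co
  refine (PiLp.continuous_toLp 2 _).comp (continuous_pi fun i => ?_)
  fin_cases i
  · exact rot_aux_imI
  · exact rot_aux_imJ
  · exact rot_aux_imK

theorem rot_aux_im : Continuous im := by
  have hadd : ∀ x y : E3, im (x + y) = im x + im y := im_add
  let L : E3 →ₗ[ℝ] HH := ⟨⟨im, im_add⟩, im_smul⟩
  exact L.continuous_of_finiteDimensional

/-- joint measurability (off `q = 0` the map is continuous; `inv` is measurable on `HH`) -/
theorem measurable_rot : Measurable (fun p : HH × E3 => rot p.1 p.2) := by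
  unfold rot
  refine rot_aux_co.measurable.comp ?_
  exact (measurable_fst.mul (rot_aux_im.measurable.comp measurable_snd)).mul measurable_fst.inv

theorem continuousAt_rot {q : HH} (hq : q ≠ 0) (x : E3) : ContinuousAt (fun q => rot q x) q := by
  unfold rot
  refine rot_aux_co.continuousAt.comp ?_
  exact (continuousAt_id.mul continuousAt_const).mul (continuousAt_inv₀ hq)

end Pool.Agent.LibMS49
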