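import Pool.Agent.LibMS49.Height
set_option autoImplicit false
namespace Pool.Agent.LibMS49
open MeasureTheory Metric Set Filter Topology

theorem norm_e0 : ‖e0‖ = 1 := by
  rw [EuclideanSpace.norm_eq]
  simp [e0, Fin.sum_univ_three]

/-- for fixed `q ≠ 0` the map `x ↦ p + rot q x` is an isometry; swap (`W` replaced by a measurable null superset) -/
theorem ae_ae_isometry {W : Set E3} (hW : volume W = 0) (p : E3) :
    ∀ᵐ x : E3, ∀ᵐ q : HH, p + rot q x ∉ W := by
  set M := toMeasurable volume W with hM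
  have hMm : MeasurableSet M := measurableSet_toMeasurable _ _
  have hM0 : volume M = 0 := by rw [hM, measure_toMeasurable, hW]
  have hWM : W ⊆ M := subset_toMeasurable _ _
  have hmeas : MeasurableSet {z : HH × E3 | p + rot z.1 z.2 ∉ M} := by
    have : Measurable (fun z : HH × E3 => p + rot z.1 z.2) := measurable_rot.const_add p
    exact (this hMm).compl
  have h1 : ∀ᵐ q : HH, ∀ᵐ x : E3, p + rot q x ∉ M := by
    filter_upwards [ae_ne_zero] with q hq
    let L : E3 →ₗᵢ[ℝ] E3 :=
      { toFun := rot q, map_add' := rot_add q, map_smul' := fun c x => rot_smul q c x,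
        norm_map' := fun x => norm_rot hq x }
    have hmp := (L.toLinearIsometryEquiv rfl).measurePreserving
    have h2 : ∀ᵐ y : E3, p + y ∉ M := by
      have h3 : ∀ᵐ y : E3, y ∉ M := by
        rw [ae_iff]; simpa using hM0
      exact (measurePreserving_add_left volume p).quasiMeasurePreserving.ae h3
    exact hmp.quasiMeasurePreserving.ae h2
  have h2 := (Measure.ae_ae_comm (μ := (volume : Measure HH)) (ν := (volume : Measure E3))
    (p := fun q x => p + rot q x ∉ M) hmeas).1 h1
  filter_upwards [h2] with x hx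
  filter_upwards [hx] with q hq
  exact fun h => hq (hWM h)

/-- `x = ‖x‖ • rot g e0`, `rot q x = ‖x‖ • rot (q * g) e0` -/
theorem exists_dir (x : E3) : ∃ g : HH, g ≠ 0 ∧ rot g (‖x‖ • e0) = x := by
  apply exists_rot
  rw [norm_smul, norm_norm, norm_e0, mul_one]

/-- `x = ‖x‖ • rot g e0`, `rot q x = ‖x‖ • rot (q * g) e0` -/
theorem ae_radius {W : Set E3} (hW : volume W = 0) (p : E3) :
    ∀ᵐ x : E3, ∀ᵐ q : HH, p + ‖x‖ • rot q e0 ∉ W := by
  filter_upwards [ae_ae_isometry hW p] with x hx
  obtain ⟨g, hg, hgx⟩ := exists_dir x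
  have h := ae_mul_right (inv_ne_zero hg) hx
  filter_upwards [h] with q hq
  have : rot (q * g⁻¹) x = ‖x‖ • rot q e0 := by
    conv_lhs => rw [← hgx]
    rw [← rot_mul, mul_assoc, inv_mul_cancel₀ hg, mul_one, rot_smul]
  rwa [this] at hq

/-- a property of the norm which holds for a.e. `x ∈ ℝ³` holds for a.e. `t > 0`: measurable null superset `M` of the bad
set, for `t ≠ 0` a.e. `t • x ∉ M`, swap, choose one `x ≠ 0`, rescale -/
theorem ae_of_ae_norm {P : ℝ → Prop} (h : ∀ᵐ x : E3, P ‖x‖) : ∀ᵐ t : ℝ, 0 < t → P t := by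
  set M := toMeasurable volume {x : E3 | ¬ P ‖x‖} with hM
  have hMm : MeasurableSet M := measurableSet_toMeasurable _ _
  have hM0 : volume M = 0 := by rw [hM, measure_toMeasurable]; exact h
  have hWM : {x : E3 | ¬ P ‖x‖} ⊆ M := subset_toMeasurable _ _
  have hmeas : MeasurableSet {z : ℝ × E3 | z.1 • z.2 ∉ M} := by
    have : Measurable (fun z : ℝ × E3 => z.1 • z.2) := measurable_fst.smul measurable_snd
    exact (this hMm).compl
  have h1 : ∀ᵐ t : ℝ, ∀ᵐ x : E3, t • x ∉ M := by
    filter_upwards [Measure.ae_ne volume (0 : ℝ)] with t ht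
    rw [ae_iff]
    have : {x : E3 | ¬ t • x ∉ M} = (fun x => t • x) ⁻¹' M := by
      ext x; simp
    rw [this, Measure.addHaar_preimage_smul _ ht, hM0, mul_zero]
  have h2 := (Measure.ae_ae_comm (μ := (volume : Measure ℝ)) (ν := (volume : Measure E3))
    (p := fun t x => t • x ∉ M) hmeas).1 h1
  obtain ⟨x, hx, hx0⟩ := (h2.and (Measure.ae_ne volume (0 : E3))).exists
  have hn : 0 < ‖x‖ := norm_pos_iff.2 hx0
  have h3 : ∀ᵐ t : ℝ, (‖x‖⁻¹ * t) • x ∉ M := by
    rw [ae_iff] at hx ⊢
    have : {t : ℝ | ¬ (‖x‖⁻¹ * t) • x ∉ M} = (fun t => ‖x‖⁻¹ • t) ⁻¹' {t : ℝ | ¬ t • x ∉ M} := by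
      ext t; simp
    rw [this, Measure.addHaar_preimage_smul _ (inv_ne_zero hn.ne'), hx, mul_zero]
  filter_upwards [h3] with t ht htpos
  by_contra hP
  apply ht
  apply hWM
  simp only [mem_ofPred_eq]
  rw [norm_smul, Real.norm_eq_abs, abs_of_pos (by positivity)]
  rwa [mul_comm ‖x‖⁻¹ t, mul_assoc, inv_mul_cancel₀ hn.ne', mul_one]

/-- the norm of `r e0 + s (random unit vector)` has an absolutely continuous distribution:
`‖r e0 + s rot q e0‖² = r² + s² + 2 r s ⟨e0, rot q e0⟩`; the set of heights for which `P` fails is contained in the image of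
a null set under `t ↦ (t² - r² - s²)/(2rs)`; `height_null`, `height_ne` -/
theorem ae_norm_sum {P : ℝ → Prop} (h : ∀ᵐ t : ℝ, 0 < t → P t) {r s : ℝ} (hr : 0 < r)
    (hs : 0 < s) : ∀ᵐ q : HH, P ‖r • e0 + s • rot q e0‖ := by
  have hN : volume {t : ℝ | ¬ (0 < t → P t)} = 0 := h
  have hN' : volume ((fun t : ℝ => (t ^ 2 - r ^ 2 - s ^ 2) / (2 * r * s)) ''
      {t : ℝ | ¬ (0 < t → P t)}) = 0 := by
    apply addHaar_image_eq_zero_of_differentiableOn_of_addHaar_eq_zero _ _ hN
    intro t _
    apply DifferentiableAt.differentiableWithinAt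
    fun_prop
  filter_upwards [height_null hN' norm_e0 norm_e0, height_ne norm_e0 norm_e0, ae_ne_zero]
    with q hq1 hq2 hq0
  have hsq : ‖r • e0 + s • rot q e0‖ ^ 2 =
      r ^ 2 + s ^ 2 + 2 * r * s * inner ℝ e0 (rot q e0) := by
    rw [@norm_add_sq_real, norm_smul, norm_smul, norm_rot hq0, norm_e0, inner_smul_left,
      inner_smul_right, Real.norm_eq_abs, Real.norm_eq_abs, mul_one, mul_one, sq_abs, sq_abs]
    simp
    ring
  have hpos : 0 < ‖r • e0 + s • rot q e0‖ := by
    have h1 : 0 < ‖r • e0 + s • rot q e0‖ ^ 2 := by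
      rw [hsq]
      have := (abs_lt.1 hq2).1
      nlinarith [mul_pos hr hs, sq_nonneg (r - s)]
    by_contra hcon
    have : ‖r • e0 + s • rot q e0‖ = 0 := le_antisymm (not_lt.1 hcon) (norm_nonneg _)
    rw [this] at h1
    norm_num at h1
  by_contra hP
  apply hq1
  refine ⟨‖r • e0 + s • rot q e0‖, fun hcon => hP (hcon hpos), ?_⟩
  simp only
  rw [hsq]
  field_simp
  ring

private theorem meas_rot_comp {α : Type*} [MeasurableSpace α] {f : α → HH} {g : α → E3}
    (hf : Measurable f) (hg : Measurable g) : Measurable (fun z => rot (f z) (g z)) := by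
  have h : Measurable (fun z => (f z, g z)) := hf.prodMk hg
  have h2 := Measurable.comp (g := fun p : HH × E3 => rot p.1 p.2) measurable_rot h
  exact h2

private theorem meas_mul_swap : Measurable (fun z : HH × HH => z.2 * z.1) := by
  have h : Continuous (fun z : HH × HH => z.2 * z.1) := continuous_snd.mul continuous_fst
  exact h.measurable

private theorem meas_aux {α : Type*} [MeasurableSpace α] (p : E3) (r s : ℝ) {a b : α → E3}
    (ha : Measurable a) (hb : Measurable b) : Measurable (fun z => p + r • a z + s • b z) :=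
  (measurable_const.add (ha.const_smul r)).add (hb.const_smul s)

/-- two steps on spheres in `ℝ³`: absolutely continuous.  For a.e. `q'`, a.e. `q`:
`p + rot q (r e0 + s rot q' e0) ∉ W`, swap, and replace `q'` by `q⁻¹ q'` -/
theorem two_step_sphere {W : Set E3} (hW : volume W = 0) (p : E3) {r s : ℝ} (hr : 0 < r)
    (hs : 0 < s) : ∀ᵐ q : HH, ∀ᵐ q' : HH, p + r • rot q e0 + s • rot q' e0 ∉ W := by
  set M := toMeasurable volume W with hM
  have hMm : MeasurableSet M := measurableSet_toMeasurable _ _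
  have hM0 : volume M = 0 := by rw [hM, measure_toMeasurable, hW]
  have hWM : W ⊆ M := subset_toMeasurable _ _
  have hrad := ae_of_ae_norm (P := fun t => ∀ᵐ q : HH, p + t • rot q e0 ∉ M) (ae_radius hM0 p)
  have hsum := ae_norm_sum hrad hr hs
  have h1 : ∀ᵐ q' : HH, ∀ᵐ q : HH, p + r • rot q e0 + s • rot (q * q') e0 ∉ M := by
    filter_upwards [hsum] with q' hq'
    obtain ⟨g, hg, hgx⟩ := exists_dir (r • e0 + s • rot q' e0)
    filter_upwards [ae_mul_right hg hq'] with q hq
    have : ‖r • e0 + s • rot q' e0‖ • rot (q * g) e0 = r • rot q e0 + s • rot (q * q') e0 := by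
      rw [rot_mul, ← rot_smul, ← rot_smul, hgx, rot_add, rot_smul, rot_smul, rot_mul]
    rw [this] at hq
    rwa [add_assoc]
  have hmeas : MeasurableSet {z : HH × HH | p + r • rot z.2 e0 + s • rot (z.2 * z.1) e0 ∉ M} := by
    have m1 : Measurable (fun z : HH × HH => rot z.2 e0) :=
      meas_rot_comp (f := fun z : HH × HH => z.2) (g := fun _ => e0) measurable_snd
        measurable_const
    have m2 : Measurable (fun z : HH × HH => rot (z.2 * z.1) e0) :=
      meas_rot_comp (f := fun z : HH × HH => z.2 * z.1) (g := fun _ => e0) meas_mul_swap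
        measurable_const
    have m3 := meas_aux p r s m1 m2
    exact (m3 hMm).compl
  have h2 := (Measure.ae_ae_comm (μ := (volume : Measure HH)) (ν := (volume : Measure HH))
    (p := fun q' q => p + r • rot q e0 + s • rot (q * q') e0 ∉ M) hmeas).1 h1
  filter_upwards [h2, ae_ne_zero] with q hq hq0
  filter_upwards [ae_mul_left (inv_ne_zero hq0) hq] with q' hq'
  rw [← mul_assoc, mul_inv_cancel₀ hq0, one_mul] at hq'
  exact fun h => hq' (hWM h)

end Pool.Agent.LibMS49
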