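import Pool.Agent.LibMS49.DensB
import Pool.Agent.LibMS49.DensT
import Pool.Agent.LibMS49.DensA
import Pool.Agent.LibMS49.DensM
import Pool.Agent.LibMS49.Ae
set_option autoImplicit false
namespace Pool.Agent.LibMS49
open MeasureTheory Metric Set Filter Topology
set_option maxHeartbeats 400000

/-- `dens_mul_iff` with `q = 1`, `c = q`: `rot (h * q) x = rot h (rot q x)` -/
theorem dens_rot_iff {q : HH} (hq : q ≠ 0) (A : Set E3) (x : E3) :
    Dens q {q' | rot q' x ∈ A} ↔ St A (rot q x) := by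
  have h := dens_mul_iff 1 q hq {q' | rot q' x ∈ A}
  rw [one_mul] at h
  rw [h, St]
  simp only [mem_ofPred_eq, rot_mul]

theorem measurable_rot_left (x : E3) : Measurable (fun q : HH => rot q x) := by
  have h0 : Measurable fun q : HH => (q, x) := measurable_id.prodMk measurable_const
  have h1 := Measurable.comp measurable_rot h0
  exact h1

theorem measurable_rot_swap : Measurable (fun p : E3 × HH => rot p.2 p.1) := by
  have h0 : Measurable fun p : E3 × HH => (p.2, p.1) := measurable_swap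
  have h1 := Measurable.comp measurable_rot h0
  exact h1

/-- `ae_dens` for the measurable set `{q | rot q x ∈ A}` -/
theorem ae_st {A : Set E3} (hA : MeasurableSet A) (x : E3) :
    ∀ᵐ q : HH, rot q x ∈ A → St A (rot q x) := by
  have h1 := measurable_rot_left x
  have h2 := ae_dens (V := HH) (E := {q : HH | rot q x ∈ A}) (h1 hA)
  filter_upwards [h2, ae_ne_zero] with q hq hq0 hqA
  exact (dens_rot_iff hq0 A x).1 (hq hqA)

theorem measurableSet_st {A : Set E3} (hA : MeasurableSet A) : MeasurableSet {y | St A y} := by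
  have h1 : MeasurableSet {p : E3 × HH | rot p.2 p.1 ∈ A} := measurable_rot_swap hA
  exact measurableSet_dens (V := HH) h1 (φ := fun _ : E3 => (1 : HH)) measurable_const

/-- perturbation of finitely many points: if the `xs` are stable for the `As`, `y` is not stable for `B`,
and `P` holds for a.e. `h`, then some `h ≠ 0` moves all `xs` into the `As`, does not move `y` into `B`, and satisfies `P`.
(`Dens.inter`, `exists_of_dens`, `dens_of_ae`) -/
theorem perturb {A₁ A₂ A₃ B : Set E3} {x₁ x₂ x₃ y : E3} (h₁ : St A₁ x₁) (h₂ : St A₂ x₂)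
    (h₃ : St A₃ x₃) (hy : ¬ St B y) {P : HH → Prop} (hP : ∀ᵐ h : HH, P h) :
    ∃ h : HH, h ≠ 0 ∧ rot h x₁ ∈ A₁ ∧ rot h x₂ ∈ A₂ ∧ rot h x₃ ∈ A₃ ∧ rot h y ∉ B ∧ P h := by
  have hP' : volume ({h : HH | P h ∧ h ≠ 0})ᶜ = 0 := (hP.and ae_ne_zero)
  have h4 : Dens (1 : HH) {h : HH | P h ∧ h ≠ 0} := dens_of_ae hP' 1
  have h5 := ((h₁.inter h₂).inter h₃).inter h4
  obtain ⟨h, hh, hB⟩ := exists_of_dens h5 hy
  exact ⟨h, hh.2.2, hh.1.1.1, hh.1.1.2, hh.1.2, hB, hh.2.1⟩

end Pool.Agent.LibMS49
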