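import Pool.Agent.LibMS49.Geo
set_option autoImplicit false
namespace Pool.Agent.LibMS49
open MeasureTheory Metric Set Filter Topology

theorem wc_meas (R : HH × E3 → E3) (hR : Measurable R) (u z : E3) :
    Measurable (fun θ : ℝ => R (ax u θ, z)) := by
  have h2 : Measurable (fun _ : ℝ => z) := measurable_const
  exact hR.comp (Measurable.prodMk (measurable_ax u) h2)

theorem st_disjoint {A B : Set E3} (h : Disjoint A B) {x : E3} (h1 : St A x) (h2 : St B x) :
    False := by
  refine Dens.not_disjoint h1 h2 ?_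
  rw [Set.disjoint_left]
  intro g hg hg'
  exact Set.disjoint_left.1 h hg hg'

/-- around a wild point `u` of the sphere one of the two circles (60° and 90°) contains a positive length of wild points.
Otherwise `octa`, `octa_geometry` give the relation of `circle_contra` for
`S = {θ | St A (rot (ax u θ) y)}`, `T = {θ | St B (rot (ax u θ) y)}` (`ax_add_pi`, `rot_neg`, `measurableSet_st`, `measurable_ax`,
`measurable_rot`; disjointness from `Dens.not_disjoint`) -/
theorem wild_circle {A B : Set E3} (h : Cfg A B) {u z : E3} (hu : Wd A B u) (hz : ‖z‖ = 1)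
    (huz : inner ℝ u z = (0 : ℝ))
    (h1 : ∀ᵐ θ : ℝ, ¬ Wd A B (rot (ax u θ) ((1 / 2 : ℝ) • u + (Real.sqrt 3 / 2) • z)))
    (h2 : ∀ᵐ θ : ℝ, ¬ Wd A B (rot (ax u θ) z)) : False := by
  obtain ⟨hu1, huA, huB⟩ := hu
  set y : E3 := (1 / 2 : ℝ) • u + (Real.sqrt 3 / 2) • z with hy
  have hm : Measurable (fun θ : ℝ => rot (ax u θ) y) :=
    wc_meas (fun p => rot p.1 p.2) measurable_rot u y
  have hgeo := octa_geometry hu1 hz huz
  have hny : ∀ θ : ℝ, ‖rot (ax u θ) y‖ = 1 := by
    intro θ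
    have := (hgeo (θ - gam)).2.1
    rwa [sub_add_cancel] at this
  have hor : ∀ θ : ℝ, ¬ Wd A B (rot (ax u θ) y) →
      St A (rot (ax u θ) y) ∨ St B (rot (ax u θ) y) := by
    intro θ hθ
    by_contra hcon
    rw [not_or] at hcon
    exact hθ ⟨hny θ, hcon⟩
  have hperiod : ∀ θ : ℝ, rot (ax u (θ + Real.pi)) y = rot (ax u θ) y := by
    intro θ
    rw [ax_add_pi, rot_neg]
  have h1p : ∀ᵐ θ : ℝ, ¬ Wd A B (rot (ax u (θ + gam)) y) :=
    (measurePreserving_add_right (volume : Measure ℝ) gam).quasiMeasurePreserving.ae h1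
  have h1m : ∀ᵐ θ : ℝ, ¬ Wd A B (rot (ax u (θ - gam)) y) :=
    (measurePreserving_sub_right (volume : Measure ℝ) gam).quasiMeasurePreserving.ae h1
  refine circle_contra (S := {θ | St A (rot (ax u θ) y)}) (T := {θ | St B (rot (ax u θ) y)})
    (hm (measurableSet_st h.mA)) (hm (measurableSet_st h.mB)) ?_ ?_ ?_ ?_ ?_
  · rw [Set.disjoint_left]
    intro θ ha hb
    exact st_disjoint h.disj ha hb
  · filter_upwards [h1] with θ hθ
    exact hor θ hθ
  · intro θ
    simp only [Set.mem_ofPred_eq, hperiod]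
  · intro θ
    simp only [Set.mem_ofPred_eq, hperiod]
  · filter_upwards [h1p, h1m, h2] with θ a1 a2 a3
    obtain ⟨g1, g2, g3, g4, g5, g6, g7⟩ := hgeo θ
    have hu' : St A (rot (ax u θ) z) ∨ St B (rot (ax u θ) z) := by
      by_contra hcon
      rw [not_or] at hcon
      exact a3 ⟨g1, hcon⟩
    exact octa h hu1 g1 g2 g3 g4 g5 g6 g7 huA huB hu' (hor _ a1) (hor _ a2)

end Pool.Agent.LibMS49
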