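import Pool.Agent.LibMS49.Cfg0
import Pool.Agent.LibMS49.Level1
import Pool.Agent.LibMS49.Sphere
set_option autoImplicit false
namespace Pool.Agent.LibMS49
open MeasureTheory Metric Set Filter Topology

private def WW (x₀ : E3) (A B : Set E3) : Set E3 :=
  {x | x ∈ ball x₀ 4 ∧ ¬ Dens x A ∧ ¬ Dens x B}

private theorem WW_null {x₀ : E3} {A B : Set E3} (h : Cfg0 x₀ A B) : volume (WW x₀ A B) = 0 := by
  have h1 : ∀ᵐ x : E3, x ∉ ball x₀ 4 \ (A ∪ B) := by
    exact measure_eq_zero_iff_ae_notMem.1 h.full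
  have h2 : ∀ᵐ x : E3, ¬ (x ∈ ball x₀ 4 ∧ ¬ Dens x A ∧ ¬ Dens x B) := by
    filter_upwards [h1, ae_dens h.mA, ae_dens h.mB] with x hx hA hB
    rintro ⟨hx0, hxA, hxB⟩
    apply hx
    refine ⟨hx0, ?_⟩
    rintro (hh | hh)
    · exact hxA (hA hh)
    · exact hxB (hB hh)
  rw [ae_iff] at h2
  refine measure_mono_null ?_ h2
  intro x hx hx'
  exact hx' hx

private theorem sqrt_two_lt : Real.sqrt 2 < 3 / 2 := by
  rw [Real.sqrt_lt' (by norm_num)]
  norm_num

private theorem step_mem {x₀ p : E3} {R s : ℝ} (hp : p ∈ ball x₀ R) (hs0 : 0 < s)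
    (hs : s < 3 / 2) {q : HH} (hq : q ≠ 0) : p + s • rot q e0 ∈ ball x₀ (R + 3 / 2) := by
  rw [mem_ball] at hp ⊢
  have h1 : dist (p + s • rot q e0) p = s := by
    rw [dist_eq_norm, add_sub_cancel_left, norm_smul, norm_rot hq, norm_e0, mul_one,
      Real.norm_eq_abs, abs_of_pos hs0]
  have h2 := dist_triangle (p + s • rot q e0) p x₀
  linarith

private theorem wild_key {x₀ : E3} {A B : Set E3} (h : Cfg0 x₀ A B) {p : E3}
    (hp : p ∈ ball x₀ (5 / 2)) (hA : ¬ Dens p A) (hB : ¬ Dens p B) :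
    ¬ (∀ᵐ q : HH, p + (1 : ℝ) • rot q e0 ∉ WW x₀ A B) ∨
    ¬ (∀ᵐ q : HH, p + Real.sqrt 2 • rot q e0 ∉ WW x₀ A B) := by
  by_contra hcon
  rw [not_or, not_not, not_not] at hcon
  obtain ⟨h1, h2⟩ := hcon
  have hp4 : p ∈ ball x₀ 4 := ball_subset_ball (by norm_num) hp
  have e52 : (5 / 2 : ℝ) + 3 / 2 = 4 := by norm_num
  refine level1 (cfg_of_wild h hp4 hA hB ?_ ?_)
  · filter_upwards [h1, ae_ne_zero] with q hq hq0
    have hm := step_mem hp one_pos (by norm_num) hq0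
    rw [e52] at hm
    rw [one_smul] at hm hq
    by_contra hc
    rw [not_or] at hc
    exact hq ⟨hm, hc.1, hc.2⟩
  · filter_upwards [h2, ae_ne_zero] with q hq hq0
    have hm := step_mem hp (by positivity) sqrt_two_lt hq0
    rw [e52] at hm
    by_contra hc
    rw [not_or] at hc
    exact hq ⟨hm, hc.1, hc.2⟩

/-- no wild point in the ball of radius one: `W = {x ∈ ball x₀ 4 | ¬ Dens x A ∧ ¬ Dens x B}` is null (`ae_dens`).
If `p ∈ W ∩ ball x₀ 1`, then by `cfg_of_wild` and `level1` for one of `r ∈ {1, √2}` not (a.e. `p + r • rot q e0 ∉ W`);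
`two_step_sphere` for `(r, 1)` and `(r, √2)`: choose `q` with `p₁ = p + r • rot q e0 ∈ W` (`p₁ ∈ ball x₀ (5/2)`) and a.e. `q'`:
`p₁ + s • rot q' e0 ∉ W`, `s = 1, √2`; these points are in `ball x₀ 4`: contradiction to `cfg_of_wild`, `level1` at `p₁` -/
theorem no_wild_point {x₀ : E3} {A B : Set E3} (h : Cfg0 x₀ A B) (p : E3) (hp : p ∈ ball x₀ 1) :
    Dens p A ∨ Dens p B := by
  by_contra hcon
  rw [not_or] at hcon
  obtain ⟨hA, hB⟩ := hcon
  have main : ∀ r : ℝ, 0 < r → r < 3 / 2 → ¬ (∀ᵐ q : HH, p + r • rot q e0 ∉ WW x₀ A B) →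
      False := by
    intro r hr0 hr hq
    apply hq
    have t1 := two_step_sphere (WW_null h) p hr0 one_pos
    have t2 := two_step_sphere (WW_null h) p hr0 (s := Real.sqrt 2) (by positivity)
    filter_upwards [t1, t2, ae_ne_zero] with q h1 h2 hq0 hW
    have hm := step_mem hp hr0 hr hq0
    have e1 : (1 : ℝ) + 3 / 2 = 5 / 2 := by norm_num
    rw [e1] at hm
    rcases wild_key h hm hW.2.1 hW.2.2 with h3 | h3
    · exact h3 h1
    · exact h3 h2
  have hp' : p ∈ ball x₀ (5 / 2) := ball_subset_ball (by norm_num) hp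
  rcases wild_key h hp' hA hB with h3 | h3
  · exact main 1 one_pos (by norm_num) h3
  · exact main (Real.sqrt 2) (by positivity) sqrt_two_lt h3

end Pool.Agent.LibMS49
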