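import Pool.Agent.LibMS49.WildCircle
import Pool.Agent.LibMS49.Circle
set_option autoImplicit false
namespace Pool.Agent.LibMS49
open MeasureTheory Metric Set Filter Topology

private theorem exists_perp (u : E3) : ∃ z : E3, ‖z‖ = 1 ∧ inner ℝ u z = (0 : ℝ) := by
  by_cases h : u 0 ^ 2 + u 1 ^ 2 = 0
  · refine ⟨!₂[1, 0, 0], ?_, ?_⟩
    · rw [EuclideanSpace.norm_eq, Fin.sum_univ_three]
      simp
    · have h0 : u 0 = 0 := by nlinarith [sq_nonneg (u 0), sq_nonneg (u 1)]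
      rw [PiLp.inner_apply, Fin.sum_univ_three]
      simp [h0]
  · have hpos : 0 < u 0 ^ 2 + u 1 ^ 2 := lt_of_le_of_ne (by positivity) (Ne.symm h)
    set r := Real.sqrt (u 0 ^ 2 + u 1 ^ 2) with hr
    have hr0 : 0 < r := Real.sqrt_pos.2 hpos
    have hr2 : r ^ 2 = u 0 ^ 2 + u 1 ^ 2 := Real.sq_sqrt hpos.le
    refine ⟨!₂[-u 1 / r, u 0 / r, 0], ?_, ?_⟩
    · rw [EuclideanSpace.norm_eq, Fin.sum_univ_three, Real.sqrt_eq_one]
      simp
      field_simp
      simp only [sq_abs]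
      rw [hr2]; ring
    · rw [PiLp.inner_apply, Fin.sum_univ_three]
      simp
      field_simp
      ring

private theorem wild_step {A B : Set E3} (h : Cfg A B)
    (hZm : MeasurableSet {y : E3 | Wd A B y}) (hZ : ∀ᵐ q : HH, rot q e0 ∉ {y : E3 | Wd A B y})
    {u y : E3} (hu : ‖u‖ = 1) (hy : ‖y‖ = 1) (huy : |(inner ℝ u y : ℝ)| < 1)
    (hfr : ¬ ∀ᵐ θ : ℝ, ¬ Wd A B (rot (ax u θ) y)) : False := by
  obtain ⟨t, ht, hyt⟩ := exists_perp y
  have h3 : Real.sqrt 3 ^ 2 = 3 := Real.sq_sqrt (by norm_num)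
  have hyy : (inner ℝ y y : ℝ) = 1 := by rw [real_inner_self_eq_norm_sq, hy]; norm_num
  have htt : (inner ℝ t t : ℝ) = 1 := by rw [real_inner_self_eq_norm_sq, ht]; norm_num
  have hty : (inner ℝ t y : ℝ) = 0 := by rw [real_inner_comm]; exact hyt
  set s : E3 := (1 / 2 : ℝ) • y + (Real.sqrt 3 / 2) • t with hs
  have hys : (inner ℝ y s : ℝ) = 1 / 2 := by
    rw [hs, inner_add_right, inner_smul_right, inner_smul_right, hyy, hyt]; ring
  have hss : ‖s‖ = 1 := by
    have : ‖s‖ ^ 2 = 1 := by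
      rw [← real_inner_self_eq_norm_sq, hs]
      simp only [inner_add_left, inner_add_right, inner_smul_left, inner_smul_right, hyy, htt, hyt,
        hty, conj_trivial]
      nlinarith
    nlinarith [norm_nonneg s, sq_nonneg (‖s‖ - 1), sq_nonneg (‖s‖ + 1)]
  have e1 := two_step_circle hZm hZ hu hy hss huy (by rw [hys]; norm_num)
  have e2 := two_step_circle hZm hZ hu hy ht huy (by rw [hyt]; norm_num)
  have hfr' : ∃ᵐ θ : ℝ, Wd A B (rot (ax u θ) y) := hfr
  obtain ⟨θ, hθ, hθ1, hθ2⟩ := (hfr'.and_eventually (e1.and e2)).exists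
  have hg : ax u θ ≠ 0 := ax_ne_zero hu θ
  refine wild_circle h (u := rot (ax u θ) y) (z := rot (ax u θ) t) hθ
    (by rw [norm_rot hg, ht]) (by rw [inner_rot hg, hyt]) ?_ ?_
  · filter_upwards [hθ1] with θ' h4
    have h5 : rot (ax (rot (ax u θ) y) θ')
        ((1 / 2 : ℝ) • rot (ax u θ) y + (Real.sqrt 3 / 2) • rot (ax u θ) t) =
        rot (ax u θ) (rot (ax y θ') s) := by
      rw [← rot_conj hg, hs, rot_add (ax u θ), rot_smul (ax u θ), rot_smul (ax u θ)]
    rw [h5]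
    exact h4
  · filter_upwards [hθ2] with θ' h4
    rw [rot_conj hg]
    exact h4

/-- no wild point on the sphere.  Let `Z = {y | Wd A B y}` (measurable, and a.e. `rot q e0 ∉ Z` by `ae_st`, `full1`).
Suppose `u` is wild, `z ⟂ u` unit, `y₁ = (1/2)u + (√3/2) z`, `y₂ = z`.  By `wild_circle` for some `i` not (a.e. `θ`:
`rot (ax u θ) y_i ∉ Z`).  For unit `t ⟂ y_i` and `s = (1/2) y_i + (√3/2) t`, `two_step_circle` gives: a.e. `θ`, a.e. `θ'`:
`rot (ax u θ) (rot (ax y_i θ') s) ∉ Z` and the same with `t`.  Choose `θ` with these properties and `v = rot (ax u θ) y_i ∈ Z`;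
`rot_conj`: `rot (ax u θ) (rot (ax y_i θ') s) = rot (ax v θ') (rot (ax u θ) s)`: contradiction to `wild_circle` at `v` with
the vector `rot (ax u θ) t` -/
theorem no_wild_sphere {A B : Set E3} (h : Cfg A B) (u : E3) : ¬ Wd A B u := by
  intro hu
  have hZm : MeasurableSet {y : E3 | Wd A B y} := by
    have h1 : MeasurableSet {y : E3 | ‖y‖ = 1} :=
      measurableSet_eq_fun measurable_norm measurable_const
    exact h1.inter ((measurableSet_st h.mA).compl.inter (measurableSet_st h.mB).compl)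
  have hZ : ∀ᵐ q : HH, rot q e0 ∉ {y : E3 | Wd A B y} := by
    filter_upwards [h.full1, ae_st h.mA e0, ae_st h.mB e0] with q h1 h2 h3 h4
    rcases h1 with h1 | h1
    · exact h4.2.1 (h2 h1)
    · exact h4.2.2 (h3 h1)
  have hu1 := hu.1
  have huu : (inner ℝ u u : ℝ) = 1 := by rw [real_inner_self_eq_norm_sq, hu1]; norm_num
  obtain ⟨z, hz, huz⟩ := exists_perp u
  have hzu : (inner ℝ z u : ℝ) = 0 := by rw [real_inner_comm]; exact huz
  have hzz : (inner ℝ z z : ℝ) = 1 := by rw [real_inner_self_eq_norm_sq, hz]; norm_num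
  have h3 : Real.sqrt 3 ^ 2 = 3 := Real.sq_sqrt (by norm_num)
  by_cases c1 : ∀ᵐ θ : ℝ, ¬ Wd A B (rot (ax u θ) ((1 / 2 : ℝ) • u + (Real.sqrt 3 / 2) • z))
  · by_cases c2 : ∀ᵐ θ : ℝ, ¬ Wd A B (rot (ax u θ) z)
    · exact wild_circle h hu hz huz c1 c2
    · exact wild_step h hZm hZ hu1 hz (by rw [huz]; norm_num) c2
  · set s : E3 := (1 / 2 : ℝ) • u + (Real.sqrt 3 / 2) • z with hs
    have hus : (inner ℝ u s : ℝ) = 1 / 2 := by
      rw [hs, inner_add_right, inner_smul_right, inner_smul_right, huu, huz]; ring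
    have hss : ‖s‖ = 1 := by
      have : ‖s‖ ^ 2 = 1 := by
        rw [← real_inner_self_eq_norm_sq, hs]
        simp only [inner_add_left, inner_add_right, inner_smul_left, inner_smul_right, huu, hzz,
          huz, hzu, conj_trivial]
        nlinarith
      nlinarith [norm_nonneg s, sq_nonneg (‖s‖ - 1), sq_nonneg (‖s‖ + 1)]
    exact wild_step h hZm hZ hu1 hss (by rw [hus]; norm_num) c1

end Pool.Agent.LibMS49
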